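import Mathlib

/-!
# Normal forms in free products
-/

set_option autoImplicit false

namespace Pool.Agent.TH88.SI.FP

open Monoid

variable {ι : Type} {H : ι → Type} [∀ i, Group (H i)]

/-- reduced words. -/
def IsW (l : List (Σ i, H i)) : Prop :=
  (∀ s ∈ l, s.2 ≠ 1) ∧ l.IsChain (fun s t => s.1 ≠ t.1)

/-- the product of a word. -/
def pr (l : List (Σ i, H i)) : CoprodI H := (l.map fun s => (CoprodI.of s.2 : CoprodI H)).prod

theorem pr_nil : pr ([] : List (Σ i, H i)) = 1 := rfl

theorem pr_cons (s : Σ i, H i) (l : List (Σ i, H i)) : pr (s :: l) = CoprodI.of s.2 * pr l := by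
  simp [pr]

theorem pr_append (l l' : List (Σ i, H i)) : pr (l ++ l') = pr l * pr l' := by
  simp [pr]

theorem exists_wd (g : CoprodI H) : ∃ l : List (Σ i, H i), IsW l ∧ pr l = g := by
  classical
  refine ⟨(CoprodI.Word.equiv g).toList, ⟨(CoprodI.Word.equiv g).ne_one,
    (CoprodI.Word.equiv g).chain_ne⟩, ?_⟩
  exact CoprodI.Word.equiv.symm_apply_apply g

theorem pr_inj {l l' : List (Σ i, H i)} (hl : IsW l) (hl' : IsW l') (h : pr l = pr l') :
    l = l' := by
  classical
  let w : CoprodI.Word H := ⟨l, hl.1, hl.2⟩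
  let w' : CoprodI.Word H := ⟨l', hl'.1, hl'.2⟩
  have h1 : CoprodI.Word.equiv.symm w = CoprodI.Word.equiv.symm w' := h
  have h2 : w = w' := CoprodI.Word.equiv.symm.injective h1
  exact congrArg CoprodI.Word.toList h2

/-- the reduced word of an element. -/
noncomputable def wd (g : CoprodI H) : List (Σ i, H i) := (exists_wd g).choose

theorem wd_isW (g : CoprodI H) : IsW (wd g) := (exists_wd g).choose_spec.1

theorem pr_wd (g : CoprodI H) : pr (wd g) = g := (exists_wd g).choose_spec.2

theorem wd_pr {l : List (Σ i, H i)} (hl : IsW l) : wd (pr l) = l :=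
  pr_inj (wd_isW _) hl (pr_wd _)

theorem isW_nil : IsW ([] : List (Σ i, H i)) := ⟨by simp, by simp⟩

theorem wd_one : wd (1 : CoprodI H) = [] := wd_pr isW_nil

theorem wd_eq_nil {g : CoprodI H} : wd g = [] ↔ g = 1 := by
  constructor
  · intro h
    rw [← pr_wd g, h, pr_nil]
  · rintro rfl
    exact wd_one

/-- the type of the last letter. -/
noncomputable def ty (g : CoprodI H) : Option ι := (wd g).getLast?.map Sigma.fst

theorem ty_one : ty (1 : CoprodI H) = none := by rw [ty, wd_one]; rfl

theorem ty_eq_none {g : CoprodI H} : ty g = none ↔ g = 1 := by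
  rw [ty, Option.map_eq_none_iff, List.getLast?_eq_none_iff, wd_eq_nil]

theorem IsW.append {l : List (Σ i, H i)} (hl : IsW l) {k : ι} {h : H k} (hh : h ≠ 1)
    (hk : l.getLast?.map Sigma.fst ≠ some k) : IsW (l ++ [⟨k, h⟩]) := by
  refine ⟨?_, ?_⟩
  · intro s hs
    rcases List.mem_append.1 hs with hs | hs
    · exact hl.1 s hs
    · rw [List.mem_singleton] at hs
      subst hs
      exact hh
  · rw [List.isChain_append]
    refine ⟨hl.2, by simp, ?_⟩
    intro x hx y hy
    simp only [List.head?_cons, Option.mem_def, Option.some.injEq] at hy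
    subst hy
    intro he
    apply hk
    rw [Option.mem_def.1 hx, Option.map_some, he]

theorem wd_mul_of {g : CoprodI H} {k : ι} {h : H k} (hh : h ≠ 1) (hk : ty g ≠ some k) :
    wd (g * CoprodI.of h) = wd g ++ [⟨k, h⟩] := by
  have h1 : g * CoprodI.of h = pr (wd g ++ [⟨k, h⟩]) := by
    rw [pr_append, pr_wd, pr_cons, pr_nil, mul_one]
  rw [h1, wd_pr ((wd_isW g).append hh hk)]

theorem ty_mul_of {g : CoprodI H} {k : ι} {h : H k} (hh : h ≠ 1) (hk : ty g ≠ some k) :
    ty (g * CoprodI.of h) = some k := by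
  rw [ty, wd_mul_of hh hk]
  simp

theorem len_mul_of {g : CoprodI H} {k : ι} {h : H k} (hh : h ≠ 1) (hk : ty g ≠ some k) :
    (wd (g * CoprodI.of h)).length = (wd g).length + 1 := by
  rw [wd_mul_of hh hk]
  simp

theorem wd_of {k : ι} {h : H k} (hh : h ≠ 1) : wd (CoprodI.of h : CoprodI H) = [⟨k, h⟩] := by
  have h1 := wd_mul_of (g := (1 : CoprodI H)) hh (by rw [ty_one]; simp)
  rw [one_mul, wd_one] at h1
  exact h1

/-- decomposition on the left. -/
theorem exists_left (i : ι) (g : CoprodI H) : ∃ (h : H i) (l : List (Σ i, H i)), IsW l ∧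
    l.head?.map Sigma.fst ≠ some i ∧ g = CoprodI.of h * pr l := by
  have h0 := wd_isW g
  have h1 := pr_wd g
  rcases hw : wd g with _ | ⟨s, l⟩
  · refine ⟨1, [], isW_nil, by simp, ?_⟩
    rw [hw] at h1
    rw [← h1, map_one, one_mul]
  · rw [hw] at h0 h1
    by_cases hs : s.1 = i
    · subst hs
      refine ⟨s.2, l, ⟨fun t ht => h0.1 t (List.mem_cons_of_mem _ ht), ?_⟩, ?_, ?_⟩
      · exact (List.isChain_cons.1 h0.2).2
      · intro h
        obtain ⟨t, ht, ht2⟩ := Option.map_eq_some_iff.1 h
        exact (List.isChain_cons.1 h0.2).1 t ht ht2.symm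
      · rw [← h1, pr_cons]
    · refine ⟨1, s :: l, h0, ?_, ?_⟩
      · simpa using hs
      · rw [h1, map_one, one_mul]

theorem wd_of_mul {i : ι} {h : H i} {l : List (Σ i, H i)} (hl : IsW l) (hh : h ≠ 1)
    (hi : l.head?.map Sigma.fst ≠ some i) : wd (CoprodI.of h * pr l) = ⟨i, h⟩ :: l := by
  have h1 : CoprodI.of h * pr l = pr (⟨i, h⟩ :: l) := by rw [pr_cons]
  rw [h1]
  refine wd_pr ⟨?_, ?_⟩
  · intro s hs
    rcases List.mem_cons.1 hs with rfl | hs
    · exact hh
    · exact hl.1 s hs
  · rw [List.isChain_cons]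
    refine ⟨fun t ht he => hi ?_, hl.2⟩
    rw [Option.mem_def.1 ht, Option.map_some]
    exact congrArg some he.symm

/-- multiplication on the left does not change the last letter. -/
theorem getLast_of_mul {i : ι} (h : H i) {g : CoprodI H}
    (hg : g ∉ Set.range (CoprodI.of : H i → CoprodI H)) :
    (wd (CoprodI.of h * g)).getLast? = (wd g).getLast? := by
  obtain ⟨k, l, hl, hi, rfl⟩ := exists_left i g
  have hne : l ≠ [] := by
    rintro rfl
    exact hg ⟨k, by rw [pr_nil, mul_one]⟩
  have key : ∀ k : H i, (wd (CoprodI.of k * pr l)).getLast? = l.getLast? := by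
    intro k
    by_cases hk : k = 1
    · rw [hk, map_one, one_mul, wd_pr hl]
    · rw [wd_of_mul hl hk hi, List.getLast?_cons]
      rw [List.getLast?_eq_some_getLast hne]
      rfl
  rw [← mul_assoc, ← map_mul, key, key]

theorem ty_of_mul {i : ι} (h : H i) {g : CoprodI H}
    (hg : g ∉ Set.range (CoprodI.of : H i → CoprodI H)) :
    ty (CoprodI.of h * g) = ty g := by
  rw [ty, getLast_of_mul h hg, ty]

theorem ty_of {i : ι} (h : H i) : ty (CoprodI.of h : CoprodI H) = none ∨
    ty (CoprodI.of h : CoprodI H) = some i := by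
  by_cases hh : h = 1
  · left
    rw [hh, map_one, ty_one]
  · right
    rw [ty, wd_of hh]
    rfl

open Classical in
/-- the last letter, if it is of type `i`. -/
noncomputable def blk (i : ι) (g : CoprodI H) : H i :=
  match (wd g).getLast? with
  | some s => if h : s.1 = i then h ▸ s.2 else 1
  | none => 1

theorem blk_congr {i : ι} {g g' : CoprodI H} (h : (wd g).getLast? = (wd g').getLast?) :
    blk i g = blk i g' := by
  unfold blk
  rw [h]

theorem blk_of_ty {i : ι} {g : CoprodI H} (h : ty g ≠ some i) : blk i g = 1 := by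
  unfold blk
  rcases hg : (wd g).getLast? with _ | s
  · rfl
  · have : s.1 ≠ i := by
      intro hs
      apply h
      rw [ty, hg, Option.map_some, hs]
    simp [this]

theorem blk_mul_of {i : ι} {g : CoprodI H} (h : H i) (hg : ty g ≠ some i) :
    blk i (g * CoprodI.of h) = h := by
  by_cases hh : h = 1
  · rw [hh, map_one, mul_one, blk_of_ty hg]
  · unfold blk
    rw [wd_mul_of hh hg]
    simp

theorem blk_of {i : ι} (h : H i) : blk i (CoprodI.of h : CoprodI H) = h := by
  have := blk_mul_of (g := (1 : CoprodI H)) h (by rw [ty_one]; simp)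
  rwa [one_mul] at this

theorem blk_of_mul {i i' : ι} (h : H i') {g : CoprodI H}
    (hg : i' ≠ i ∨ g ∉ Set.range (CoprodI.of : H i' → CoprodI H)) :
    blk i (CoprodI.of h * g) = blk i g := by
  by_cases hg' : g ∈ Set.range (CoprodI.of : H i' → CoprodI H)
  · have hne : i' ≠ i := hg.resolve_right (fun h => h hg')
    obtain ⟨k, rfl⟩ := hg'
    rw [← map_mul]
    have key : ∀ m : H i', blk i (CoprodI.of m : CoprodI H) = 1 := by
      intro m
      apply blk_of_ty
      rcases ty_of m with h1 | h1
      · rw [h1]; simp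
      · rw [h1]
        intro h2
        exact hne (Option.some.inj h2)
    rw [key, key]
  · exact blk_congr (getLast_of_mul h hg')

end Pool.Agent.TH88.SI.FP
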