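import Mathlib

/-!
# From real flows to finite permutation models

A finite nonnegative real system of couplings with common marginals can be replaced by a finite set
with permutations.
-/

set_option autoImplicit false

namespace Pool.Agent.TH88.SI

open Finset

/-- simultaneous approximation: some positive integer multiple of a finite real vector is close to an
integer vector. -/
theorem simul_approx {I : Type} [Fintype I] (x : I → ℝ) (δ : ℝ) (hδ : 0 < δ) :
    ∃ (q : ℕ) (z : I → ℤ), 0 < q ∧ ∀ i, |(q : ℝ) * x i - z i| < δ := by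
  classical
  -- the sequence of fractional parts in the compact cube
  let v : ℕ → I → ℝ := fun n i => Int.fract ((n : ℝ) * x i)
  have hv : ∀ n, v n ∈ Set.pi Set.univ (fun _ : I => Set.Icc (0 : ℝ) 1) := by
    intro n i _
    exact ⟨Int.fract_nonneg _, (Int.fract_lt_one _).le⟩
  have hcomp : IsCompact (Set.pi Set.univ (fun _ : I => Set.Icc (0 : ℝ) 1)) :=
    isCompact_univ_pi (fun _ => isCompact_Icc)
  obtain ⟨a, -, φ, hφ, hlim⟩ := hcomp.tendsto_subseq hv
  have hc := hlim.cauchySeq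
  rw [Metric.cauchySeq_iff] at hc
  obtain ⟨N, hN⟩ := hc δ hδ
  have h1 := hN (N + 1) (by omega) N le_rfl
  have hlt : φ N < φ (N + 1) := hφ (Nat.lt_succ_self N)
  refine ⟨φ (N + 1) - φ N, fun i => ⌊((φ (N + 1) : ℕ) : ℝ) * x i⌋ - ⌊((φ N : ℕ) : ℝ) * x i⌋,
    Nat.sub_pos_of_lt hlt, fun i => ?_⟩
  have h2 : dist (v (φ (N + 1)) i) (v (φ N) i) < δ :=
    lt_of_le_of_lt (dist_le_pi_dist _ _ i) h1
  rw [Real.dist_eq] at h2
  have e1 : v (φ (N + 1)) i = ((φ (N + 1) : ℕ) : ℝ) * x i - ⌊((φ (N + 1) : ℕ) : ℝ) * x i⌋ := rfl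
  have e2 : v (φ N) i = ((φ N : ℕ) : ℝ) * x i - ⌊((φ N : ℕ) : ℝ) * x i⌋ := rfl
  rw [e1, e2] at h2
  rw [Nat.cast_sub hlt.le]
  push_cast
  convert h2 using 2
  ring

/-- real couplings with common marginals can be made integral. -/
theorem integral_flow {ι L : Type} [Fintype ι] [Fintype L]
    (W : L → ℝ) (N : ι → L → L → ℝ) (hW : ∀ p, 0 ≤ W p) (hN : ∀ a p q, 0 ≤ N a p q)
    (hW0 : ∃ p, 0 < W p) (hrow : ∀ a p, ∑ q, N a p q = W p) (hcol : ∀ a q, ∑ p, N a p q = W q) :
    ∃ (w : L → ℕ) (m : ι → L → L → ℕ), (∀ p, 0 < W p → 0 < w p) ∧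
      (∀ a p q, 0 < m a p q → 0 < N a p q) ∧
      (∀ a p, ∑ q, m a p q = w p) ∧ (∀ a q, ∑ p, m a p q = w q) := by
  classical
  obtain ⟨p₀, hp₀⟩ := hW0
  -- a lower bound for the positive entries
  obtain ⟨δ, hδ, hδ1, hδ2, hδ3, hδ4⟩ : ∃ δ : ℝ, 0 < δ ∧ δ * (Fintype.card L + 1) < 1 ∧ δ ≤ W p₀ ∧
      (∀ p, 0 < W p → δ ≤ W p) ∧ (∀ a p q, 0 < N a p q → δ ≤ N a p q) := by
    let T : Finset ℝ := insert (1 / (2 * ((Fintype.card L : ℝ) + 1)))
      (((univ.image W) ∪ (univ.image (fun t : ι × L × L => N t.1 t.2.1 t.2.2))).filter (0 < ·))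
    have hT : T.Nonempty := ⟨_, mem_insert_self _ _⟩
    have hmem := T.min'_mem hT
    have hcard : (0 : ℝ) < 2 * ((Fintype.card L : ℝ) + 1) := by positivity
    have hmin : ∀ y ∈ T, T.min' hT ≤ y := fun y hy => T.min'_le y hy
    refine ⟨T.min' hT, ?_, ?_, ?_, ?_, ?_⟩
    · rcases mem_insert.1 hmem with h | h
      · rw [h]; positivity
      · exact (mem_filter.1 h).2
    · have h := hmin _ (mem_insert_self _ _)
      have h2 : (0 : ℝ) < (Fintype.card L : ℝ) + 1 := by positivity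
      calc T.min' hT * (Fintype.card L + 1)
          ≤ (1 / (2 * ((Fintype.card L : ℝ) + 1))) * (Fintype.card L + 1) :=
            mul_le_mul_of_nonneg_right h h2.le
        _ = 1 / 2 := by field_simp
        _ < 1 := by norm_num
    · exact hmin _ (mem_insert_of_mem (mem_filter.2 ⟨mem_union_left _
        (mem_image_of_mem _ (mem_univ _)), hp₀⟩))
    · intro p hp
      exact hmin _ (mem_insert_of_mem (mem_filter.2 ⟨mem_union_left _
        (mem_image_of_mem _ (mem_univ _)), hp⟩))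
    · intro a p q h
      exact hmin _ (mem_insert_of_mem (mem_filter.2 ⟨mem_union_right _
        (mem_image.2 ⟨(a, p, q), mem_univ _, rfl⟩), h⟩))
  obtain ⟨k, z, hk, hz⟩ := simul_approx
    (fun i : L ⊕ (ι × L × L) => match i with
      | Sum.inl p => W p
      | Sum.inr t => N t.1 t.2.1 t.2.2) δ hδ
  have hk1 : (1 : ℝ) ≤ k := by exact_mod_cast hk
  have hzW : ∀ p, |(k : ℝ) * W p - z (Sum.inl p)| < δ := fun p => hz (Sum.inl p)
  have hzN : ∀ a p q, |(k : ℝ) * N a p q - z (Sum.inr (a, p, q))| < δ :=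
    fun a p q => hz (Sum.inr (a, p, q))
  have hδlt : δ < 1 := by
    have h2 : (0 : ℝ) ≤ (Fintype.card L : ℝ) := by positivity
    nlinarith
  have hzWnn : ∀ p, 0 ≤ z (Sum.inl p) := by
    intro p
    have h := hzW p
    rw [abs_lt] at h
    have h1 : 0 ≤ (k : ℝ) * W p := mul_nonneg (by positivity) (hW p)
    have h2 : (-1 : ℝ) < z (Sum.inl p) := by linarith
    have h3 : (-1 : ℤ) < z (Sum.inl p) := by exact_mod_cast h2
    omega
  have hzNnn : ∀ a p q, 0 ≤ z (Sum.inr (a, p, q)) := by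
    intro a p q
    have h := hzN a p q
    rw [abs_lt] at h
    have h1 : 0 ≤ (k : ℝ) * N a p q := mul_nonneg (by positivity) (hN a p q)
    have h2 : (-1 : ℝ) < z (Sum.inr (a, p, q)) := by linarith
    have h3 : (-1 : ℤ) < z (Sum.inr (a, p, q)) := by exact_mod_cast h2
    omega
  have key : ∀ (f : L → ℝ) (F : L → ℤ) (g : ℝ) (G : ℤ), (∀ q, |(k : ℝ) * f q - F q| < δ) →
      |(k : ℝ) * g - G| < δ → ∑ q, f q = g → ∑ q, F q = G := by
    intro f F g G hf hg hs
    have h1 : |((∑ q, F q : ℤ) : ℝ) - G| < 1 := by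
      have e : ((∑ q, F q : ℤ) : ℝ) - G = -(∑ q, ((k : ℝ) * f q - F q)) + ((k : ℝ) * g - G) := by
        rw [sum_sub_distrib, ← mul_sum, hs]
        push_cast
        ring
      rw [e]
      calc |-(∑ q, ((k : ℝ) * f q - F q)) + ((k : ℝ) * g - G)|
          ≤ |-(∑ q, ((k : ℝ) * f q - F q))| + |(k : ℝ) * g - G| := abs_add_le _ _
        _ ≤ ∑ q : L, δ + δ := by
            rw [abs_neg]
            refine add_le_add ((abs_sum_le_sum_abs _ _).trans (sum_le_sum fun q _ => (hf q).le)) hg.le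
        _ = δ * (Fintype.card L + 1) := by
            rw [sum_const, card_univ, nsmul_eq_mul]; ring
        _ < 1 := hδ1
    have h2 : |(∑ q, F q) - G| < 1 := by exact_mod_cast h1
    have h3 := Int.abs_lt_one_iff.1 h2
    omega
  refine ⟨fun p => (z (Sum.inl p)).toNat, fun a p q => (z (Sum.inr (a, p, q))).toNat, ?_, ?_, ?_, ?_⟩
  · intro p hp
    have h := hzW p
    rw [abs_lt] at h
    have h0 := hδ3 p hp
    have h1 : W p ≤ (k : ℝ) * W p := le_mul_of_one_le_left (hW p) hk1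
    have h2 : (0 : ℝ) < z (Sum.inl p) := by linarith
    have h3 : 0 < z (Sum.inl p) := by exact_mod_cast h2
    show 0 < (z (Sum.inl p)).toNat
    omega
  · intro a p q h
    rcases (hN a p q).lt_or_eq with h0 | h0
    · exact h0
    · exfalso
      have h1 := hzN a p q
      rw [← h0, mul_zero, zero_sub, abs_neg, abs_lt] at h1
      have h2 : (z (Sum.inr (a, p, q)) : ℝ) < 1 := by linarith
      have h3 : z (Sum.inr (a, p, q)) < 1 := by exact_mod_cast h2
      have h4 : 0 < (z (Sum.inr (a, p, q))).toNat := h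
      omega
  · intro a p
    have h := key (fun q => N a p q) (fun q => z (Sum.inr (a, p, q))) (W p) (z (Sum.inl p))
      (fun q => hzN a p q) (hzW p) (hrow a p)
    have h2 : ((∑ q, (z (Sum.inr (a, p, q))).toNat : ℕ) : ℤ) = ((z (Sum.inl p)).toNat : ℤ) := by
      rw [Nat.cast_sum, Int.toNat_of_nonneg (hzWnn p), ← h]
      exact sum_congr rfl fun q _ => Int.toNat_of_nonneg (hzNnn a p q)
    exact_mod_cast h2
  · intro a q
    have h := key (fun p => N a p q) (fun p => z (Sum.inr (a, p, q))) (W q) (z (Sum.inl q))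
      (fun p => hzN a p q) (hzW q) (hcol a q)
    have h2 : ((∑ p, (z (Sum.inr (a, p, q))).toNat : ℕ) : ℤ) = ((z (Sum.inl q)).toNat : ℤ) := by
      rw [Nat.cast_sum, Int.toNat_of_nonneg (hzWnn q), ← h]
      exact sum_congr rfl fun p _ => Int.toNat_of_nonneg (hzNnn a p q)
    exact_mod_cast h2

/-- the permutation model. -/
theorem perm_model {ι L : Type} [Fintype ι] [Fintype L]
    (w : L → ℕ) (m : ι → L → L → ℕ)
    (hrow : ∀ a p, ∑ q, m a p q = w p) (hcol : ∀ a q, ∑ p, m a p q = w q) :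
    ∃ σ : ι → Equiv.Perm (Σ p : L, Fin (w p)),
      ∀ a v, 0 < m a v.1 (σ a v).1 := by
  classical
  -- row decomposition
  have e1 : ∀ a p, Nonempty (Fin (w p) ≃ Σ q, Fin (m a p q)) := by
    intro a p
    refine ⟨Fintype.equivOfCardEq ?_⟩
    rw [Fintype.card_sigma]
    simp [hrow a p]
  have e2 : ∀ a q, Nonempty (Fin (w q) ≃ Σ p, Fin (m a p q)) := by
    intro a q
    refine ⟨Fintype.equivOfCardEq ?_⟩
    rw [Fintype.card_sigma]
    simp [hcol a q]
  let f1 := e1
  let f2 := e2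
  let swap : ∀ a, (Σ p : L, Σ q : L, Fin (m a p q)) ≃ (Σ q : L, Σ p : L, Fin (m a p q)) := fun a =>
    { toFun := fun t => ⟨t.2.1, t.1, t.2.2⟩
      invFun := fun t => ⟨t.2.1, t.1, t.2.2⟩
      left_inv := fun _ => rfl
      right_inv := fun _ => rfl }
  refine ⟨fun a => ((Equiv.sigmaCongrRight (fun p => (f1 a p).some)).trans (swap a)).trans
    (Equiv.sigmaCongrRight (fun q => (f2 a q).some)).symm, ?_⟩
  intro a v
  obtain ⟨p, i⟩ := v
  have h : (((Equiv.sigmaCongrRight (fun p => (f1 a p).some)).trans (swap a)).trans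
    (Equiv.sigmaCongrRight (fun q => (f2 a q).some)).symm ⟨p, i⟩).1 = ((f1 a p).some i).1 := rfl
  rw [h]
  have : Fin (m a p ((f1 a p).some i).1) := ((f1 a p).some i).2
  exact Fin.pos this

/-- real couplings give finite permutation models. -/
theorem model_of_flow {ι L : Type} [Fintype ι] [Fintype L]
    (W : L → ℝ) (N : ι → L → L → ℝ) (hW : ∀ p, 0 ≤ W p) (hN : ∀ a p q, 0 ≤ N a p q)
    (hW0 : ∃ p, 0 < W p) (hrow : ∀ a p, ∑ q, N a p q = W p) (hcol : ∀ a q, ∑ p, N a p q = W q) :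
    ∃ (V : Type) (_ : Finite V) (lab : V → L) (σ : ι → Equiv.Perm V),
      (∀ p, 0 < W p → ∃ v, lab v = p) ∧ ∀ a v, 0 < N a (lab v) (lab (σ a v)) := by
  obtain ⟨w, m, hp₀, hpos, hr, hc⟩ := integral_flow W N hW hN hW0 hrow hcol
  obtain ⟨σ, hσ⟩ := perm_model w m hr hc
  exact ⟨(Σ p : L, Fin (w p)), inferInstance, fun v => v.1, σ,
    fun p hp => ⟨⟨p, ⟨0, hp₀ p hp⟩⟩, rfl⟩, fun a v => hpos _ _ _ (hσ a v)⟩

end Pool.Agent.TH88.SI
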