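import Mathlib
import Pool.Agent.TH88.SI.Flow

/-!
# Finite models of coset systems
-/

set_option autoImplicit false

namespace Pool.Agent.TH88.SI.FP

open Finset

/-- a nonnegative real vector has an integral approximation with the same support and satisfying the
same relations `∑_{i ∈ A} x i = x j`. -/
theorem integral_solution {I : Type} [Fintype I] (x : I → ℝ) (hx : ∀ i, 0 ≤ x i) :
    ∃ n : I → ℕ, (∀ i, 0 < x i → 0 < n i) ∧ (∀ i, 0 < n i → 0 < x i) ∧
      ∀ (A : Finset I) (j : I), ∑ i ∈ A, x i = x j → ∑ i ∈ A, n i = n j := by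
  classical
  obtain ⟨δ, hδ, hδ1, hδ3⟩ : ∃ δ : ℝ, 0 < δ ∧ δ * (Fintype.card I + 1) < 1 ∧
      (∀ i, 0 < x i → δ ≤ x i) := by
    let T : Finset ℝ := insert (1 / (2 * ((Fintype.card I : ℝ) + 1)))
      ((univ.image x).filter (0 < ·))
    have hT : T.Nonempty := ⟨_, mem_insert_self _ _⟩
    have hmem := T.min'_mem hT
    have hmin : ∀ y ∈ T, T.min' hT ≤ y := fun y hy => T.min'_le y hy
    refine ⟨T.min' hT, ?_, ?_, ?_⟩
    · rcases mem_insert.1 hmem with h | h
      · rw [h]; positivity
      · exact (mem_filter.1 h).2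
    · have h := hmin _ (mem_insert_self _ _)
      have h2 : (0 : ℝ) < (Fintype.card I : ℝ) + 1 := by positivity
      calc T.min' hT * (Fintype.card I + 1)
          ≤ (1 / (2 * ((Fintype.card I : ℝ) + 1))) * (Fintype.card I + 1) :=
            mul_le_mul_of_nonneg_right h h2.le
        _ = 1 / 2 := by field_simp
        _ < 1 := by norm_num
    · intro i hi
      exact hmin _ (mem_insert_of_mem (mem_filter.2 ⟨mem_image_of_mem _ (mem_univ _), hi⟩))
  obtain ⟨k, z, hk, hz⟩ := simul_approx x δ hδ
  have hk1 : (1 : ℝ) ≤ k := by exact_mod_cast hk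
  have hδlt : δ < 1 := by
    have h2 : (0 : ℝ) ≤ (Fintype.card I : ℝ) := by positivity
    nlinarith
  have hznn : ∀ i, 0 ≤ z i := by
    intro i
    have h := hz i
    rw [abs_lt] at h
    have h1 : 0 ≤ (k : ℝ) * x i := mul_nonneg (by positivity) (hx i)
    have h2 : (-1 : ℝ) < z i := by linarith
    have h3 : (-1 : ℤ) < z i := by exact_mod_cast h2
    omega
  refine ⟨fun i => (z i).toNat, ?_, ?_, ?_⟩
  · intro i hi
    have h := hz i
    rw [abs_lt] at h
    have h0 := hδ3 i hi
    have h1 : x i ≤ (k : ℝ) * x i := le_mul_of_one_le_left (hx i) hk1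
    have h2 : (0 : ℝ) < z i := by linarith
    have h3 : 0 < z i := by exact_mod_cast h2
    show 0 < (z i).toNat
    omega
  · intro i h
    rcases (hx i).lt_or_eq with h0 | h0
    · exact h0
    · exfalso
      have h1 := hz i
      rw [← h0, mul_zero, zero_sub, abs_neg, abs_lt] at h1
      have h2 : (z i : ℝ) < 1 := by linarith
      have h3 : z i < 1 := by exact_mod_cast h2
      have h4 : 0 < (z i).toNat := h
      omega
  · intro A j hs
    have h1 : |((∑ q ∈ A, z q : ℤ) : ℝ) - z j| < 1 := by
      have e : ((∑ q ∈ A, z q : ℤ) : ℝ) - z j =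
          -(∑ q ∈ A, ((k : ℝ) * x q - z q)) + ((k : ℝ) * x j - z j) := by
        rw [sum_sub_distrib, ← mul_sum, hs]
        push_cast
        ring
      rw [e]
      calc |-(∑ q ∈ A, ((k : ℝ) * x q - z q)) + ((k : ℝ) * x j - z j)|
          ≤ |-(∑ q ∈ A, ((k : ℝ) * x q - z q))| + |(k : ℝ) * x j - z j| := abs_add_le _ _
        _ ≤ ∑ q ∈ A, δ + δ := by
            rw [abs_neg]
            refine add_le_add ((abs_sum_le_sum_abs _ _).trans (sum_le_sum fun q _ => (hz q).le))
              (hz j).le
        _ ≤ δ * (Fintype.card I + 1) := by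
            rw [sum_const, nsmul_eq_mul]
            have : (A.card : ℝ) ≤ Fintype.card I := by exact_mod_cast card_le_univ A
            nlinarith
        _ < 1 := hδ1
    have h2 : |(∑ q ∈ A, z q) - z j| < 1 := by exact_mod_cast h1
    have h3 := Int.abs_lt_one_iff.1 h2
    have h4 : ((∑ q ∈ A, (z q).toNat : ℕ) : ℤ) = ((z j).toNat : ℤ) := by
      rw [Nat.cast_sum, Int.toNat_of_nonneg (hznn j)]
      have : ∑ q ∈ A, (((z q).toNat : ℕ) : ℤ) = ∑ q ∈ A, z q :=
        sum_congr rfl fun q _ => Int.toNat_of_nonneg (hznn q)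
      rw [this]
      omega
    exact_mod_cast h4

/-- label preserving bijections from equal fibre cardinalities. -/
theorem fiber_equiv {V L : Type} [Finite V] (lab : V → L) (w : L → ℕ)
    (h : ∀ p, Nat.card {v : V // lab v = p} = w p) :
    ∃ e : V ≃ (Σ p : L, Fin (w p)), ∀ v, (e v).1 = lab v := by
  classical
  have h1 : ∀ p, Nonempty ({v : V // lab v = p} ≃ Fin (w p)) := fun p =>
    ⟨Finite.equivFinOfCardEq (h p)⟩
  let e1 : V ≃ (Σ p : L, {v : V // lab v = p}) := (Equiv.sigmaFiberEquiv lab).symm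
  let e2 : (Σ p : L, {v : V // lab v = p}) ≃ (Σ p : L, Fin (w p)) :=
    Equiv.sigmaCongrRight fun p => (h1 p).some
  refine ⟨e1.trans e2, fun v => ?_⟩
  rfl

/-- the finite model of a coset system. -/
theorem model {ι L : Type} [Fintype ι] [Fintype L] (H : ι → Type) [∀ i, Group (H i)]
    [∀ i, Fintype (H i)] (C : ∀ i, Set (H i → L))
    (hinv : ∀ i, ∀ c ∈ C i, ∀ h : H i, (fun k => c (k * h)) ∈ C i)
    (w : L → ℕ) (n : ∀ i, (H i → L) → ℕ) (hn : ∀ i c, 0 < n i c → c ∈ C i)
    (hs : ∀ i (h : H i) (p : L), ∃ A : Finset (H i → L), (∀ c, c ∈ A ↔ c h = p) ∧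
      ∑ c ∈ A, n i c = w p) :
    ∃ (V : Type) (_ : Finite V) (lab : V → L) (act : ∀ i, H i →* Equiv.Perm V),
      (∀ p, 0 < w p → ∃ v, lab v = p) ∧ ∀ i v, (fun h => lab (act i h v)) ∈ C i := by
  classical
  let K : ℕ := ∏ i, Fintype.card (H i)
  have hK : 0 < K := prod_pos fun i _ => Fintype.card_pos
  let V : Type := Σ p : L, Fin (K * w p)
  let r : ι → ℕ := fun i => ∏ j ∈ univ.erase i, Fintype.card (H j)
  have hr : ∀ i, Fintype.card (H i) * r i = K := fun i =>
    mul_prod_erase univ (fun j => Fintype.card (H j)) (mem_univ i)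
  let Vi : ι → Type := fun i => (Σ c : H i → L, Fin (r i * n i c)) × H i
  let li : ∀ i, Vi i → L := fun i v => v.1.1 v.2
  have hcard : ∀ i p, Nat.card {v : Vi i // li i v = p} = K * w p := by
    intro i p
    rw [Nat.card_eq_fintype_card, Fintype.card_subtype]
    have e1 : (univ.filter (fun v : Vi i => li i v = p)).card =
        ∑ h : H i, (univ.filter (fun u : (Σ c : H i → L, Fin (r i * n i c)) => u.1 h = p)).card := by
      rw [card_eq_sum_card_fiberwise (f := fun v : Vi i => v.2) (t := univ)
        (fun v _ => mem_coe.2 (mem_univ _))]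
      refine sum_congr rfl fun h _ => ?_
      refine card_bij (fun v _ => v.1) ?_ ?_ ?_
      · intro v hv
        rw [mem_filter, mem_filter] at hv
        rw [mem_filter]
        refine ⟨mem_univ _, ?_⟩
        have h1 : v.1.1 v.2 = p := hv.1.2
        have h2 : v.2 = h := hv.2
        rw [← h2]
        exact h1
      · intro v hv v' hv' he
        rw [mem_filter] at hv hv'
        exact Prod.ext he (hv.2.trans hv'.2.symm)
      · intro u hu
        rw [mem_filter] at hu
        refine ⟨(u, h), ?_, rfl⟩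
        rw [mem_filter, mem_filter]
        exact ⟨⟨mem_univ _, hu.2⟩, rfl⟩
    rw [e1]
    have e2 : ∀ h : H i,
        (univ.filter (fun u : (Σ c : H i → L, Fin (r i * n i c)) => u.1 h = p)).card =
        r i * w p := by
      intro h
      obtain ⟨A, hA, hsum⟩ := hs i h p
      rw [← hsum, mul_sum]
      rw [card_eq_sum_card_fiberwise (f := fun u : (Σ c : H i → L, Fin (r i * n i c)) => u.1)
        (t := A) (fun u hu => by
          rw [coe_filter] at hu
          exact mem_coe.2 ((hA _).2 hu.2))]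
      refine sum_congr rfl fun c hc => ?_
      have e3 : (univ.filter (fun u : (Σ c : H i → L, Fin (r i * n i c)) => u.1 h = p)).filter
          (fun u => u.1 = c) = univ.map ⟨fun a : Fin (r i * n i c) =>
            (⟨c, a⟩ : (Σ c : H i → L, Fin (r i * n i c))), fun a b hab => by
              simpa using hab⟩ := by
        ext ⟨c', a⟩
        simp only [mem_filter, mem_univ, true_and, mem_map, Function.Embedding.coeFn_mk]
        constructor
        · rintro ⟨h1, h2⟩
          subst h2
          exact ⟨a, rfl⟩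
        · rintro ⟨a', ha'⟩
          have h1 : c = c' := congrArg Sigma.fst ha'
          subst h1
          exact ⟨(hA _).1 hc, rfl⟩
      rw [e3, card_map, card_univ, Fintype.card_fin]
    rw [sum_congr rfl (fun h _ => e2 h), sum_const, card_univ, smul_eq_mul, ← mul_assoc, hr]
  have hfin : ∀ i, Finite (Vi i) := fun i => inferInstance
  have hex : ∀ i, ∃ e : Vi i ≃ V, ∀ v, (e v).1 = li i v := fun i =>
    fiber_equiv (li i) (fun p => K * w p) (hcard i)
  choose e he using hex
  let act : ∀ i, H i →* Equiv.Perm V := fun i =>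
    { toFun := fun h => ((e i).symm.trans ((Equiv.refl _).prodCongr (Equiv.mulLeft h))).trans (e i)
      map_one' := by
        ext v : 1
        show e i (((e i).symm v).1, 1 * ((e i).symm v).2) = v
        rw [one_mul]
        exact (e i).apply_symm_apply v
      map_mul' := by
        intro a b
        ext v : 1
        show e i (((e i).symm v).1, a * b * ((e i).symm v).2) =
          e i (((e i).symm (e i (((e i).symm v).1, b * ((e i).symm v).2))).1,
            a * ((e i).symm (e i (((e i).symm v).1, b * ((e i).symm v).2))).2)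
        rw [(e i).symm_apply_apply, mul_assoc] }
  refine ⟨V, inferInstance, fun v => v.1, act, ?_, ?_⟩
  · intro p hp
    exact ⟨⟨p, ⟨0, Nat.mul_pos hK hp⟩⟩, rfl⟩
  · intro i v
    have h1 : (fun h => ((act i h v).1 : L)) =
        fun h => ((e i).symm v).1.1 (h * ((e i).symm v).2) := by
      funext h
      show (e i (((e i).symm v).1, h * ((e i).symm v).2)).1 = _
      rw [he]
    rw [h1]
    refine hinv i _ (hn i _ ?_) _
    have h2 : 0 < r i * n i ((e i).symm v).1.1 := Fin.pos ((e i).symm v).1.2
    exact Nat.pos_of_mul_pos_left h2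

/-- from real weights to a finite model. -/
theorem model_of_weights {ι L : Type} [Fintype ι] [Fintype L] [DecidableEq L] (H : ι → Type)
    [∀ i, Group (H i)] [∀ i, Fintype (H i)] [∀ i, DecidableEq (H i)] (C : ∀ i, Set (H i → L))
    (hinv : ∀ i, ∀ c ∈ C i, ∀ h : H i, (fun k => c (k * h)) ∈ C i)
    (W : L → ℝ) (N : ∀ i, (H i → L) → ℝ) (hW : ∀ p, 0 < W p) (hN : ∀ i c, 0 ≤ N i c)
    (hNC : ∀ i c, 0 < N i c → c ∈ C i)
    (hs : ∀ i (h : H i) p, ∑ c : H i → L, (if c h = p then N i c else 0) = W p) :
    ∃ (V : Type) (_ : Finite V) (lab : V → L) (act : ∀ i, H i →* Equiv.Perm V),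
      (∀ p, ∃ v, lab v = p) ∧ ∀ i v, (fun h => lab (act i h v)) ∈ C i := by
  classical
  obtain ⟨n, hn1, hn2, hn3⟩ := integral_solution
    (fun s : L ⊕ (Σ i, (H i → L)) => match s with
      | Sum.inl p => W p
      | Sum.inr t => N t.1 t.2) (by
      rintro (p | t)
      · exact (hW p).le
      · exact hN t.1 t.2)
  obtain ⟨V, hV, lab, act, h1, h2⟩ := model H C hinv (fun p => n (Sum.inl p))
    (fun i c => n (Sum.inr ⟨i, c⟩)) (fun i c h => hNC i c (hn2 (Sum.inr ⟨i, c⟩) h)) (by
      intro i h p
      refine ⟨univ.filter (fun c => c h = p), fun c => by simp, ?_⟩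
      have h3 := hn3 ((univ.filter (fun c : H i → L => c h = p)).map
        ⟨fun c => Sum.inr ⟨i, c⟩, fun a b hab => by simpa using hab⟩) (Sum.inl p) (by
          rw [sum_map]
          show ∑ c ∈ univ.filter (fun c : H i → L => c h = p), N i c = W p
          rw [sum_filter]
          exact hs i h p)
      rw [sum_map] at h3
      exact h3)
  exact ⟨V, hV, lab, act, fun p => h1 p (hn1 (Sum.inl p) (hW p)), h2⟩

end Pool.Agent.TH88.SI.FP
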