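import Mathlib
import Pool.Agent.Helper31.GZ.Brouwer

/-!
# Message recursion on a tree of cosets

The analogue of `Msg` for free products of finite groups: a vertex lies on one coset of each type
`i : ι`, and the labels on a coset of type `i` form an element of `C i`.
-/

set_option autoImplicit false

namespace Pool.Agent.TH88.SI.FP

open Finset Filter Topology

section Msg

variable {ι L : Type} (H : ι → Type)

/-- truncated boundary conditions. -/
def Tr (L : Type) : ℕ → ι → Type
  | 0, _ => L
  | (j + 1), i => Option (∀ t : H i × ι, Tr L j t.2)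

theorem Tr.fin [Finite ι] [∀ i, Finite (H i)] [Finite L] (j : ℕ) : ∀ i, Finite (Tr H L j i) := by
  induction j with
  | zero => intro i; exact inferInstanceAs (Finite L)
  | succ j ih =>
    intro i
    have := ih
    exact inferInstanceAs (Finite (Option (∀ t : H i × ι, Tr H L j t.2)))

noncomputable instance Tr.fintype [Finite ι] [∀ i, Finite (H i)] [Finite L] (j : ℕ) (i : ι) :
    Fintype (Tr H L j i) :=
  @Fintype.ofFinite _ (Tr.fin H j i)

theorem Tr.nonempty [Nonempty L] (j : ℕ) (i : ι) : Nonempty (Tr H L j i) := by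
  cases j with
  | zero => exact inferInstanceAs (Nonempty L)
  | succ j => exact ⟨(none : Option (∀ t : H i × ι, Tr H L j t.2))⟩

variable [Fintype ι] [DecidableEq ι] [∀ i, Group (H i)] [∀ i, Fintype (H i)]
  [∀ i, DecidableEq (H i)] [Fintype L] [DecidableEq L]

/-- the relevant positions. -/
def Sx (i : ι) : Finset (H i × ι) := univ.filter (fun t => t.1 ≠ 1 ∧ t.2 ≠ i)

variable {H}

theorem mem_Sx {i : ι} {t : H i × ι} : t ∈ Sx H i ↔ t.1 ≠ 1 ∧ t.2 ≠ i := by
  simp [Sx]

variable (C : ∀ i, Set (H i → L))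

open Classical in
/-- one step of the recursion. -/
noncomputable def step (i : ι) (F : H i × ι → L → ℝ) (p : L) : ℝ :=
  ∑ c : H i → L, if c ∈ C i ∧ c 1 = p then ∏ t ∈ Sx H i, F t (c t.1) else 0

open Classical in
/-- the partition function of a truncated boundary condition. -/
noncomputable def ev : (j : ℕ) → (i : ι) → Tr H L j i → L → ℝ
  | 0, _, q, p => if p = q then 1 else 0
  | (_ + 1), _, none, _ => 1
  | (j + 1), i, some φ, p => step C i (fun t => ev j t.2 (φ t)) p

theorem step_nonneg (i : ι) (F : H i × ι → L → ℝ) (hF : ∀ t q, 0 ≤ F t q) (p : L) :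
    0 ≤ step C i F p := by
  unfold step
  refine sum_nonneg fun q _ => ?_
  split_ifs
  · exact prod_nonneg fun t _ => hF t _
  · exact le_rfl

theorem ev_zero_self (i : ι) (q : L) : ev C 0 i (show Tr H L 0 i from q) q = 1 := if_pos rfl

theorem ev_zero_ne (i : ι) (q p : L) (h : p ≠ q) : ev C 0 i (show Tr H L 0 i from q) p = 0 :=
  if_neg h

theorem ev_nonneg : ∀ (j : ℕ) (i : ι) (τ : Tr H L j i) (p : L), 0 ≤ ev C j i τ p
  | 0, i, q, p => by
      by_cases h : p = (show L from q)
      · have : ev C 0 i q p = 1 := if_pos h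
        rw [this]; exact zero_le_one
      · have : ev C 0 i q p = 0 := if_neg h
        rw [this]
  | (j + 1), i, none, p => zero_le_one
  | (j + 1), i, some φ, p =>
      step_nonneg C i _ (fun t q => ev_nonneg j t.2 (φ t) q) p

/-- a solution of the perturbed recursion is a nonnegative combination of depth `j` partition
functions. -/
theorem expand [Nonempty L] (M : ι → L → ℝ) (hM0 : ∀ s p, 0 ≤ M s p) (ε : ℝ) (hε : 0 ≤ ε)
    (lam : ι → ℝ) (hlam : ∀ s, 0 < lam s)
    (hM : ∀ s p, M s p = (step C s (fun t => M t.2) p + ε) / lam s) :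
    ∀ j : ℕ, ∃ w : ∀ i, Tr H L j i → ℝ, (∀ s τ, 0 ≤ w s τ) ∧
      ∀ s p, M s p = ∑ τ, w s τ * ev C j s τ p := by
  classical
  intro j
  induction j with
  | zero =>
    refine ⟨fun s (q : L) => M s q, fun s τ => hM0 s τ, fun s p => ?_⟩
    have h : ∑ τ : Tr H L 0 s, M s τ * ev C 0 s τ p =
        M s p * ev C 0 s (show Tr H L 0 s from p) p :=
      Fintype.sum_eq_single (M := ℝ) (f := fun τ : Tr H L 0 s => M s τ * ev C 0 s τ p)
        (show Tr H L 0 s from p) (fun τ hτ => by
          have : ev C 0 s τ p = 0 := ev_zero_ne C s τ p (fun h' => hτ h'.symm)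
          show M s τ * ev C 0 s τ p = 0
          rw [this, mul_zero])
    have h2 : ev C 0 s (show Tr H L 0 s from p) p = 1 := ev_zero_self C s p
    show M s p = ∑ τ : Tr H L 0 s, M s τ * ev C 0 s τ p
    rw [h, h2, mul_one]
  | succ j ih =>
    obtain ⟨w, hw0, hw⟩ := ih
    have hne : ∀ i, Nonempty (Tr H L j i) := fun i => Tr.nonempty H j i
    let K : ι → ℝ := fun i => ((Fintype.card (Tr H L j i) : ℕ) : ℝ)
    have hK : ∀ i, 0 < K i := fun i => by
      show (0 : ℝ) < ((Fintype.card (Tr H L j i) : ℕ) : ℝ)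
      exact_mod_cast Fintype.card_pos
    let w' : ∀ i, Option (∀ t : H i × ι, Tr H L j t.2) → ℝ := fun i o => match o with
      | none => ε / lam i
      | some φ => (∏ t, if t ∈ Sx H i then w t.2 (φ t) else (K t.2)⁻¹) / lam i
    refine ⟨w', ?_, ?_⟩
    · intro s o
      rcases o with _ | φ
      · exact div_nonneg hε (hlam s).le
      · refine div_nonneg (prod_nonneg fun t _ => ?_) (hlam s).le
        split_ifs
        · exact hw0 _ _
        · exact inv_nonneg.2 (hK _).le
    · intro s p
      have e1 : ∑ τ : Tr H L (j + 1) s, w' s τ * ev C (j + 1) s τ p =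
          ∑ o : Option (∀ t : H s × ι, Tr H L j t.2), w' s o * ev C (j + 1) s o p := by
        exact @Fintype.sum_equiv (Tr H L (j + 1) s) (Option (∀ t : H s × ι, Tr H L j t.2)) ℝ
          (Tr.fintype H (j + 1) s) _ _
          (Equiv.refl (Option (∀ t : H s × ι, Tr H L j t.2)))
          (fun τ : Tr H L (j + 1) s => w' s τ * ev C (j + 1) s τ p)
          (fun o : Option (∀ t : H s × ι, Tr H L j t.2) => w' s o * ev C (j + 1) s o p)
          (fun _ => rfl)
      rw [e1, Fintype.sum_option]
      have e2 : w' s none * ev C (j + 1) s none p = ε / lam s := by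
        show ε / lam s * (1 : ℝ) = _
        ring
      rw [e2, hM s p, add_div, add_comm]
      congr 1
      have e3 : ∀ φ : (∀ t : H s × ι, Tr H L j t.2), w' s (some φ) * ev C (j + 1) s (some φ) p =
          ∑ c : H s → L, (if c ∈ C s ∧ c 1 = p then
            (∏ t, (if t ∈ Sx H s then w t.2 (φ t) * ev C j t.2 (φ t) (c t.1) else (K t.2)⁻¹)) / lam s
            else 0) := by
        intro φ
        show (∏ t, if t ∈ Sx H s then w t.2 (φ t) else (K t.2)⁻¹) / lam s *
          step C s (fun t => ev C j t.2 (φ t)) p = _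
        unfold step
        rw [mul_sum]
        refine sum_congr rfl fun c _ => ?_
        split_ifs with hr
        · have h1 : ∏ t ∈ Sx H s, ev C j t.2 (φ t) (c t.1) =
              ∏ t, (if t ∈ Sx H s then ev C j t.2 (φ t) (c t.1) else 1) := by
            rw [prod_ite_mem, univ_inter]
          rw [h1, div_mul_eq_mul_div, ← prod_mul_distrib]
          congr 1
          refine prod_congr rfl fun t _ => ?_
          split_ifs
          · rfl
          · rw [mul_one]
        · rw [mul_zero]
      rw [sum_congr rfl (fun φ _ => e3 φ), sum_comm]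
      unfold step
      rw [sum_div]
      refine sum_congr rfl fun c _ => ?_
      by_cases hr : c ∈ C s ∧ c 1 = p
      · simp only [if_pos hr]
        rw [← sum_div]
        congr 1
        have e4 : ∑ φ : (∀ t : H s × ι, Tr H L j t.2),
            ∏ t, (if t ∈ Sx H s then w t.2 (φ t) * ev C j t.2 (φ t) (c t.1) else (K t.2)⁻¹) =
            ∏ t : H s × ι, ∑ τ : Tr H L j t.2,
              (if t ∈ Sx H s then w t.2 τ * ev C j t.2 τ (c t.1) else (K t.2)⁻¹) := by
          rw [prod_univ_sum, Fintype.piFinset_univ]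
        rw [e4]
        have h1 : ∏ t ∈ Sx H s, M t.2 (c t.1) =
              ∏ t, (if t ∈ Sx H s then M t.2 (c t.1) else 1) := by
            rw [prod_ite_mem, univ_inter]
        rw [h1]
        refine prod_congr rfl fun t _ => ?_
        by_cases ht : t ∈ Sx H s
        · simp only [if_pos ht]
          rw [hw t.2 (c t.1)]
        · simp only [if_neg ht]
          rw [sum_const, card_univ, nsmul_eq_mul]
          exact (mul_inv_cancel₀ (hK t.2).ne').symm
      · simp only [if_neg hr]
        simp

/-- uniform ratio bound. -/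
theorem ratio_bound [Nonempty L] (k : ℕ)
    (hk : ∀ (s : ι) (τ : Tr H L k s) (p p' : L), 0 < ev C k s τ p → 0 < ev C k s τ p') :
    ∃ B : ℝ, 0 < B ∧ ∀ (M : ι → L → ℝ), (∀ s p, 0 ≤ M s p) → ∀ ε : ℝ, 0 ≤ ε →
      ∀ lam : ι → ℝ, (∀ s, 0 < lam s) →
      (∀ s p, M s p = (step C s (fun t => M t.2) p + ε) / lam s) →
      ∀ s p p', M s p ≤ B * M s p' := by
  classical
  let B : ℝ := (∑ s : ι, ∑ τ : Tr H L k s, ∑ p : L, ∑ p' : L,
    ev C k s τ p / ev C k s τ p') + 1
  have hnn : ∀ (s : ι) (τ : Tr H L k s) (p p' : L),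
      0 ≤ ev C k s τ p / ev C k s τ p' :=
    fun s τ p p' => div_nonneg (ev_nonneg C k s τ p) (ev_nonneg C k s τ p')
  have hS : 0 ≤ ∑ s : ι, ∑ τ : Tr H L k s, ∑ p : L, ∑ p' : L,
      ev C k s τ p / ev C k s τ p' :=
    sum_nonneg fun s _ => sum_nonneg fun τ _ => sum_nonneg fun p _ => sum_nonneg fun p' _ =>
      hnn s τ p p'
  have hB : 0 < B := by positivity
  have hev : ∀ (s : ι) (τ : Tr H L k s) (p p' : L),
      ev C k s τ p ≤ B * ev C k s τ p' := by
    intro s τ p p'
    rcases (ev_nonneg C k s τ p').lt_or_eq with h | h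
    · have h1 : ev C k s τ p / ev C k s τ p' ≤ B := by
        have a1 : ev C k s τ p / ev C k s τ p' ≤
            ∑ p' : L, ev C k s τ p / ev C k s τ p' :=
          single_le_sum (f := fun p' => ev C k s τ p / ev C k s τ p')
            (fun p' _ => hnn s τ p p') (mem_univ p')
        have a2 : ∑ p' : L, ev C k s τ p / ev C k s τ p' ≤
            ∑ p : L, ∑ p' : L, ev C k s τ p / ev C k s τ p' :=
          single_le_sum (f := fun p => ∑ p' : L, ev C k s τ p / ev C k s τ p')
            (fun p _ => sum_nonneg fun p' _ => hnn s τ p p') (mem_univ p)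
        have a3 : ∑ p : L, ∑ p' : L, ev C k s τ p / ev C k s τ p' ≤
            ∑ τ : Tr H L k s, ∑ p : L, ∑ p' : L, ev C k s τ p / ev C k s τ p' :=
          single_le_sum
            (f := fun τ => ∑ p : L, ∑ p' : L, ev C k s τ p / ev C k s τ p')
            (fun τ _ => sum_nonneg fun p _ => sum_nonneg fun p' _ => hnn s τ p p') (mem_univ τ)
        have a4 : ∑ τ : Tr H L k s, ∑ p : L, ∑ p' : L, ev C k s τ p / ev C k s τ p' ≤
            ∑ s : ι, ∑ τ : Tr H L k s, ∑ p : L, ∑ p' : L,
              ev C k s τ p / ev C k s τ p' :=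
          single_le_sum (f := fun s => ∑ τ : Tr H L k s, ∑ p : L, ∑ p' : L,
              ev C k s τ p / ev C k s τ p')
            (fun s _ => sum_nonneg fun τ _ => sum_nonneg fun p _ => sum_nonneg fun p' _ =>
              hnn s τ p p') (mem_univ s)
        have : B = (∑ s : ι, ∑ τ : Tr H L k s, ∑ p : L, ∑ p' : L,
          ev C k s τ p / ev C k s τ p') + 1 := rfl
        linarith
      calc ev C k s τ p = ev C k s τ p / ev C k s τ p' * ev C k s τ p' := by
            field_simp
        _ ≤ B * ev C k s τ p' := mul_le_mul_of_nonneg_right h1 h.le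
    · have h1 : ev C k s τ p = 0 := by
        rcases (ev_nonneg C k s τ p).lt_or_eq with h2 | h2
        · have := hk s τ p p' h2
          rw [← h] at this
          exact absurd this (lt_irrefl _)
        · exact h2.symm
      rw [h1, ← h, mul_zero]
  refine ⟨B, hB, ?_⟩
  intro M hM0 ε hε lam hlam hM s p p'
  obtain ⟨c, hc0, hc⟩ := expand C M hM0 ε hε lam hlam hM k
  rw [hc s p, hc s p', mul_sum]
  refine sum_le_sum fun τ _ => ?_
  calc c s τ * ev C k s τ p ≤ c s τ * (B * ev C k s τ p') :=
        mul_le_mul_of_nonneg_left (hev s τ p p') (hc0 s τ)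
    _ = B * (c s τ * ev C k s τ p') := by ring

theorem continuous_step (s : ι) (p : L) :
    Continuous (fun f : ι → L → ℝ => step C s (fun t => f t.2) p) := by
  classical
  unfold step
  refine continuous_finsetSum _ fun q _ => ?_
  split_ifs
  · refine continuous_finsetProd _ fun t _ => ?_
    exact (continuous_apply _).comp (continuous_apply t.2)
  · exact continuous_const

/-- perturbed fixed points, from Brouwer. -/
theorem exists_eps [Nonempty L] (ε : ℝ) (hε : 0 < ε) :
    ∃ (M : ι → L → ℝ), (∀ s p, 0 ≤ M s p) ∧ (∀ s, ∑ p, M s p = 1) ∧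
      ∀ s p, M s p = (step C s (fun t => M t.2) p + ε) /
        (∑ p', (step C s (fun t => M t.2) p' + ε)) := by
  classical
  let ab : (ι → L → ℝ) → (ι → L → ℝ) := fun f t q => |f t q|
  have hab : Continuous ab := by
    refine continuous_pi fun t => continuous_pi fun q => ?_
    exact continuous_abs.comp ((continuous_apply q).comp (continuous_apply t))
  have hst : ∀ (f : ι → L → ℝ) s p, 0 ≤ step C s (fun t => ab f t.2) p := fun f s p =>
    step_nonneg C s _ (fun t q => abs_nonneg _) p
  have hden : ∀ (f : ι → L → ℝ) s, 0 < ∑ p', (step C s (fun t => ab f t.2) p' + ε) := by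
    intro f s
    refine sum_pos (fun p' _ => ?_) univ_nonempty
    have := hst f s p'
    linarith
  let F : (ι → L → ℝ) → (ι → L → ℝ) := fun f s p =>
    (step C s (fun t => ab f t.2) p + ε) / (∑ p', (step C s (fun t => ab f t.2) p' + ε))
  have hF : Continuous F := by
    refine continuous_pi fun s => continuous_pi fun p => ?_
    refine Continuous.div ?_ ?_ (fun f => (hden f s).ne')
    · exact ((continuous_step C s p).comp hab).add continuous_const
    · exact continuous_finsetSum _ fun p' _ =>
        ((continuous_step C s p').comp hab).add continuous_const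
  have hF0 : ∀ f s p, 0 ≤ F f s p := by
    intro f s p
    refine div_nonneg ?_ (hden f s).le
    have := hst f s p
    linarith
  have hFs : ∀ f s, ∑ p, F f s p = 1 := by
    intro f s
    show ∑ p, (step C s (fun t => ab f t.2) p + ε) /
      (∑ p', (step C s (fun t => ab f t.2) p' + ε)) = 1
    rw [← sum_div]
    exact div_self (hden f s).ne'
  have hF1 : ∀ f s p, F f s p ≤ 1 := by
    intro f s p
    rw [← hFs f s]
    exact single_le_sum (f := fun p => F f s p) (fun p _ => hF0 f s p) (mem_univ p)
  obtain ⟨M, hM⟩ := Pool.Agent.Helper31.GZ.Brouwer.brouwer F hF 1 (by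
    intro f
    refine (pi_norm_le_iff_of_nonneg zero_le_one).2 fun s => ?_
    refine (pi_norm_le_iff_of_nonneg zero_le_one).2 fun p => ?_
    rw [Real.norm_eq_abs, abs_of_nonneg (hF0 f s p)]
    exact hF1 f s p)
  have hM0 : ∀ s p, 0 ≤ M s p := by
    intro s p
    rw [← hM]
    exact hF0 M s p
  have habM : ab M = M := by
    funext s p
    exact abs_of_nonneg (hM0 s p)
  refine ⟨M, hM0, fun s => ?_, fun s p => ?_⟩
  · rw [← hFs M s]
    refine sum_congr rfl fun p _ => ?_
    rw [hM]
  · have h1 : F M s p = M s p := congrFun (congrFun hM s) p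
    rw [← h1]
    show (step C s (fun t => ab M t.2) p + ε) /
      (∑ p', (step C s (fun t => ab M t.2) p' + ε)) = _
    rw [habM]

/-- a positive projective fixed point. -/
theorem exists_fixed [Nonempty L] (k : ℕ)
    (hk : ∀ (s : ι) (τ : Tr H L k s) (p p' : L), 0 < ev C k s τ p → 0 < ev C k s τ p') :
    ∃ M : ι → L → ℝ, (∀ s p, 0 < M s p) ∧
      ∀ s p, M s p * (∑ p', step C s (fun t => M t.2) p') = step C s (fun t => M t.2) p := by
  classical
  obtain ⟨B, hB, hbound⟩ := ratio_bound C k hk
  have hex : ∀ n : ℕ, ∃ (M : ι → L → ℝ), (∀ s p, 0 ≤ M s p) ∧ (∀ s, ∑ p, M s p = 1) ∧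
      ∀ s p, M s p = (step C s (fun t => M t.2) p + 1 / ((n : ℝ) + 1)) /
        (∑ p', (step C s (fun t => M t.2) p' + 1 / ((n : ℝ) + 1))) := fun n =>
    exists_eps C _ Nat.one_div_pos_of_nat
  choose Mn hMn0 hMn1 hMn using hex
  have hden : ∀ n s, 0 < ∑ p', (step C s (fun t => Mn n t.2) p' + 1 / ((n : ℝ) + 1)) := by
    intro n s
    refine sum_pos (fun p' _ => ?_) univ_nonempty
    have h1 := step_nonneg C s (fun t => Mn n t.2) (fun t q => hMn0 n t.2 q) p'
    have h2 : (0 : ℝ) < 1 / ((n : ℝ) + 1) := Nat.one_div_pos_of_nat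
    linarith
  have hr : ∀ n s p p', Mn n s p ≤ B * Mn n s p' := fun n =>
    hbound (Mn n) (hMn0 n) _ (Nat.one_div_pos_of_nat.le) _ (hden n) (hMn n)
  have hle1 : ∀ n s p, Mn n s p ≤ 1 := by
    intro n s p
    rw [← hMn1 n s]
    exact single_le_sum (f := fun p => Mn n s p) (fun p _ => hMn0 n s p) (mem_univ p)
  have hcomp : IsCompact (Set.pi Set.univ (fun _ : ι => Set.pi Set.univ
      (fun _ : L => Set.Icc (0 : ℝ) 1))) :=
    isCompact_univ_pi (fun _ => isCompact_univ_pi (fun _ => isCompact_Icc))
  obtain ⟨M, -, φ, hφ, hlim⟩ := hcomp.tendsto_subseq (x := Mn) (by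
    intro n s _ p _
    exact ⟨hMn0 n s p, hle1 n s p⟩)
  have hlimp : ∀ s p, Tendsto (fun n => Mn (φ n) s p) atTop (𝓝 (M s p)) := by
    intro s p
    have h1 := (tendsto_pi_nhds.1 hlim) s
    exact (tendsto_pi_nhds.1 h1) p
  have hM0 : ∀ s p, 0 ≤ M s p := fun s p =>
    ge_of_tendsto' (hlimp s p) (fun n => hMn0 _ s p)
  have hMs : ∀ s, ∑ p, M s p = 1 := by
    intro s
    have h1 : Tendsto (fun n => ∑ p, Mn (φ n) s p) atTop (𝓝 (∑ p, M s p)) :=
      tendsto_finsetSum _ fun p _ => hlimp s p
    have h2 : (fun n => ∑ p, Mn (φ n) s p) = fun _ => (1 : ℝ) := by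
      funext n; exact hMn1 _ s
    rw [h2] at h1
    exact (tendsto_nhds_unique h1 tendsto_const_nhds)
  have hMr : ∀ s p p', M s p ≤ B * M s p' := fun s p p' =>
    le_of_tendsto_of_tendsto' (hlimp s p) ((hlimp s p').const_mul B) (fun n => hr _ s p p')
  have hMpos : ∀ s p, 0 < M s p := by
    intro s p
    rcases (hM0 s p).lt_or_eq with h | h
    · exact h
    · exfalso
      have h1 : ∀ p', M s p' = 0 := by
        intro p'
        refine le_antisymm ?_ (hM0 s p')
        have := hMr s p' p
        rw [← h, mul_zero] at this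
        exact this
      have h2 := hMs s
      rw [sum_congr rfl (fun p' _ => h1 p'), sum_const_zero] at h2
      exact zero_ne_one h2
  have hstep : ∀ s p, Tendsto (fun n => step C s (fun t => Mn (φ n) t.2) p) atTop
      (𝓝 (step C s (fun t => M t.2) p)) := fun s p =>
    ((continuous_step C s p).tendsto M).comp hlim
  have heps : Tendsto (fun n => 1 / (((φ n : ℕ) : ℝ) + 1)) atTop (𝓝 0) :=
    tendsto_one_div_add_atTop_nhds_zero_nat.comp hφ.tendsto_atTop
  refine ⟨M, hMpos, fun s p => ?_⟩
  have hL : Tendsto (fun n => Mn (φ n) s p * (∑ p', (step C s (fun t => Mn (φ n) t.2) p' +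
      1 / (((φ n : ℕ) : ℝ) + 1)))) atTop
      (𝓝 (M s p * (∑ p', (step C s (fun t => M t.2) p' + 0)))) :=
    (hlimp s p).mul (tendsto_finsetSum _ fun p' _ => (hstep s p').add heps)
  have hR : Tendsto (fun n => step C s (fun t => Mn (φ n) t.2) p + 1 / (((φ n : ℕ) : ℝ) + 1)) atTop
      (𝓝 (step C s (fun t => M t.2) p + 0)) := (hstep s p).add heps
  have heq : (fun n => Mn (φ n) s p * (∑ p', (step C s (fun t => Mn (φ n) t.2) p' +
      1 / (((φ n : ℕ) : ℝ) + 1)))) =
      (fun n => step C s (fun t => Mn (φ n) t.2) p + 1 / (((φ n : ℕ) : ℝ) + 1)) := by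
    funext n
    have h1 := hMn (φ n) s p
    have h2 := hden (φ n) s
    rw [eq_div_iff h2.ne'] at h1
    exact h1
  rw [heq] at hL
  have := tendsto_nhds_unique hL hR
  simpa using this

/-- invariant couplings. -/
theorem exists_coupling [Nonempty L]
    (hinv : ∀ i, ∀ c ∈ C i, ∀ h : H i, (fun k => c (k * h)) ∈ C i)
    (hext : ∀ i p, ∃ c ∈ C i, c 1 = p) (k : ℕ)
    (hk : ∀ (s : ι) (τ : Tr H L k s) (p p' : L), 0 < ev C k s τ p → 0 < ev C k s τ p') :
    ∃ (W : L → ℝ) (N : ∀ i, (H i → L) → ℝ), (∀ p, 0 < W p) ∧ (∀ i c, 0 ≤ N i c) ∧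
      (∀ i c, 0 < N i c → c ∈ C i) ∧
      (∀ i h p, ∑ c : H i → L, (if c h = p then N i c else 0) = W p) := by
  classical
  obtain ⟨M, hM, hfix⟩ := exists_fixed C k hk
  have hstep : ∀ s p, 0 < step C s (fun t => M t.2) p := by
    intro s p
    unfold step
    obtain ⟨q, hq, hq1⟩ := hext s p
    refine sum_pos' (fun q _ => ?_) ⟨q, mem_univ q, ?_⟩
    · split_ifs
      · exact prod_nonneg fun t _ => (hM t.2 _).le
      · exact le_rfl
    · rw [if_pos ⟨hq, hq1⟩]
      exact prod_pos fun t _ => hM t.2 _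
  let lam : ι → ℝ := fun s => ∑ p', step C s (fun t => M t.2) p'
  have hlam : ∀ s, 0 < lam s := fun s => sum_pos (fun p _ => hstep s p) univ_nonempty
  have hfix' : ∀ s p, step C s (fun t => M t.2) p = M s p * lam s := fun s p => (hfix s p).symm
  let W : L → ℝ := fun p => ∏ t, M t p
  let g : ι → L → ℝ := fun i p => ∏ k ∈ univ.erase i, M k p
  let Q : ∀ i, (H i → L) → ℝ := fun i c => if c ∈ C i then ∏ h : H i, g i (c h) else 0
  have hWpos : ∀ p, 0 < W p := fun p => prod_pos fun t _ => hM t p
  have hgpos : ∀ i p, 0 < g i p := fun i p => prod_pos fun t _ => hM t p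
  have hQ0 : ∀ i c, 0 ≤ Q i c := by
    intro i c
    show 0 ≤ (if c ∈ C i then _ else _)
    split_ifs
    · exact prod_nonneg fun h _ => (hgpos i _).le
    · exact le_rfl
  have hprod : ∀ i (c : H i → L), ∏ t ∈ Sx H i, M t.2 (c t.1) =
      ∏ h ∈ univ.erase (1 : H i), g i (c h) := by
    intro i c
    have : Sx H i = (univ.erase (1 : H i)) ×ˢ (univ.erase i) := by
      ext ⟨h, k⟩
      simp [Sx]
    rw [this, prod_product]
  have hone : ∀ i p, ∑ c : H i → L, (if c 1 = p then Q i c else 0) = W p * lam i := by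
    intro i p
    have h1 : ∀ c : H i → L, (if c 1 = p then Q i c else 0) =
        g i p * (if c ∈ C i ∧ c 1 = p then ∏ t ∈ Sx H i, M t.2 (c t.1) else 0) := by
      intro c
      by_cases h1 : c 1 = p
      · rw [if_pos h1]
        by_cases h2 : c ∈ C i
        · rw [if_pos ⟨h2, h1⟩, hprod]
          show (if c ∈ C i then ∏ h : H i, g i (c h) else 0) = _
          rw [if_pos h2, ← mul_prod_erase univ _ (mem_univ (1 : H i)), h1]
        · rw [if_neg (fun h => h2 h.1)]
          show (if c ∈ C i then ∏ h : H i, g i (c h) else 0) = _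
          rw [if_neg h2, mul_zero]
      · rw [if_neg h1, if_neg (fun h => h1 h.2), mul_zero]
    rw [sum_congr rfl (fun c _ => h1 c), ← mul_sum]
    have h2 : ∑ c : H i → L, (if c ∈ C i ∧ c 1 = p then ∏ t ∈ Sx H i, M t.2 (c t.1) else 0) =
        step C i (fun t => M t.2) p := rfl
    rw [h2, hfix']
    show (∏ k ∈ univ.erase i, M k p) * (M i p * lam i) = (∏ t, M t p) * lam i
    rw [← mul_prod_erase univ (fun t => M t p) (mem_univ i)]
    ring
  have hall : ∀ i (h : H i) p, ∑ c : H i → L, (if c h = p then Q i c else 0) = W p * lam i := by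
    intro i h p
    rw [← hone i p]
    -- the translation bijection
    let e : (H i → L) ≃ (H i → L) :=
      { toFun := fun c k => c (k * h)
        invFun := fun c k => c (k * h⁻¹)
        left_inv := fun c => by funext k; simp [mul_assoc]
        right_inv := fun c => by funext k; simp [mul_assoc] }
    refine Fintype.sum_equiv e _ _ fun c => ?_
    have e1 : (e c) 1 = c h := by
      show c (1 * h) = c h
      rw [one_mul]
    have e2 : Q i (e c) = Q i c := by
      have e3 : (e c ∈ C i) ↔ c ∈ C i := by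
        constructor
        · intro hc
          have := hinv i _ hc h⁻¹
          have e4 : (fun k => (e c) (k * h⁻¹)) = c := by
            funext k
            show c (k * h⁻¹ * h) = c k
            rw [inv_mul_cancel_right]
          rwa [e4] at this
        · intro hc
          exact hinv i c hc h
      show (if e c ∈ C i then ∏ k : H i, g i ((e c) k) else 0) =
        (if c ∈ C i then ∏ k : H i, g i (c k) else 0)
      by_cases hc : c ∈ C i
      · rw [if_pos hc, if_pos (e3.2 hc)]
        exact Fintype.prod_equiv (Equiv.mulRight h) _ _ (fun k => rfl)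
      · rw [if_neg hc, if_neg (fun h' => hc (e3.1 h'))]
    rw [e1, e2]
  refine ⟨W, fun i c => Q i c / lam i, hWpos, fun i c => div_nonneg (hQ0 i c) (hlam i).le, ?_, ?_⟩
  · intro i c h
    by_contra hn
    have h0 : Q i c = 0 := if_neg hn
    simp only [h0, zero_div, lt_self_iff_false] at h
  · intro i h p
    have h1 : ∀ c : H i → L, (if c h = p then Q i c / lam i else 0) =
        (if c h = p then Q i c else 0) / lam i := by
      intro c
      split_ifs
      · rfl
      · rw [zero_div]
    rw [sum_congr rfl (fun c _ => h1 c), ← sum_div, hall]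
    exact mul_div_cancel_right₀ _ (hlam i).ne'

end Msg

end Pool.Agent.TH88.SI.FP
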