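import Mathlib
import Pool.Agent.TH88.SI.Cop
import Pool.Agent.TH88.SI.Msg2
import Pool.Agent.TH88.SI.Flow2

/-!
# Finite models of coset systems over free products
-/

set_option autoImplicit false

namespace Pool.Agent.TH88.SI.FP

open Monoid

/-- the shift. -/
def shf {G L : Type} [Group G] (g : G) (x : G → L) : G → L := fun h => x (h * g)

section gen

variable {ι L : Type} {H : ι → Type} [∀ i, Group (H i)]

/-- the coset system. -/
def CS (C : ∀ i, Set (H i → L)) : Set (CoprodI H → L) :=
  {x | ∀ (g : CoprodI H) (i : ι), (fun h : H i => x (CoprodI.of h * g)) ∈ C i}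

variable (C : ∀ i, Set (H i → L))

theorem CS.shf {x : CoprodI H → L} (hx : x ∈ CS C) (g : CoprodI H) : shf g x ∈ CS C := by
  intro g' i
  have := hx (g' * g) i
  simpa only [FP.shf, mul_assoc] using this

theorem CS.of_mem {x : CoprodI H → L} (hx : x ∈ CS C) (i : ι) :
    (fun h : H i => x (CoprodI.of h)) ∈ C i := by
  have := hx 1 i
  simpa only [mul_one] using this

variable (hinv : ∀ i, ∀ c ∈ C i, ∀ h : H i, (fun k => c (k * h)) ∈ C i)

include hinv in
/-- extension of a label to the whole group. -/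
theorem exists_ext (hext : ∀ i p, ∃ c ∈ C i, c 1 = p) (p : L) : ∃ x ∈ CS C, x 1 = p := by
  classical
  choose cc hcc hcc1 using hext
  let lab : List (Σ i, H i) → L := fun l => l.foldr (fun s q => cc s.1 q s.2) p
  refine ⟨fun g => lab (wd g), ?_, ?_⟩
  · intro g i
    obtain ⟨k, l, hl, hi, rfl⟩ := exists_left i g
    have h1 : (fun h : H i => lab (wd (CoprodI.of h * (CoprodI.of k * pr l)))) =
        fun h => cc i (lab l) (h * k) := by
      funext h
      rw [← mul_assoc, ← map_mul]
      by_cases hk : h * k = 1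
      · rw [hk, map_one, one_mul, wd_pr hl, hcc1]
      · rw [wd_of_mul hl hk hi]
        rfl
    rw [h1]
    exact hinv i _ (hcc i _) k
  · show lab (wd 1) = p
    rw [wd_one]
    rfl

/-- gluing at the root. -/
theorem glue1 (p : L) (x : ι → CoprodI H → L) (hx : ∀ k, x k ∈ CS C) (hp : ∀ k, x k 1 = p) :
    ∃ y ∈ CS C, y 1 = p ∧ ∀ k g, (g = 1 ∨ ty g = some k) → y g = x k g := by
  classical
  let y : CoprodI H → L := fun g => match ty g with
    | none => p
    | some k => x k g
  have hy1 : y 1 = p := by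
    show (match ty (1 : CoprodI H) with
      | none => p
      | some k => x k 1) = p
    rw [ty_one]
  have hyk : ∀ k g, ty g = some k → y g = x k g := by
    intro k g h
    show (match ty g with
      | none => p
      | some k => x k g) = _
    rw [h]
  have hy : ∀ k g, (g = 1 ∨ ty g = some k) → y g = x k g := by
    rintro k g (rfl | h)
    · rw [hy1, hp]
    · exact hyk k g h
  refine ⟨y, ?_, hy1, hy⟩
  intro g i
  by_cases hg : g ∈ Set.range (CoprodI.of : H i → CoprodI H)
  · obtain ⟨k, rfl⟩ := hg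
    have h1 : (fun h : H i => y (CoprodI.of h * CoprodI.of k)) =
        fun h => x i (CoprodI.of h * CoprodI.of k) := by
      funext h
      rw [← map_mul]
      apply hy
      rcases ty_of (h * k) with h2 | h2
      · left; exact ty_eq_none.1 h2
      · right; exact h2
    rw [h1]
    exact hx i _ i
  · rcases hk : ty g with _ | k
    · exfalso
      apply hg
      rw [ty_eq_none.1 hk]
      exact ⟨1, map_one _⟩
    · have h1 : (fun h : H i => y (CoprodI.of h * g)) = fun h => x k (CoprodI.of h * g) := by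
        funext h
        exact hyk k _ (by rw [ty_of_mul h hg, hk])
      rw [h1]
      exact hx k _ i

include hinv in
/-- gluing along a coset. -/
theorem glue2 (i : ι) (c : H i → L) (hc : c ∈ C i) (X : H i → CoprodI H → L)
    (hX : ∀ h, X h ∈ CS C) (h1 : ∀ h, X h 1 = c h) :
    ∃ y ∈ CS C, ∀ (h : H i) (g : CoprodI H), ty g ≠ some i → y (g * CoprodI.of h) = X h g := by
  refine ⟨fun g => X (blk i g) (g * (CoprodI.of (blk i g))⁻¹), ?_, ?_⟩
  · intro g i'
    by_cases hg : i' ≠ i ∨ g ∉ Set.range (CoprodI.of : H i' → CoprodI H)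
    · have e : (fun h : H i' => X (blk i (CoprodI.of h * g))
          (CoprodI.of h * g * (CoprodI.of (blk i (CoprodI.of h * g)))⁻¹)) =
          fun h => X (blk i g) (CoprodI.of h * (g * (CoprodI.of (blk i g))⁻¹)) := by
        funext h
        rw [blk_of_mul h hg, mul_assoc]
      rw [e]
      exact hX _ _ i'
    · push Not at hg
      obtain ⟨rfl, k, rfl⟩ := hg
      have e : (fun h : H i' => X (blk i' (CoprodI.of h * CoprodI.of k))
          (CoprodI.of h * CoprodI.of k *
            (CoprodI.of (blk i' (CoprodI.of h * CoprodI.of k)))⁻¹)) = fun h => c (h * k) := by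
        funext h
        rw [← map_mul, blk_of, mul_inv_cancel, h1]
      rw [e]
      exact hinv i' c hc k
  · intro h g hg
    show X (blk i (g * CoprodI.of h)) (g * CoprodI.of h * (CoprodI.of (blk i (g * CoprodI.of h)))⁻¹)
      = _
    rw [blk_mul_of h hg, mul_inv_cancel_right]

end gen

section fin

variable {ι L : Type} [Fintype ι] [DecidableEq ι] [Fintype L] [DecidableEq L] {H : ι → Type}
  [∀ i, Group (H i)] [∀ i, Fintype (H i)] [∀ i, DecidableEq (H i)]

/-- the configuration matches the truncated boundary condition. -/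
def Mt : (j : ℕ) → (i : ι) → Tr H L j i → (CoprodI H → L) → Prop
  | 0, _, q, x => x 1 = q
  | (_ + 1), _, none, _ => True
  | (j + 1), i, some φ, x => ∀ t : H i × ι, t.1 ≠ 1 → t.2 ≠ i →
      Mt j t.2 (φ t) (shf (CoprodI.of t.1) x)

variable (C : ∀ i, Set (H i → L))

theorem ev_some_pos {j : ℕ} {i : ι} {φ : ∀ t : H i × ι, Tr H L j t.2} {p : L} :
    0 < ev C (j + 1) i (some φ : Option (∀ t : H i × ι, Tr H L j t.2)) p ↔
      ∃ c ∈ C i, c 1 = p ∧ ∀ t : H i × ι, t.1 ≠ 1 → t.2 ≠ i → 0 < ev C j t.2 (φ t) (c t.1) := by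
  classical
  show 0 < step C i (fun t => ev C j t.2 (φ t)) p ↔ _
  unfold step
  constructor
  · intro h
    obtain ⟨c, -, hc⟩ := Finset.exists_lt_of_sum_lt (s := Finset.univ)
      (f := fun _ : H i → L => (0 : ℝ)) (by simpa using h)
    split_ifs at hc with hr
    · refine ⟨c, hr.1, hr.2, fun t ht1 ht2 => ?_⟩
      rcases (ev_nonneg C j t.2 (φ t) (c t.1)).lt_or_eq with h1 | h1
      · exact h1
      · exfalso
        rw [Finset.prod_eq_zero (mem_Sx.2 ⟨ht1, ht2⟩) h1.symm] at hc
        exact lt_irrefl _ hc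
    · exact absurd hc (lt_irrefl _)
  · rintro ⟨c, hc, hc1, hpos⟩
    refine Finset.sum_pos' (fun c _ => ?_) ⟨c, Finset.mem_univ _, ?_⟩
    · split_ifs
      · exact Finset.prod_nonneg fun t _ => ev_nonneg C j t.2 (φ t) _
      · exact le_rfl
    · rw [if_pos ⟨hc, hc1⟩]
      exact Finset.prod_pos fun t ht => hpos t (mem_Sx.1 ht).1 (mem_Sx.1 ht).2

theorem ev_of_mt : ∀ (j : ℕ) (i : ι) (τ : Tr H L j i) (x : CoprodI H → L), x ∈ CS C →
    Mt j i τ x → 0 < ev C j i τ (x 1)
  | 0, i, q, x, _, h => by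
      have h' : x 1 = (show L from q) := h
      have : ev C 0 i q (x 1) = 1 := if_pos h'
      rw [this]; exact zero_lt_one
  | (j + 1), i, none, x, _, _ => zero_lt_one
  | (j + 1), i, some φ, x, hx, h => by
      refine (ev_some_pos C).2 ⟨fun h => x (CoprodI.of h), CS.of_mem C hx i, ?_, ?_⟩
      · show x (CoprodI.of 1) = x 1
        rw [map_one]
      · intro t ht1 ht2
        have h1 := ev_of_mt j t.2 (φ t) _ (CS.shf C hx (CoprodI.of t.1)) (h t ht1 ht2)
        have h2 : shf (CoprodI.of t.1) x 1 = x (CoprodI.of t.1) := by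
          show x (1 * CoprodI.of t.1) = _
          rw [one_mul]
        rw [h2] at h1
        exact h1

theorem mt_loc : ∀ (j : ℕ) (i : ι) (τ : Tr H L j i) (x x' : CoprodI H → L),
    (∀ g, (g = 1 ∨ ty g = some i) → x g = x' g) → Mt j i τ x → Mt j i τ x'
  | 0, i, q, x, x', hxx, h => by
      have h' : x 1 = (show L from q) := h
      show x' 1 = (show L from q)
      rw [← hxx 1 (Or.inl rfl)]
      exact h'
  | (j + 1), i, none, x, x', _, _ => trivial
  | (j + 1), i, some φ, x, x', hxx, h => by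
      intro t ht1 ht2
      refine mt_loc j t.2 (φ t) _ _ ?_ (h t ht1 ht2)
      intro g hg
      show x (g * CoprodI.of t.1) = x' (g * CoprodI.of t.1)
      apply hxx
      right
      apply ty_mul_of ht1
      rcases hg with rfl | hg
      · rw [ty_one]; simp
      · rw [hg]
        intro h2
        exact ht2 (Option.some.inj h2)

/-- only elements of length `j` matter. -/
theorem mt_far : ∀ (j : ℕ) (i : ι) (τ : Tr H L j i) (x x' : CoprodI H → L),
    (∀ g, (wd g).length = j → (j = 0 ∨ ty g = some i) → x g = x' g) → Mt j i τ x → Mt j i τ x'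
  | 0, i, q, x, x', hxx, h => by
      have h' : x 1 = (show L from q) := h
      show x' 1 = (show L from q)
      rw [← hxx 1 (by rw [wd_one]; rfl) (Or.inl rfl)]
      exact h'
  | (j + 1), i, none, x, x', _, _ => trivial
  | (j + 1), i, some φ, x, x', hxx, h => by
      intro t ht1 ht2
      refine mt_far j t.2 (φ t) _ _ ?_ (h t ht1 ht2)
      intro g hg hg2
      show x (g * CoprodI.of t.1) = x' (g * CoprodI.of t.1)
      have hty : ty g ≠ some i := by
        rcases hg2 with h0 | h0
        · rw [h0, List.length_eq_zero_iff, wd_eq_nil] at hg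
          rw [hg, ty_one]; simp
        · rw [h0]
          intro h2
          exact ht2 (Option.some.inj h2)
      exact hxx _ (by rw [len_mul_of ht1 hty, hg]) (Or.inr (ty_mul_of ht1 hty))

theorem mt_of_ev (hinv : ∀ i, ∀ c ∈ C i, ∀ h : H i, (fun k => c (k * h)) ∈ C i)
    (hext : ∀ i p, ∃ c ∈ C i, c 1 = p) :
    ∀ (j : ℕ) (i : ι) (τ : Tr H L j i) (p : L), 0 < ev C j i τ p →
      ∃ x ∈ CS C, x 1 = p ∧ Mt j i τ x
  | 0, i, q, p, h => by
      obtain ⟨x, hx, hx1⟩ := exists_ext C hinv hext p
      refine ⟨x, hx, hx1, ?_⟩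
      show x 1 = (show L from q)
      rw [hx1]
      by_contra hne
      have : ev C 0 i q p = 0 := if_neg hne
      rw [this] at h
      exact lt_irrefl _ h
  | (j + 1), i, none, p, _ => by
      obtain ⟨x, hx, hx1⟩ := exists_ext C hinv hext p
      exact ⟨x, hx, hx1, trivial⟩
  | (j + 1), i, some φ, p, h => by
      obtain ⟨c, hc, hc1, hpos⟩ := (ev_some_pos C).1 h
      have h1 : ∀ t : H i × ι, ∃ x ∈ CS C, x 1 = c t.1 ∧
          (t.1 ≠ 1 → t.2 ≠ i → Mt j t.2 (φ t) x) := by
        intro t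
        by_cases ht : t.1 ≠ 1 ∧ t.2 ≠ i
        · obtain ⟨x, hx, hx1, hx2⟩ := mt_of_ev hinv hext j t.2 (φ t) (c t.1) (hpos t ht.1 ht.2)
          exact ⟨x, hx, hx1, fun _ _ => hx2⟩
        · obtain ⟨x, hx, hx1⟩ := exists_ext C hinv hext (c t.1)
          exact ⟨x, hx, hx1, fun h1 h2 => absurd ⟨h1, h2⟩ ht⟩
      choose x hx hx1 hx2 using h1
      have h2 : ∀ h : H i, ∃ y ∈ CS C, y 1 = c h ∧
          ∀ k g, (g = 1 ∨ ty g = some k) → y g = x (h, k) g := fun h =>
        glue1 C (c h) (fun k => x (h, k)) (fun k => hx (h, k)) (fun k => hx1 (h, k))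
      choose X hX hX1 hX2 using h2
      obtain ⟨y, hy, hy2⟩ := glue2 C hinv i c hc X hX hX1
      refine ⟨y, hy, ?_, ?_⟩
      · have h3 := hy2 1 1 (by rw [ty_one]; simp)
        rw [map_one, mul_one, hX1, hc1] at h3
        exact h3
      · intro t ht1 ht2
        refine mt_loc j t.2 (φ t) (x t) _ ?_ (hx2 t ht1 ht2)
        intro g hg
        show x t g = y (g * CoprodI.of t.1)
        rw [hy2 t.1 g ?_, hX2 t.1 t.2 g hg]
        rcases hg with rfl | hg
        · rw [ty_one]; simp
        · rw [hg]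
          intro h3
          exact ht2 (Option.some.inj h3)

/-- finite models of coset systems over free products of finite groups. -/
theorem exists_model [Nonempty L]
    (hinv : ∀ i, ∀ c ∈ C i, ∀ h : H i, (fun k => c (k * h)) ∈ C i)
    (hext : ∀ i p, ∃ c ∈ C i, c 1 = p) (Q : Set (CoprodI H)) (hQ : Q.Finite)
    (hW : ∀ x ∈ CS C, ∀ x' ∈ CS C, ∃ z ∈ CS C, z 1 = x' 1 ∧ ∀ g ∉ Q, z g = x g) :
    ∃ (V : Type) (_ : Finite V) (lab : V → L) (act : ∀ i, H i →* Equiv.Perm V),
      (∀ p, ∃ v, lab v = p) ∧ ∀ i v, (fun h => lab (act i h v)) ∈ C i := by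
  classical
  obtain ⟨k, hk⟩ : ∃ k, ∀ g ∈ Q, (wd g).length < k := by
    refine ⟨(hQ.toFinset.sup fun g => (wd g).length) + 1, fun g hg => ?_⟩
    exact Nat.lt_succ_of_le (Finset.le_sup (f := fun g => (wd g).length) (hQ.mem_toFinset.2 hg))
  obtain ⟨W, N, hW1, hN1, hN2, hN3⟩ := exists_coupling C hinv hext k (by
    intro i τ p p' hp
    obtain ⟨x, hx, -, hx2⟩ := mt_of_ev C hinv hext k i τ p hp
    obtain ⟨x', hx', hx'1⟩ := exists_ext C hinv hext p'
    obtain ⟨z, hz, hz1, hz2⟩ := hW x hx x' hx'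
    have h1 := ev_of_mt C k i τ z hz (mt_far k i τ x z (by
      intro g hg _
      refine (hz2 g fun hgQ => ?_).symm
      have := hk g hgQ
      omega) hx2)
    rw [hz1, hx'1] at h1
    exact h1)
  exact model_of_weights H C hinv W N hW1 hN1 hN2 hN3

end fin

end Pool.Agent.TH88.SI.FP
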