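import Mathlib

/-!
# Branches of the free group

Left multiplication moves along the tree; `Ends t h` says that the reduced word of `h` has last
letter `t`, i.e. `h` lies in the branch of the tree that leaves `1` through the letter `t`.
-/

set_option autoImplicit false
set_option linter.unusedSectionVars false

namespace Pool.Agent.TH88.SI

open FreeGroup

variable {α : Type} [DecidableEq α]

/-- the inverse letter. -/
def bar (t : α × Bool) : α × Bool := (t.1, !t.2)

@[simp] theorem bar_bar (t : α × Bool) : bar (bar t) = t := by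
  simp [bar]

theorem bar_ne (t : α × Bool) : bar t ≠ t := by
  intro h
  have := congrArg Prod.snd h
  simp [bar] at this

/-- the group element of a letter. -/
def lt (t : α × Bool) : FreeGroup α := FreeGroup.mk [t]

theorem lt_bar (t : α × Bool) : lt (bar t) = (lt t)⁻¹ := by
  simp [lt, bar, FreeGroup.inv_mk, FreeGroup.invRev]

@[simp] theorem lt_mul_bar (t : α × Bool) : lt t * lt (bar t) = 1 := by
  rw [lt_bar, mul_inv_cancel]

@[simp] theorem lt_bar_mul (t : α × Bool) : lt (bar t) * lt t = 1 := by
  rw [lt_bar, inv_mul_cancel]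

/-- `h` lies in the branch `t`. -/
def Ends (t : α × Bool) (h : FreeGroup α) : Prop := h.toWord.getLast? = some t

theorem toWord_lt (t : α × Bool) : (lt t).toWord = [t] := by
  rw [lt, toWord_mk, reduce_singleton]

theorem norm_lt (t : α × Bool) : (lt t).norm = 1 := by
  rw [FreeGroup.norm, toWord_lt]; rfl

theorem toWord_lt_mul (u : α × Bool) (h : FreeGroup α) :
    (lt u * h).toWord = u :: h.toWord ∨ h.toWord = bar u :: (lt u * h).toWord := by
  have h1 : (lt u * h).toWord = reduce (u :: h.toWord) := by
    rw [toWord_mul, toWord_lt]; rfl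
  rw [reduce.cons, reduce_toWord] at h1
  rcases hw : h.toWord with _ | ⟨v, w⟩
  · left
    rw [hw] at h1
    exact h1
  · rw [hw] at h1
    by_cases hc : u.1 = v.1 ∧ u.2 = !v.2
    · right
      simp only at h1
      rw [if_pos hc] at h1
      rw [h1]
      have : v = bar u := by
        ext
        · exact hc.1.symm
        · simp [bar, hc.2]
      rw [this]
    · left
      simp only at h1
      rw [if_neg hc] at h1
      exact h1

theorem ends_lt_mul {t : α × Bool} {h : FreeGroup α} (ht : Ends t h) (u : α × Bool) :
    Ends t (lt u * h) ∨ lt u * h = 1 := by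
  rcases toWord_lt_mul u h with h1 | h1
  · left
    unfold Ends at ht ⊢
    rw [h1]
    rcases hw : h.toWord with _ | ⟨v, w⟩
    · rw [hw] at ht; simp at ht
    · rw [hw] at ht
      rw [List.getLast?_cons_cons]
      exact ht
  · rcases hw : (lt u * h).toWord with _ | ⟨v, w⟩
    · right
      exact toWord_eq_nil_iff.1 hw
    · left
      unfold Ends at ht ⊢
      rw [h1, hw, List.getLast?_cons_cons] at ht
      rw [hw]
      exact ht

theorem ends_mk_mul {t : α × Bool} {h : FreeGroup α} (ht : Ends t h) (l : List (α × Bool)) :
    Ends t (FreeGroup.mk l * h) ∨ (FreeGroup.mk l * h).norm ≤ l.length := by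
  induction l with
  | nil =>
    left
    have : FreeGroup.mk ([] : List (α × Bool)) = 1 := rfl
    rw [this, one_mul]
    exact ht
  | cons u l ih =>
    have e : FreeGroup.mk (u :: l) * h = lt u * (FreeGroup.mk l * h) := by
      rw [lt, ← mul_assoc, FreeGroup.mul_mk]; rfl
    rw [e]
    rcases ih with ih | ih
    · rcases ends_lt_mul ih u with h1 | h1
      · exact Or.inl h1
      · right
        rw [h1, FreeGroup.norm_one]
        exact Nat.zero_le _
    · right
      calc (lt u * (FreeGroup.mk l * h)).norm ≤ (lt u).norm + (FreeGroup.mk l * h).norm :=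
            norm_mul_le _ _
        _ ≤ (u :: l).length := by
            rw [norm_lt, List.length_cons]; omega

theorem ends_mul {t : α × Bool} {h : FreeGroup α} (ht : Ends t h) (d : FreeGroup α) :
    Ends t (d * h) ∨ (d * h).norm ≤ d.norm := by
  have := ends_mk_mul ht d.toWord
  rw [mk_toWord] at this
  exact this

theorem not_ends_one (t : α × Bool) : ¬ Ends t (1 : FreeGroup α) := by
  unfold Ends
  simp

theorem exists_ends {h : FreeGroup α} (hh : h ≠ 1) : ∃ t, Ends t h := by
  unfold Ends
  rcases hw : h.toWord.getLast? with _ | t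
  · exfalso
    rw [List.getLast?_eq_none_iff] at hw
    exact hh (toWord_eq_nil_iff.1 hw)
  · exact ⟨t, rfl⟩

theorem ends_unique {t u : α × Bool} {h : FreeGroup α} (h1 : Ends t h) (h2 : Ends u h) : t = u := by
  unfold Ends at h1 h2
  rw [h1] at h2
  exact Option.some.inj h2

/-- right multiplication by a letter, no cancellation. -/
theorem toWord_mul_lt {t : α × Bool} {h : FreeGroup α} (hn : ¬ Ends (bar t) h) :
    (h * lt t).toWord = h.toWord ++ [t] := by
  rw [toWord_mul, toWord_lt]
  apply FreeGroup.IsReduced.reduce_eq
  have h1 : FreeGroup.IsReduced h.toWord := isReduced_toWord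
  unfold FreeGroup.IsReduced at h1 ⊢
  rw [List.isChain_append]
  refine ⟨h1, List.isChain_singleton _, ?_⟩
  intro x hx y hy
  have hy' : y = t := by
    simp at hy
    exact hy.symm
  subst hy'
  intro hxy
  by_contra hne
  apply hn
  unfold Ends
  have : x = bar y := by
    ext
    · exact hxy
    · simp only [bar]
      cases hx2 : x.2 <;> cases hy2 : y.2 <;> simp_all
  rw [← this]
  exact hx

theorem ends_mul_lt {t : α × Bool} {h : FreeGroup α} (hn : ¬ Ends (bar t) h) :
    Ends t (h * lt t) := by
  unfold Ends
  rw [toWord_mul_lt hn]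
  simp

theorem norm_mul_lt {t : α × Bool} {h : FreeGroup α} (hn : ¬ Ends (bar t) h) :
    (h * lt t).norm = h.norm + 1 := by
  unfold FreeGroup.norm
  rw [toWord_mul_lt hn]
  simp

/-- right multiplication by a letter, with cancellation. -/
theorem norm_mul_lt_le {t : α × Bool} {h : FreeGroup α} (hn : Ends (bar t) h) :
    (h * lt t).norm ≤ h.norm := by
  unfold Ends at hn
  have h1 : h.toWord = h.toWord.dropLast ++ [bar t] := by
    have := List.dropLast_append_getLast? (bar t) hn
    exact this.symm
  have h2 : h = FreeGroup.mk h.toWord.dropLast * lt (bar t) := by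
    conv_lhs => rw [← mk_toWord (x := h), h1]
    rw [lt, FreeGroup.mul_mk]
  have h3 : h * lt t = FreeGroup.mk h.toWord.dropLast := by
    conv_lhs => rw [h2]
    rw [mul_assoc, lt_bar_mul, mul_one]
  rw [h3]
  refine norm_mk_le.trans ?_
  rw [List.length_dropLast]
  unfold FreeGroup.norm
  omega

/-- balls are finite. -/
theorem finite_ball [Finite α] (n : ℕ) : {h : FreeGroup α | h.norm ≤ n}.Finite := by
  have : Finite (α × Bool) := inferInstance
  have h1 : {l : List (α × Bool) | l.length ≤ n}.Finite := List.finite_length_le (α × Bool) n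
  refine (h1.image FreeGroup.mk).subset ?_
  intro h hh
  exact ⟨h.toWord, hh, mk_toWord⟩

end Pool.Agent.TH88.SI
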