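import Mathlib
import Pool.Agent.Helper31.GZ.Brouwer

/-!
# Message recursion on a regular tree

`step` is the belief propagation recursion of a nearest neighbour constraint system on a regular
tree.  If depth-`k` boundary conditions do not see the label of the root (hypothesis `hk`), then the
recursion has a positive projective fixed point, hence invariant couplings exist.
-/

set_option autoImplicit false

namespace Pool.Agent.TH88.SI

open Finset Filter Topology

section Msg

variable {D L : Type}

/-- truncated boundary conditions of depth at most `j`. -/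
def Tr (D L : Type) : ℕ → Type
  | 0 => L
  | (j + 1) => Option (D → Tr D L j)

theorem Tr.fin [Finite D] [Finite L] (j : ℕ) : Finite (Tr D L j) := by
  induction j with
  | zero => exact inferInstanceAs (Finite L)
  | succ j ih => exact inferInstanceAs (Finite (Option (D → Tr D L j)))

noncomputable instance Tr.fintype [Finite D] [Finite L] (j : ℕ) : Fintype (Tr D L j) :=
  @Fintype.ofFinite _ (Tr.fin j)

theorem Tr.nonempty [Nonempty L] (j : ℕ) : Nonempty (Tr D L j) := by
  cases j with
  | zero => exact inferInstanceAs (Nonempty L)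
  | succ j => exact ⟨(none : Option (D → Tr D L j))⟩

variable [Fintype D] [DecidableEq D] [Fintype L]

open Classical in
/-- one step of the recursion. -/
noncomputable def step (bar : D → D) (Rel : D → L → L → Prop) (s : D) (f : D → L → ℝ) (p : L) : ℝ :=
  ∑ q, if Rel s p q then ∏ t ∈ univ.erase (bar s), f t q else 0

open Classical in
/-- the partition function of a truncated boundary condition. -/
noncomputable def ev (bar : D → D) (Rel : D → L → L → Prop) : (j : ℕ) → D → Tr D L j → L → ℝ
  | 0, _, q, p => if p = q then 1 else 0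
  | (_ + 1), _, none, _ => 1
  | (j + 1), s, some φ, p => step bar Rel s (fun t => ev bar Rel j t (φ t)) p

variable (bar : D → D) (Rel : D → L → L → Prop)

theorem step_nonneg (s : D) (f : D → L → ℝ) (hf : ∀ t q, 0 ≤ f t q) (p : L) :
    0 ≤ step bar Rel s f p := by
  unfold step
  refine sum_nonneg fun q _ => ?_
  split_ifs
  · exact prod_nonneg fun t _ => hf t q
  · exact le_rfl

theorem ev_zero_self (s : D) (q : L) : ev bar Rel 0 s q q = 1 := if_pos rfl

theorem ev_zero_ne (s : D) (q p : L) (h : p ≠ q) : ev bar Rel 0 s q p = 0 := if_neg h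

theorem ev_nonneg : ∀ (j : ℕ) (s : D) (τ : Tr D L j) (p : L), 0 ≤ ev bar Rel j s τ p
  | 0, s, q, p => by
      by_cases h : p = q
      · have : ev bar Rel 0 s q p = 1 := if_pos h
        rw [this]; exact zero_le_one
      · have : ev bar Rel 0 s q p = 0 := if_neg h
        rw [this]
  | (j + 1), s, none, p => zero_le_one
  | (j + 1), s, some φ, p =>
      step_nonneg bar Rel s _ (fun t q => ev_nonneg j t (φ t) q) p

/-- a solution of the perturbed recursion is a nonnegative combination of depth `j` partition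
functions. -/
theorem expand [Nonempty L] (M : D → L → ℝ) (hM0 : ∀ s p, 0 ≤ M s p) (ε : ℝ) (hε : 0 ≤ ε)
    (lam : D → ℝ) (hlam : ∀ s, 0 < lam s)
    (hM : ∀ s p, M s p = (step bar Rel s M p + ε) / lam s) :
    ∀ j : ℕ, ∃ c : D → Tr D L j → ℝ, (∀ s τ, 0 ≤ c s τ) ∧
      ∀ s p, M s p = ∑ τ, c s τ * ev bar Rel j s τ p := by
  classical
  intro j
  induction j with
  | zero =>
    refine ⟨fun s (q : L) => M s q, fun s τ => hM0 s τ, fun s p => ?_⟩
    have h : ∑ τ : Tr D L 0, M s τ * ev bar Rel 0 s τ p = M s p * ev bar Rel 0 s p p :=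
      Fintype.sum_eq_single (M := ℝ) (f := fun τ : Tr D L 0 => M s τ * ev bar Rel 0 s τ p)
        (show Tr D L 0 from p) (fun τ hτ => by
          have : ev bar Rel 0 s τ p = 0 := ev_zero_ne bar Rel s τ p (fun h' => hτ h'.symm)
          show M s τ * ev bar Rel 0 s τ p = 0
          rw [this, mul_zero])
    have h2 : ev bar Rel 0 s p p = 1 := ev_zero_self bar Rel s p
    show M s p = ∑ τ : Tr D L 0, M s τ * ev bar Rel 0 s τ p
    rw [h, h2, mul_one]
  | succ j ih =>
    obtain ⟨c, hc0, hc⟩ := ih
    have hne := Tr.nonempty (D := D) (L := L) j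
    have hK : (0 : ℝ) < ((Fintype.card (Tr D L j) : ℕ) : ℝ) := by exact_mod_cast Fintype.card_pos
    set K : ℝ := ((Fintype.card (Tr D L j) : ℕ) : ℝ) with hKdef
    let c' : D → Option (D → Tr D L j) → ℝ := fun s o => match o with
      | none => ε / lam s
      | some φ => (∏ t ∈ univ.erase (bar s), c t (φ t)) * K⁻¹ / lam s
    refine ⟨c', ?_, ?_⟩
    · intro s o
      rcases o with _ | φ
      · exact div_nonneg hε (hlam s).le
      · exact div_nonneg (mul_nonneg (prod_nonneg fun t _ => hc0 t (φ t)) (inv_nonneg.2 hK.le))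
          (hlam s).le
    · intro s p
      have e1 : ∑ τ : Tr D L (j + 1), c' s τ * ev bar Rel (j + 1) s τ p =
          ∑ o : Option (D → Tr D L j), c' s o * ev bar Rel (j + 1) s o p := by
        exact @Fintype.sum_equiv (Tr D L (j + 1)) (Option (D → Tr D L j)) ℝ (Tr.fintype (j + 1)) _ _
          (Equiv.refl (Option (D → Tr D L j)))
          (fun τ : Tr D L (j + 1) => c' s τ * ev bar Rel (j + 1) s τ p)
          (fun o : Option (D → Tr D L j) => c' s o * ev bar Rel (j + 1) s o p) (fun _ => rfl)
      rw [e1, Fintype.sum_option]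
      have e2 : c' s none * ev bar Rel (j + 1) s none p = ε / lam s := by
        show ε / lam s * (1 : ℝ) = _
        ring
      rw [e2, hM s p, add_div, add_comm]
      congr 1
      -- the main term
      have e3 : ∀ φ : D → Tr D L j, c' s (some φ) * ev bar Rel (j + 1) s (some φ) p =
          ∑ q, (if Rel s p q then
            (∏ t, (if t = bar s then K⁻¹ else c t (φ t) * ev bar Rel j t (φ t) q)) / lam s
            else 0) := by
        intro φ
        show (∏ t ∈ univ.erase (bar s), c t (φ t)) * K⁻¹ / lam s *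
          step bar Rel s (fun t => ev bar Rel j t (φ t)) p = _
        unfold step
        rw [mul_sum]
        refine sum_congr rfl fun q _ => ?_
        split_ifs with hr
        · rw [← mul_prod_erase univ _ (mem_univ (bar s)), if_pos rfl]
          have : ∏ t ∈ univ.erase (bar s),
              (if t = bar s then K⁻¹ else c t (φ t) * ev bar Rel j t (φ t) q) =
              (∏ t ∈ univ.erase (bar s), c t (φ t)) *
              ∏ t ∈ univ.erase (bar s), ev bar Rel j t (φ t) q := by
            rw [← prod_mul_distrib]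
            refine prod_congr rfl fun t ht => ?_
            rw [if_neg (ne_of_mem_erase ht)]
          rw [this]
          ring
        · rw [mul_zero]
      rw [sum_congr rfl (fun φ _ => e3 φ), sum_comm]
      unfold step
      rw [sum_div]
      refine sum_congr rfl fun q _ => ?_
      by_cases hr : Rel s p q
      · simp only [if_pos hr]
        rw [← sum_div]
        congr 1
        have e4 : ∑ φ : D → Tr D L j,
            ∏ t, (if t = bar s then K⁻¹ else c t (φ t) * ev bar Rel j t (φ t) q) =
            ∏ t, ∑ τ : Tr D L j, (if t = bar s then K⁻¹ else c t τ * ev bar Rel j t τ q) := by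
          rw [prod_univ_sum, Fintype.piFinset_univ]
        rw [e4, ← mul_prod_erase univ _ (mem_univ (bar s))]
        have e5 : ∑ τ : Tr D L j,
            (if bar s = bar s then K⁻¹ else c (bar s) τ * ev bar Rel j (bar s) τ q) = 1 := by
          simp only [if_true]
          rw [sum_const, card_univ, nsmul_eq_mul]
          exact mul_inv_cancel₀ hK.ne'
        rw [e5, one_mul]
        refine prod_congr rfl fun t ht => ?_
        rw [hc t q]
        refine sum_congr rfl fun τ _ => ?_
        rw [if_neg (ne_of_mem_erase ht)]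
      · simp only [if_neg hr]
        simp

/-- uniform ratio bound. -/
theorem ratio_bound [Nonempty L] (k : ℕ)
    (hk : ∀ (s : D) (τ : Tr D L k) (p p' : L), 0 < ev bar Rel k s τ p → 0 < ev bar Rel k s τ p') :
    ∃ C : ℝ, 0 < C ∧ ∀ (M : D → L → ℝ), (∀ s p, 0 ≤ M s p) → ∀ ε : ℝ, 0 ≤ ε →
      ∀ lam : D → ℝ, (∀ s, 0 < lam s) → (∀ s p, M s p = (step bar Rel s M p + ε) / lam s) →
      ∀ s p p', M s p ≤ C * M s p' := by
  classical
  let C : ℝ := (∑ s : D, ∑ τ : Tr D L k, ∑ p : L, ∑ p' : L,
    ev bar Rel k s τ p / ev bar Rel k s τ p') + 1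
  have hnn : ∀ (s : D) (τ : Tr D L k) (p p' : L),
      0 ≤ ev bar Rel k s τ p / ev bar Rel k s τ p' :=
    fun s τ p p' => div_nonneg (ev_nonneg bar Rel k s τ p) (ev_nonneg bar Rel k s τ p')
  have hS : 0 ≤ ∑ s : D, ∑ τ : Tr D L k, ∑ p : L, ∑ p' : L,
      ev bar Rel k s τ p / ev bar Rel k s τ p' :=
    sum_nonneg fun s _ => sum_nonneg fun τ _ => sum_nonneg fun p _ => sum_nonneg fun p' _ =>
      hnn s τ p p'
  have hC : 0 < C := by positivity
  have hev : ∀ (s : D) (τ : Tr D L k) (p p' : L),
      ev bar Rel k s τ p ≤ C * ev bar Rel k s τ p' := by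
    intro s τ p p'
    rcases (ev_nonneg bar Rel k s τ p').lt_or_eq with h | h
    · have h1 : ev bar Rel k s τ p / ev bar Rel k s τ p' ≤ C := by
        have a1 : ev bar Rel k s τ p / ev bar Rel k s τ p' ≤
            ∑ p' : L, ev bar Rel k s τ p / ev bar Rel k s τ p' :=
          single_le_sum (f := fun p' => ev bar Rel k s τ p / ev bar Rel k s τ p')
            (fun p' _ => hnn s τ p p') (mem_univ p')
        have a2 : ∑ p' : L, ev bar Rel k s τ p / ev bar Rel k s τ p' ≤
            ∑ p : L, ∑ p' : L, ev bar Rel k s τ p / ev bar Rel k s τ p' :=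
          single_le_sum (f := fun p => ∑ p' : L, ev bar Rel k s τ p / ev bar Rel k s τ p')
            (fun p _ => sum_nonneg fun p' _ => hnn s τ p p') (mem_univ p)
        have a3 : ∑ p : L, ∑ p' : L, ev bar Rel k s τ p / ev bar Rel k s τ p' ≤
            ∑ τ : Tr D L k, ∑ p : L, ∑ p' : L, ev bar Rel k s τ p / ev bar Rel k s τ p' :=
          single_le_sum
            (f := fun τ => ∑ p : L, ∑ p' : L, ev bar Rel k s τ p / ev bar Rel k s τ p')
            (fun τ _ => sum_nonneg fun p _ => sum_nonneg fun p' _ => hnn s τ p p') (mem_univ τ)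
        have a4 : ∑ τ : Tr D L k, ∑ p : L, ∑ p' : L, ev bar Rel k s τ p / ev bar Rel k s τ p' ≤
            ∑ s : D, ∑ τ : Tr D L k, ∑ p : L, ∑ p' : L,
              ev bar Rel k s τ p / ev bar Rel k s τ p' :=
          single_le_sum (f := fun s => ∑ τ : Tr D L k, ∑ p : L, ∑ p' : L,
              ev bar Rel k s τ p / ev bar Rel k s τ p')
            (fun s _ => sum_nonneg fun τ _ => sum_nonneg fun p _ => sum_nonneg fun p' _ =>
              hnn s τ p p') (mem_univ s)
        have : C = (∑ s : D, ∑ τ : Tr D L k, ∑ p : L, ∑ p' : L,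
          ev bar Rel k s τ p / ev bar Rel k s τ p') + 1 := rfl
        linarith
      calc ev bar Rel k s τ p = ev bar Rel k s τ p / ev bar Rel k s τ p' * ev bar Rel k s τ p' := by
            field_simp
        _ ≤ C * ev bar Rel k s τ p' := mul_le_mul_of_nonneg_right h1 h.le
    · have h1 : ev bar Rel k s τ p = 0 := by
        rcases (ev_nonneg bar Rel k s τ p).lt_or_eq with h2 | h2
        · have := hk s τ p p' h2
          rw [← h] at this
          exact absurd this (lt_irrefl _)
        · exact h2.symm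
      rw [h1, ← h, mul_zero]
  refine ⟨C, hC, ?_⟩
  intro M hM0 ε hε lam hlam hM s p p'
  obtain ⟨c, hc0, hc⟩ := expand bar Rel M hM0 ε hε lam hlam hM k
  rw [hc s p, hc s p', mul_sum]
  refine sum_le_sum fun τ _ => ?_
  calc c s τ * ev bar Rel k s τ p ≤ c s τ * (C * ev bar Rel k s τ p') :=
        mul_le_mul_of_nonneg_left (hev s τ p p') (hc0 s τ)
    _ = C * (c s τ * ev bar Rel k s τ p') := by ring

theorem continuous_step (s : D) (p : L) :
    Continuous (fun f : D → L → ℝ => step bar Rel s f p) := by
  classical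
  unfold step
  refine continuous_finsetSum _ fun q _ => ?_
  split_ifs
  · refine continuous_finsetProd _ fun t _ => ?_
    exact (continuous_apply q).comp (continuous_apply t)
  · exact continuous_const

/-- perturbed fixed points, from Brouwer. -/
theorem exists_eps [Nonempty L] (ε : ℝ) (hε : 0 < ε) :
    ∃ (M : D → L → ℝ), (∀ s p, 0 ≤ M s p) ∧ (∀ s, ∑ p, M s p = 1) ∧
      ∀ s p, M s p = (step bar Rel s M p + ε) / (∑ p', (step bar Rel s M p' + ε)) := by
  classical
  let ab : (D → L → ℝ) → (D → L → ℝ) := fun f t q => |f t q|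
  have hab : Continuous ab := by
    refine continuous_pi fun t => continuous_pi fun q => ?_
    exact continuous_abs.comp ((continuous_apply q).comp (continuous_apply t))
  have hst : ∀ (f : D → L → ℝ) s p, 0 ≤ step bar Rel s (ab f) p := fun f s p =>
    step_nonneg bar Rel s _ (fun t q => abs_nonneg _) p
  have hden : ∀ (f : D → L → ℝ) s, 0 < ∑ p', (step bar Rel s (ab f) p' + ε) := by
    intro f s
    refine sum_pos (fun p' _ => ?_) univ_nonempty
    have := hst f s p'
    linarith
  let F : (D → L → ℝ) → (D → L → ℝ) := fun f s p =>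
    (step bar Rel s (ab f) p + ε) / (∑ p', (step bar Rel s (ab f) p' + ε))
  have hF : Continuous F := by
    refine continuous_pi fun s => continuous_pi fun p => ?_
    refine Continuous.div ?_ ?_ (fun f => (hden f s).ne')
    · exact ((continuous_step bar Rel s p).comp hab).add continuous_const
    · exact continuous_finsetSum _ fun p' _ =>
        ((continuous_step bar Rel s p').comp hab).add continuous_const
  have hF0 : ∀ f s p, 0 ≤ F f s p := by
    intro f s p
    refine div_nonneg ?_ (hden f s).le
    have := hst f s p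
    linarith
  have hFs : ∀ f s, ∑ p, F f s p = 1 := by
    intro f s
    show ∑ p, (step bar Rel s (ab f) p + ε) / (∑ p', (step bar Rel s (ab f) p' + ε)) = 1
    rw [← sum_div]
    exact div_self (hden f s).ne'
  have hF1 : ∀ f s p, F f s p ≤ 1 := by
    intro f s p
    rw [← hFs f s]
    exact single_le_sum (f := fun p => F f s p) (fun p _ => hF0 f s p) (mem_univ p)
  obtain ⟨M, hM⟩ := Pool.Agent.Helper31.GZ.Brouwer.brouwer F hF 1 (by
    intro f
    refine (pi_norm_le_iff_of_nonneg zero_le_one).2 fun s => ?_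
    refine (pi_norm_le_iff_of_nonneg zero_le_one).2 fun p => ?_
    rw [Real.norm_eq_abs, abs_of_nonneg (hF0 f s p)]
    exact hF1 f s p)
  have hM0 : ∀ s p, 0 ≤ M s p := by
    intro s p
    rw [← hM]
    exact hF0 M s p
  have habM : ab M = M := by
    funext s p
    exact abs_of_nonneg (hM0 s p)
  refine ⟨M, hM0, fun s => ?_, fun s p => ?_⟩
  · rw [← hFs M s]
    refine sum_congr rfl fun p _ => ?_
    rw [hM]
  · have h1 : F M s p = M s p := congrFun (congrFun hM s) p
    rw [← h1]
    show (step bar Rel s (ab M) p + ε) / (∑ p', (step bar Rel s (ab M) p' + ε)) = _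
    rw [habM]

/-- a positive projective fixed point. -/
theorem exists_fixed [Nonempty L] (k : ℕ)
    (hk : ∀ (s : D) (τ : Tr D L k) (p p' : L), 0 < ev bar Rel k s τ p → 0 < ev bar Rel k s τ p') :
    ∃ M : D → L → ℝ, (∀ s p, 0 < M s p) ∧
      ∀ s p, M s p * (∑ p', step bar Rel s M p') = step bar Rel s M p := by
  classical
  obtain ⟨C, hC, hbound⟩ := ratio_bound bar Rel k hk
  have hex : ∀ n : ℕ, ∃ (M : D → L → ℝ), (∀ s p, 0 ≤ M s p) ∧ (∀ s, ∑ p, M s p = 1) ∧
      ∀ s p, M s p = (step bar Rel s M p + 1 / ((n : ℝ) + 1)) /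
        (∑ p', (step bar Rel s M p' + 1 / ((n : ℝ) + 1))) := fun n =>
    exists_eps bar Rel _ Nat.one_div_pos_of_nat
  choose Mn hMn0 hMn1 hMn using hex
  have hden : ∀ n s, 0 < ∑ p', (step bar Rel s (Mn n) p' + 1 / ((n : ℝ) + 1)) := by
    intro n s
    refine sum_pos (fun p' _ => ?_) univ_nonempty
    have h1 := step_nonneg bar Rel s (Mn n) (hMn0 n) p'
    have h2 : (0 : ℝ) < 1 / ((n : ℝ) + 1) := Nat.one_div_pos_of_nat
    linarith
  have hr : ∀ n s p p', Mn n s p ≤ C * Mn n s p' := fun n =>
    hbound (Mn n) (hMn0 n) _ (Nat.one_div_pos_of_nat.le) _ (hden n) (hMn n)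
  have hle1 : ∀ n s p, Mn n s p ≤ 1 := by
    intro n s p
    rw [← hMn1 n s]
    exact single_le_sum (f := fun p => Mn n s p) (fun p _ => hMn0 n s p) (mem_univ p)
  have hcomp : IsCompact (Set.pi Set.univ (fun _ : D => Set.pi Set.univ
      (fun _ : L => Set.Icc (0 : ℝ) 1))) :=
    isCompact_univ_pi (fun _ => isCompact_univ_pi (fun _ => isCompact_Icc))
  obtain ⟨M, -, φ, hφ, hlim⟩ := hcomp.tendsto_subseq (x := Mn) (by
    intro n s _ p _
    exact ⟨hMn0 n s p, hle1 n s p⟩)
  have hlimp : ∀ s p, Tendsto (fun n => Mn (φ n) s p) atTop (𝓝 (M s p)) := by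
    intro s p
    have h1 := (tendsto_pi_nhds.1 hlim) s
    exact (tendsto_pi_nhds.1 h1) p
  have hM0 : ∀ s p, 0 ≤ M s p := fun s p =>
    ge_of_tendsto' (hlimp s p) (fun n => hMn0 _ s p)
  have hMs : ∀ s, ∑ p, M s p = 1 := by
    intro s
    have h1 : Tendsto (fun n => ∑ p, Mn (φ n) s p) atTop (𝓝 (∑ p, M s p)) :=
      tendsto_finsetSum _ fun p _ => hlimp s p
    have h2 : (fun n => ∑ p, Mn (φ n) s p) = fun _ => (1 : ℝ) := by
      funext n; exact hMn1 _ s
    rw [h2] at h1
    exact (tendsto_nhds_unique h1 tendsto_const_nhds)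
  have hMr : ∀ s p p', M s p ≤ C * M s p' := fun s p p' =>
    le_of_tendsto_of_tendsto' (hlimp s p) ((hlimp s p').const_mul C) (fun n => hr _ s p p')
  have hMpos : ∀ s p, 0 < M s p := by
    intro s p
    rcases (hM0 s p).lt_or_eq with h | h
    · exact h
    · exfalso
      have h1 : ∀ p', M s p' = 0 := by
        intro p'
        refine le_antisymm ?_ (hM0 s p')
        have := hMr s p' p
        rw [← h, mul_zero] at this
        exact this
      have h2 := hMs s
      rw [sum_congr rfl (fun p' _ => h1 p'), sum_const_zero] at h2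
      exact zero_ne_one h2
  have hstep : ∀ s p, Tendsto (fun n => step bar Rel s (Mn (φ n)) p) atTop
      (𝓝 (step bar Rel s M p)) := fun s p =>
    ((continuous_step bar Rel s p).tendsto M).comp hlim
  have heps : Tendsto (fun n => 1 / (((φ n : ℕ) : ℝ) + 1)) atTop (𝓝 0) :=
    tendsto_one_div_add_atTop_nhds_zero_nat.comp hφ.tendsto_atTop
  refine ⟨M, hMpos, fun s p => ?_⟩
  have hL : Tendsto (fun n => Mn (φ n) s p * (∑ p', (step bar Rel s (Mn (φ n)) p' +
      1 / (((φ n : ℕ) : ℝ) + 1)))) atTop (𝓝 (M s p * (∑ p', (step bar Rel s M p' + 0)))) :=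
    (hlimp s p).mul (tendsto_finsetSum _ fun p' _ => (hstep s p').add heps)
  have hR : Tendsto (fun n => step bar Rel s (Mn (φ n)) p + 1 / (((φ n : ℕ) : ℝ) + 1)) atTop
      (𝓝 (step bar Rel s M p + 0)) := (hstep s p).add heps
  have heq : (fun n => Mn (φ n) s p * (∑ p', (step bar Rel s (Mn (φ n)) p' +
      1 / (((φ n : ℕ) : ℝ) + 1)))) =
      (fun n => step bar Rel s (Mn (φ n)) p + 1 / (((φ n : ℕ) : ℝ) + 1)) := by
    funext n
    have h1 := hMn (φ n) s p
    have h2 := hden (φ n) s
    rw [eq_div_iff h2.ne'] at h1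
    exact h1
  rw [heq] at hL
  have := tendsto_nhds_unique hL hR
  simpa using this

/-- invariant couplings. -/
theorem exists_coupling [Nonempty L] (hbar : ∀ t, bar (bar t) = t)
    (hsym : ∀ s p q, Rel s p q → Rel (bar s) q p) (hout : ∀ s p, ∃ q, Rel s p q) (k : ℕ)
    (hk : ∀ (s : D) (τ : Tr D L k) (p p' : L), 0 < ev bar Rel k s τ p → 0 < ev bar Rel k s τ p') :
    ∃ (W : L → ℝ) (N : D → L → L → ℝ), (∀ p, 0 < W p) ∧ (∀ s p q, 0 ≤ N s p q) ∧
      (∀ s p q, 0 < N s p q → Rel s p q) ∧
      (∀ s p, ∑ q, N s p q = W p) ∧ (∀ s q, ∑ p, N s p q = W q) := by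
  classical
  obtain ⟨M, hM, hfix⟩ := exists_fixed bar Rel k hk
  have hsymm : ∀ s p q, Rel s p q ↔ Rel (bar s) q p := by
    intro s p q
    constructor
    · exact hsym s p q
    · intro h
      have := hsym _ _ _ h
      rwa [hbar] at this
  have hstep : ∀ s p, 0 < step bar Rel s M p := by
    intro s p
    unfold step
    obtain ⟨q, hq⟩ := hout s p
    refine sum_pos' (fun q _ => ?_) ⟨q, mem_univ q, ?_⟩
    · split_ifs
      · exact prod_nonneg fun t _ => (hM t q).le
      · exact le_rfl
    · rw [if_pos hq]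
      exact prod_pos fun t _ => hM t q
  let lam : D → ℝ := fun s => ∑ p', step bar Rel s M p'
  have hlam : ∀ s, 0 < lam s := fun s => sum_pos (fun p _ => hstep s p) univ_nonempty
  have hfix' : ∀ s p, step bar Rel s M p = M s p * lam s := fun s p => (hfix s p).symm
  let W : L → ℝ := fun p => ∏ t, M t p
  let Q : D → L → L → ℝ := fun s p q =>
    if Rel s p q then (∏ t ∈ univ.erase s, M t p) * (∏ t ∈ univ.erase (bar s), M t q) else 0
  have hrow : ∀ s p, ∑ q, Q s p q = W p * lam s := by
    intro s p
    have h1 : ∑ q, Q s p q = (∏ t ∈ univ.erase s, M t p) * step bar Rel s M p := by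
      unfold step
      rw [mul_sum]
      refine sum_congr rfl fun q _ => ?_
      show (if Rel s p q then (∏ t ∈ univ.erase s, M t p) * (∏ t ∈ univ.erase (bar s), M t q)
        else 0) = _
      split_ifs
      · rfl
      · rw [mul_zero]
    rw [h1, hfix']
    show _ = (∏ t, M t p) * lam s
    rw [← mul_prod_erase univ (fun t => M t p) (mem_univ s)]
    ring
  have hQsym : ∀ s p q, Q s p q = Q (bar s) q p := by
    intro s p q
    show (if Rel s p q then (∏ t ∈ univ.erase s, M t p) * (∏ t ∈ univ.erase (bar s), M t q)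
      else 0) = (if Rel (bar s) q p then (∏ t ∈ univ.erase (bar s), M t q) *
        (∏ t ∈ univ.erase (bar (bar s)), M t p) else 0)
    rw [hbar]
    by_cases h : Rel s p q
    · rw [if_pos h, if_pos ((hsymm s p q).1 h), mul_comm]
    · rw [if_neg h, if_neg (fun h' => h ((hsymm s p q).2 h'))]
  have hcol : ∀ s q, ∑ p, Q s p q = W q * lam (bar s) := by
    intro s q
    rw [← hrow (bar s) q]
    exact sum_congr rfl fun p _ => hQsym s p q
  have hWpos : ∀ p, 0 < W p := fun p => prod_pos fun t _ => hM t p
  have hlameq : ∀ s, lam s = lam (bar s) := by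
    intro s
    have h1 : (∑ p, W p) * lam s = (∑ p, W p) * lam (bar s) := by
      rw [sum_mul, sum_mul, ← sum_congr rfl (fun p _ => hrow s p),
        ← sum_congr rfl (fun p _ => hcol s p), sum_comm]
    have h2 : 0 < ∑ p, W p := sum_pos (fun p _ => hWpos p) univ_nonempty
    exact mul_left_cancel₀ h2.ne' h1
  refine ⟨W, fun s p q => Q s p q / lam s, hWpos, ?_, ?_, ?_, ?_⟩
  · intro s p q
    refine div_nonneg ?_ (hlam s).le
    show 0 ≤ (if Rel s p q then _ else _)
    split_ifs
    · exact mul_nonneg (prod_nonneg fun t _ => (hM t p).le) (prod_nonneg fun t _ => (hM t q).le)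
    · exact le_rfl
  · intro s p q h
    by_contra hn
    have h0 : Q s p q = 0 := if_neg hn
    simp only [h0, zero_div, lt_self_iff_false] at h
  · intro s p
    show ∑ q, Q s p q / lam s = W p
    rw [← sum_div, hrow]
    exact mul_div_cancel_right₀ _ (hlam s).ne'
  · intro s q
    show ∑ p, Q s p q / lam s = W q
    rw [← sum_div, hcol, ← hlameq]
    exact mul_div_cancel_right₀ _ (hlam s).ne'

end Msg

end Pool.Agent.TH88.SI
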