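import Mathlib
import Pool.Agent.TH88.SI.Flow
import Pool.Agent.TH88.SI.Branch
import Pool.Agent.TH88.SI.Msg

/-!
# Periodic points of strongly irreducible subshifts of finite type over free groups of finite rank
-/

set_option autoImplicit false
set_option linter.unusedSectionVars false

namespace Pool.Agent.TH88.SI

open FreeGroup

/-- the shift `x ↦ x(· g)`. -/
def sh {G A : Type} [Group G] (g : G) (x : G → A) : G → A := fun h => x (h * g)

theorem sh_sh {G A : Type} [Group G] (g g' : G) (x : G → A) : sh g (sh g' x) = sh (g * g') x := by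
  funext h
  simp [sh, mul_assoc]

theorem sh_one {G A : Type} [Group G] (x : G → A) : sh 1 x = x := by
  funext h
  simp [sh]

/-- `X` is invariant and determined by the patterns on `E`. -/
def LocOn {G A : Type} [Group G] (E : Set G) (X : Set (G → A)) : Prop :=
  (∀ x ∈ X, ∀ g, sh g x ∈ X) ∧
    ∀ x : G → A, (∀ g, ∃ x' ∈ X, ∀ h ∈ E, x' h = x (h * g)) → x ∈ X

/-- strong irreducibility. -/
def SIrr {G A : Type} [Group G] (X : Set (G → A)) : Prop :=
  ∃ Δ : Set G, Δ.Finite ∧ ∀ Ω₁ Ω₂ : Set G, Ω₁.Finite → Ω₂.Finite →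
    (∀ d ∈ Δ, ∀ w ∈ Ω₁, d * w ∉ Ω₂) →
      ∀ x₁ ∈ X, ∀ x₂ ∈ X, ∃ z ∈ X, (∀ w ∈ Ω₁, z w = x₁ w) ∧ (∀ w ∈ Ω₂, z w = x₂ w)

section Free

variable {α : Type} [DecidableEq α] {A : Type}

/-- the ball. -/
abbrev Bl (α : Type) [DecidableEq α] (R : ℕ) : Type := {h : FreeGroup α // h.norm ≤ R}

instance (α : Type) [DecidableEq α] [Finite α] (R : ℕ) : Finite (Bl α R) :=
  (finite_ball (α := α) R)

/-- the pattern at the origin. -/
def pat (R : ℕ) (x : FreeGroup α → A) : Bl α R → A := fun h => x h.1

/-- the labels: patterns of `X`. -/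
def Lb (R : ℕ) (X : Set (FreeGroup α → A)) : Type := {p : Bl α R → A // ∃ x ∈ X, pat R x = p}

/-- the label of a point of `X`. -/
def lb (R : ℕ) (X : Set (FreeGroup α → A)) (x : FreeGroup α → A) (hx : x ∈ X) : Lb R X :=
  ⟨pat R x, x, hx, rfl⟩

/-- compatibility of labels in direction `s`. -/
def Rl (R : ℕ) (X : Set (FreeGroup α → A)) (s : α × Bool) (p q : Lb R X) : Prop :=
  ∃ x ∈ X, pat R x = p.1 ∧ pat R (sh (lt s) x) = q.1

open Classical in
/-- gluing of branches. -/
noncomputable def glue (x0 : FreeGroup α → A) (z : α × Bool → FreeGroup α → A) :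
    FreeGroup α → A := fun h =>
  match h.toWord.getLast? with
  | none => x0 h
  | some t => z t h

theorem glue_one (x0 : FreeGroup α → A) (z : α × Bool → FreeGroup α → A) :
    glue x0 z 1 = x0 1 := by
  unfold glue
  simp

theorem glue_ends (x0 : FreeGroup α → A) (z : α × Bool → FreeGroup α → A) {t : α × Bool}
    {h : FreeGroup α} (ht : Ends t h) : glue x0 z h = z t h := by
  unfold glue
  unfold Ends at ht
  rw [ht]

theorem glue_ball {R : ℕ} (x0 : FreeGroup α → A) (z : α × Bool → FreeGroup α → A)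
    (hz : ∀ t h, h.norm ≤ R → z t h = x0 h) {h : FreeGroup α} (hh : h.norm ≤ R) :
    glue x0 z h = x0 h := by
  by_cases h1 : h = 1
  · rw [h1, glue_one]
  · obtain ⟨t, ht⟩ := exists_ends h1
    rw [glue_ends x0 z ht, hz t h hh]

theorem glue_mem {R : ℕ} {X : Set (FreeGroup α → A)} (hX : LocOn {h | h.norm ≤ R} X)
    (x0 : FreeGroup α → A) (z : α × Bool → FreeGroup α → A) (hx0 : x0 ∈ X) (hzX : ∀ t, z t ∈ X)
    (hz : ∀ t h, h.norm ≤ R → z t h = x0 h) : glue x0 z ∈ X := by
  refine hX.2 _ fun g => ?_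
  by_cases hg : g = 1
  · subst hg
    refine ⟨x0, hx0, fun h hh => ?_⟩
    rw [mul_one, glue_ball x0 z hz hh]
  · obtain ⟨t, ht⟩ := exists_ends hg
    refine ⟨sh g (z t), hX.1 _ (hzX t) g, fun h hh => ?_⟩
    show z t (h * g) = _
    rcases ends_mul ht h with h1 | h1
    · rw [glue_ends x0 z h1]
    · have h2 : (h * g).norm ≤ R := h1.trans hh
      rw [glue_ball x0 z hz h2, hz t _ h2]

/-- `x` (centred at the root) satisfies the truncated boundary condition `τ` in direction `s`. -/
def Mt (R : ℕ) (X : Set (FreeGroup α → A)) :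
    (j : ℕ) → α × Bool → Tr (α × Bool) (Lb R X) j → (FreeGroup α → A) → Prop
  | 0, _, q, x => pat R x = (show Lb R X from q).1
  | (_ + 1), _, none, _ => True
  | (j + 1), s, some φ, x => ∀ t, t ≠ bar s → Mt R X j t (φ t) (sh (lt s) x)

theorem agree_sh {R : ℕ} {t u : α × Bool} (hu : u ≠ bar t) (x x' : FreeGroup α → A)
    (hag : ∀ h, (Ends t h ∨ h.norm ≤ R) → x h = x' h) :
    ∀ h, (Ends u h ∨ h.norm ≤ R) → sh (lt t) x h = sh (lt t) x' h := by
  intro h hh
  show x (h * lt t) = x' (h * lt t)
  apply hag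
  by_cases h1 : Ends (bar t) h
  · right
    rcases hh with hh | hh
    · exact absurd (ends_unique hh h1) hu
    · exact (norm_mul_lt_le h1).trans hh
  · left
    exact ends_mul_lt h1

theorem Mt_loc (R : ℕ) (X : Set (FreeGroup α → A)) :
    ∀ (j : ℕ) (t : α × Bool) (τ : Tr (α × Bool) (Lb R X) j) (x x' : FreeGroup α → A),
      (∀ h, (Ends t h ∨ h.norm ≤ R) → x h = x' h) → Mt R X j t τ x → Mt R X j t τ x'
  | 0, t, τ, x, x', hag, hm => by
      show pat R x' = (show Lb R X from τ).1
      have h1 : pat R x = (show Lb R X from τ).1 := hm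
      rw [← h1]
      funext h
      exact (hag h.1 (Or.inr h.2)).symm
  | (j + 1), t, none, x, x', hag, hm => trivial
  | (j + 1), t, some φ, x, x', hag, hm => by
      intro u hu
      exact Mt_loc R X j u (φ u) _ _ (agree_sh hu x x' hag) (hm u hu)

theorem Mt_far (R : ℕ) (X : Set (FreeGroup α → A)) :
    ∀ (j : ℕ) (t : α × Bool) (τ : Tr (α × Bool) (Lb R X) j) (x x' : FreeGroup α → A),
      (∀ d e : FreeGroup α, d.norm ≤ R → e.norm = j → (e = 1 ∨ Ends t e) → x (d * e) = x' (d * e)) →
        Mt R X j t τ x → Mt R X j t τ x'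
  | 0, t, τ, x, x', hag, hm => by
      show pat R x' = (show Lb R X from τ).1
      have h1 : pat R x = (show Lb R X from τ).1 := hm
      rw [← h1]
      funext h
      have := hag h.1 1 h.2 FreeGroup.norm_one (Or.inl rfl)
      rw [mul_one] at this
      exact this.symm
  | (j + 1), t, none, x, x', hag, hm => trivial
  | (j + 1), t, some φ, x, x', hag, hm => by
      intro u hu
      refine Mt_far R X j u (φ u) _ _ ?_ (hm u hu)
      intro d e hd he hue
      show x (d * e * lt t) = x' (d * e * lt t)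
      have hn : ¬ Ends (bar t) e := by
        intro h
        rcases hue with h1 | h1
        · rw [h1] at h
          exact not_ends_one _ h
        · exact hu (ends_unique h1 h)
      rw [mul_assoc]
      exact hag d (e * lt t) hd (by rw [norm_mul_lt hn, he]) (Or.inr (ends_mul_lt hn))

variable [Fintype α] (R : ℕ) (X : Set (FreeGroup α → A)) [Fintype (Lb R X)]

theorem ev_pos_of_Mt (hinv : ∀ x ∈ X, ∀ g, sh g x ∈ X) :
    ∀ (j : ℕ) (s : α × Bool) (τ : Tr (α × Bool) (Lb R X) j) (x : FreeGroup α → A) (hx : x ∈ X),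
      Mt R X j s τ x → 0 < ev bar (Rl R X) j s τ (lb R X x hx)
  | 0, s, τ, x, hx, hm => by
      have h1 : lb R X x hx = (show Lb R X from τ) := Subtype.ext hm
      have h2 : ev bar (Rl R X) 0 s τ (lb R X x hx) = 1 := if_pos h1
      rw [h2]
      exact one_pos
  | (j + 1), s, none, x, hx, hm => one_pos
  | (j + 1), s, some φ, x, hx, hm => by
      show 0 < step bar (Rl R X) s (fun t => ev bar (Rl R X) j t (φ t)) (lb R X x hx)
      unfold step
      refine Finset.sum_pos' (fun q _ => ?_)
        ⟨lb R X (sh (lt s) x) (hinv x hx _), Finset.mem_univ _, ?_⟩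
      · split_ifs
        · exact Finset.prod_nonneg fun t _ => ev_nonneg bar (Rl R X) j t (φ t) q
        · exact le_rfl
      · rw [if_pos ⟨x, hx, rfl, rfl⟩]
        refine Finset.prod_pos fun t ht => ?_
        exact ev_pos_of_Mt hinv j t (φ t) _ _ (hm t (Finset.ne_of_mem_erase ht))

theorem Mt_of_ev_pos (hX : LocOn {h | h.norm ≤ R} X) :
    ∀ (j : ℕ) (s : α × Bool) (τ : Tr (α × Bool) (Lb R X) j) (p : Lb R X),
      0 < ev bar (Rl R X) j s τ p → ∃ x ∈ X, pat R x = p.1 ∧ Mt R X j s τ x
  | 0, s, τ, p, h => by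
      obtain ⟨x, hx, hxp⟩ := p.2
      refine ⟨x, hx, hxp, ?_⟩
      show pat R x = (show Lb R X from τ).1
      by_cases hp : p = (show Lb R X from τ)
      · rw [hxp, hp]
      · have h2 : ev bar (Rl R X) 0 s τ p = 0 := if_neg hp
        rw [h2] at h
        exact absurd h (lt_irrefl _)
  | (j + 1), s, none, p, h => by
      obtain ⟨x, hx, hxp⟩ := p.2
      exact ⟨x, hx, hxp, trivial⟩
  | (j + 1), s, some φ, p, h => by
      have h' : 0 < step bar (Rl R X) s (fun t => ev bar (Rl R X) j t (φ t)) p := h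
      unfold step at h'
      obtain ⟨q, -, hq⟩ := Finset.exists_ne_zero_of_sum_ne_zero h'.ne'
      by_cases hr : Rl R X s p q
      · rw [if_pos hr] at hq
        have hpos : ∀ t, t ≠ bar s → 0 < ev bar (Rl R X) j t (φ t) q := by
          intro t ht
          rcases (ev_nonneg bar (Rl R X) j t (φ t) q).lt_or_eq with h1 | h1
          · exact h1
          · exfalso
            exact hq (Finset.prod_eq_zero (Finset.mem_erase.2 ⟨ht, Finset.mem_univ t⟩) h1.symm)
        obtain ⟨x0, hx0, hp0, hq0⟩ := hr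
        have hex : ∀ t, ∃ z ∈ X, pat R z = q.1 ∧ (t ≠ bar s → Mt R X j t (φ t) z) ∧
            (t = bar s → z = sh (lt s) x0) := by
          intro t
          by_cases ht : t = bar s
          · exact ⟨sh (lt s) x0, hX.1 _ hx0 _, hq0, fun h => absurd ht h, fun _ => rfl⟩
          · obtain ⟨z, hz, hz1, hz2⟩ := Mt_of_ev_pos hX j t (φ t) q (hpos t ht)
            exact ⟨z, hz, hz1, fun _ => hz2, fun h => absurd h ht⟩
        choose z hzX hzq hzM hzs using hex
        have hzag : ∀ t h, h.norm ≤ R → z t h = sh (lt s) x0 h := by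
          intro t h hh
          have h1 : pat R (z t) = pat R (sh (lt s) x0) := by rw [hzq t, hq0]
          exact congrFun h1 ⟨h, hh⟩
        have hy' := glue_mem hX (sh (lt s) x0) z (hX.1 _ hx0 _) hzX hzag
        set y' := glue (sh (lt s) x0) z with hy'def
        refine ⟨sh (lt (bar s)) y', hX.1 _ hy' _, ?_, ?_⟩
        · rw [← hp0]
          funext h
          show y' (h.1 * lt (bar s)) = x0 h.1
          have h3 : y' (h.1 * lt (bar s)) = sh (lt s) x0 (h.1 * lt (bar s)) := by
            by_cases h1 : Ends s h.1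
            · have h2 : (h.1 * lt (bar s)).norm ≤ R := by
                refine (norm_mul_lt_le ?_).trans h.2
                rw [bar_bar]
                exact h1
              exact glue_ball _ _ hzag h2
            · have h2 : Ends (bar s) (h.1 * lt (bar s)) := by
                apply ends_mul_lt
                rw [bar_bar]
                exact h1
              rw [hy'def, glue_ends _ _ h2, hzs (bar s) rfl]
          rw [h3]
          show x0 (h.1 * lt (bar s) * lt s) = x0 h.1
          rw [mul_assoc, lt_bar_mul, mul_one]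
        · intro t ht
          rw [sh_sh, lt_mul_bar, sh_one]
          refine Mt_loc R X j t (φ t) (z t) y' ?_ (hzM t ht)
          intro h hh
          rcases hh with hh | hh
          · rw [hy'def, glue_ends _ _ hh]
          · rw [hzag t h hh, hy'def, glue_ball _ _ hzag hh]
      · rw [if_neg hr] at hq
        exact absurd rfl hq

/-- boundary conditions far away do not see the label of the root. -/
theorem hk_of_SIrr (hX : LocOn {h | h.norm ≤ R} X) (hSI : SIrr X) :
    ∃ k : ℕ, ∀ (s : α × Bool) (τ : Tr (α × Bool) (Lb R X) k) (p p' : Lb R X),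
      0 < ev bar (Rl R X) k s τ p → 0 < ev bar (Rl R X) k s τ p' := by
  obtain ⟨Δ, hΔ, hsi⟩ := hSI
  obtain ⟨m, hm⟩ : ∃ m : ℕ, ∀ d ∈ Δ, d.norm ≤ m := by
    obtain ⟨m, hm⟩ := (hΔ.image FreeGroup.norm).bddAbove
    exact ⟨m, fun d hd => hm ⟨d, hd, rfl⟩⟩
  refine ⟨m + 2 * R + 1, ?_⟩
  intro s τ p p' hp
  obtain ⟨x, hx, -, hxM⟩ := Mt_of_ev_pos R X hX _ s τ p hp
  obtain ⟨x', hx', hxp'⟩ := p'.2
  obtain ⟨z, hz, hz1, hz2⟩ := hsi {h | h.norm ≤ R}
    {h | m + 2 * R + 1 ≤ h.norm + R ∧ h.norm ≤ R + (m + 2 * R + 1)} (finite_ball R)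
    ((finite_ball (α := α) (R + (m + 2 * R + 1))).subset (fun h hh => hh.2)) (by
      intro d hd w hw hdw
      have h1 : (d * w).norm ≤ d.norm + w.norm := norm_mul_le d w
      have h2 := hm d hd
      have h3 : w.norm ≤ R := hw
      have h4 : m + 2 * R + 1 ≤ (d * w).norm + R := hdw.1
      omega) x' hx' x hx
  have hzM : Mt R X (m + 2 * R + 1) s τ z := by
    refine Mt_far R X _ s τ x z ?_ hxM
    intro d e hd he _
    symm
    apply hz2
    constructor
    · have h1 : e.norm ≤ d.norm + (d * e).norm := by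
        have := norm_mul_le d⁻¹ (d * e)
        rw [inv_mul_cancel_left, FreeGroup.norm_inv_eq] at this
        exact this
      omega
    · have := norm_mul_le d e
      omega
  have h := ev_pos_of_Mt R X hX.1 _ s τ z hz hzM
  have hlab : lb R X z hz = p' := by
    apply Subtype.ext
    show pat R z = p'.1
    rw [← hxp']
    funext h
    exact hz1 h.1 h.2
  rwa [hlab] at h

end Free

/-- density of periodic points, free group of finite rank, `X` determined by a ball. -/
theorem free_ball {α : Type} [DecidableEq α] [Finite α] {A : Type} [Finite A] (R : ℕ)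
    (X : Set (FreeGroup α → A)) (hX : LocOn {h | h.norm ≤ R} X) (hSI : SIrr X)
    (x : FreeGroup α → A) (hx : x ∈ X) :
    ∃ y ∈ X, (Set.range (fun g => sh g y)).Finite ∧ ∀ h : FreeGroup α, h.norm ≤ R → y h = x h := by
  classical
  have : Fintype α := Fintype.ofFinite α
  have : Finite (Lb R X) :=
    inferInstanceAs (Finite {p : Bl α R → A // ∃ x ∈ X, pat R x = p})
  have : Fintype (Lb R X) := Fintype.ofFinite _
  have : Nonempty (Lb R X) := ⟨lb R X x hx⟩
  obtain ⟨k, hk⟩ := hk_of_SIrr R X hX hSI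
  obtain ⟨W, N, hW, hN, hNR, hrow, hcol⟩ := exists_coupling (L := Lb R X) bar (Rl R X) bar_bar (by
      rintro s p q ⟨z, hz, h1, h2⟩
      refine ⟨sh (lt s) z, hX.1 _ hz _, h2, ?_⟩
      rw [sh_sh, lt_bar_mul, sh_one]
      exact h1) (by
      intro s p
      obtain ⟨z, hz, hzp⟩ := p.2
      exact ⟨lb R X (sh (lt s) z) (hX.1 _ hz _), z, hz, hzp, rfl⟩) k hk
  obtain ⟨V, hV, lab, σ, hsurj, hσ⟩ := model_of_flow W (fun a : α => N (a, true))
    (fun p => (hW p).le) (fun a p q => hN _ p q) ⟨lb R X x hx, hW _⟩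
    (fun a p => hrow _ p) (fun a q => hcol _ q)
  let ρ : FreeGroup α →* Equiv.Perm V := FreeGroup.lift σ
  have hρt : ∀ a, ρ (lt (a, true)) = σ a := by
    intro a
    show FreeGroup.lift σ (FreeGroup.mk [(a, true)]) = σ a
    simp
  have hρ : ∀ t v, Rl R X t (lab v) (lab (ρ (lt t) v)) := by
    rintro ⟨a, b⟩ v
    rcases b with _ | _
    · have e1 : lt (a, false) = (lt (a, true))⁻¹ := by
        rw [← lt_bar]; rfl
      rw [e1, _root_.map_inv, hρt]
      have h1 := hNR _ _ _ (hσ a ((σ a)⁻¹ v))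
      have e2 : (σ a) ((σ a)⁻¹ v) = v := (σ a).apply_symm_apply v
      rw [e2] at h1
      obtain ⟨z, hz, h2, h3⟩ := h1
      refine ⟨sh (lt (a, true)) z, hX.1 _ hz _, h3, ?_⟩
      rw [sh_sh, e1, inv_mul_cancel, sh_one]
      exact h2
    · rw [hρt]
      exact hNR _ _ _ (hσ a v)
  have key : ∀ (n : ℕ) (h : FreeGroup α) (hn : h.norm = n) (hR : h.norm ≤ R) (v : V),
      (lab v).1 ⟨h, hR⟩ = (lab (ρ h v)).1 ⟨1, by rw [FreeGroup.norm_one]; exact Nat.zero_le _⟩ := by
    intro n
    induction n with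
    | zero =>
      intro h hn hR v
      have h1 : h = 1 := FreeGroup.norm_eq_zero.1 hn
      subst h1
      simp
    | succ n ih =>
      intro h hn hR v
      have hne : h ≠ 1 := by
        intro h1
        rw [h1, FreeGroup.norm_one] at hn
        omega
      obtain ⟨t, ht⟩ := exists_ends hne
      -- h = h' * lt t
      set h' := h * lt (bar t) with hh'
      have e1 : h' * lt t = h := by
        rw [hh', mul_assoc, lt_bar_mul, mul_one]
      have hn' : ¬ Ends (bar t) h' := by
        intro h1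
        have h2 := norm_mul_lt_le h1
        rw [e1] at h2
        have h3 : h'.norm ≤ h.norm := by
          rw [hh']
          apply norm_mul_lt_le
          rw [bar_bar]
          exact ht
        -- the word of h is the word of h' followed by t
        have h4 : h.toWord = h.toWord.dropLast ++ [t] := by
          have := List.dropLast_append_getLast? t ht
          exact this.symm
        have h5 : h' = FreeGroup.mk h.toWord.dropLast := by
          rw [hh']
          conv_lhs => rw [← mk_toWord (x := h), h4]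
          have : FreeGroup.mk (h.toWord.dropLast ++ [t]) = FreeGroup.mk h.toWord.dropLast * lt t := by
            rw [lt, FreeGroup.mul_mk]
          rw [this, mul_assoc, lt_mul_bar, mul_one]
        have h6 : h'.norm ≤ h.toWord.dropLast.length := by
          rw [h5]; exact norm_mk_le
        rw [List.length_dropLast] at h6
        have h7 : h.norm = h.toWord.length := rfl
        omega
      have hnorm : h'.norm + 1 = h.norm := by
        rw [← norm_mul_lt hn', e1]
      obtain ⟨z, hz, hz1, hz2⟩ := hρ t v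
      have hR' : h'.norm ≤ R := by omega
      have s1 : (lab v).1 ⟨h, hR⟩ = z h := by rw [← hz1]; rfl
      have s2 : (lab (ρ (lt t) v)).1 ⟨h', hR'⟩ = z h := by
        rw [← hz2]
        show z (h' * lt t) = z h
        rw [e1]
      rw [s1, ← s2, ih h' (by omega) hR' (ρ (lt t) v), ← Equiv.Perm.mul_apply, ← _root_.map_mul, e1]
  obtain ⟨v₀, hv₀⟩ := hsurj (lb R X x hx) (hW _)
  let y : FreeGroup α → A := fun g =>
    (lab (ρ g v₀)).1 ⟨1, by rw [FreeGroup.norm_one]; exact Nat.zero_le _⟩
  have hy : ∀ (g h : FreeGroup α) (hR : h.norm ≤ R), y (h * g) = (lab (ρ g v₀)).1 ⟨h, hR⟩ := by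
    intro g h hR
    rw [key _ h rfl hR (ρ g v₀), ← Equiv.Perm.mul_apply, ← _root_.map_mul]
  refine ⟨y, ?_, ?_, ?_⟩
  · refine hX.2 _ fun g => ?_
    obtain ⟨z, hz, hzp⟩ := (lab (ρ g v₀)).2
    refine ⟨z, hz, fun h hh => ?_⟩
    rw [hy g h hh, ← hzp]
    rfl
  · refine (Set.finite_range (fun v : V => fun h : FreeGroup α =>
      (lab (ρ h v)).1 ⟨1, by rw [FreeGroup.norm_one]; exact Nat.zero_le _⟩)).subset ?_
    rintro _ ⟨g, rfl⟩
    refine ⟨ρ g v₀, ?_⟩
    funext h
    show _ = y (h * g)
    show (lab (ρ h (ρ g v₀))).1 _ = (lab (ρ (h * g) v₀)).1 _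
    rw [_root_.map_mul, Equiv.Perm.mul_apply]
  · intro h hh
    have := hy 1 h hh
    rw [mul_one, _root_.map_one] at this
    rw [this]
    show (lab v₀).1 ⟨h, hh⟩ = x h
    rw [hv₀]
    rfl

end Pool.Agent.TH88.SI
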