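import Mathlib
import Pool.Agent.TH88.SI.FreeSI

/-!
# Passing from free groups of finite rank to virtually free groups
-/

set_option autoImplicit false
set_option linter.unusedSectionVars false

namespace Pool.Agent.TH88.SI

/-- strongly irreducible SFTs over `G` have dense periodic points. -/
def DP (G : Type) [Group G] : Prop :=
  ∀ (A : Type) [Finite A] (X : Set (G → A)) (E : Set G), E.Finite → LocOn E X → SIrr X →
    ∀ x ∈ X, ∀ F : Set G, F.Finite →
      ∃ y ∈ X, (Set.range (fun g => sh g y)).Finite ∧ ∀ h ∈ F, y h = x h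

theorem LocOn.mono {G A : Type} [Group G] {E E' : Set G} (h : E ⊆ E') {X : Set (G → A)}
    (hX : LocOn E X) : LocOn E' X := by
  refine ⟨hX.1, fun x hx => hX.2 x fun g => ?_⟩
  obtain ⟨x', hx', h1⟩ := hx g
  exact ⟨x', hx', fun e he => h1 e (h he)⟩

theorem DP_free_fin (α : Type) [DecidableEq α] [Finite α] : DP (FreeGroup α) := by
  intro A _ X E hE hX hSI x hx F hF
  obtain ⟨R, hR⟩ : ∃ R : ℕ, ∀ d ∈ E ∪ F, d.norm ≤ R := by
    obtain ⟨m, hm⟩ := ((hE.union hF).image FreeGroup.norm).bddAbove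
    exact ⟨m, fun d hd => hm ⟨d, hd, rfl⟩⟩
  obtain ⟨y, hy, hy1, hy2⟩ := free_ball R X (hX.mono (fun e he => hR e (Or.inl he))) hSI x hx
  exact ⟨y, hy, hy1, fun h hh => hy2 h (hR h (Or.inr hh))⟩

theorem DP_retract {G : Type} [Group G]
    (hG : ∀ C : Set G, C.Finite → ∃ (K : Type) (_ : Group K) (ι : K →* G) (π : G →* K),
      (∀ k, π (ι k) = k) ∧ C ⊆ Set.range ι ∧ DP K) : DP G := by
  intro A _ X E hE hX hSI x hx F hF
  obtain ⟨Δ, hΔ, hsi⟩ := hSI
  obtain ⟨K, _, ι, π, hπ, hC, hK⟩ := hG (E ∪ Δ ∪ F) ((hE.union hΔ).union hF)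
  have hinj : Function.Injective ι := fun a b h => by rw [← hπ a, h, hπ b]
  have hCE : ∀ e ∈ E, ∃ k, ι k = e := fun e he => hC (Or.inl (Or.inl he))
  have hCD : ∀ e ∈ Δ, ∃ k, ι k = e := fun e he => hC (Or.inl (Or.inr he))
  have hCF : ∀ e ∈ F, ∃ k, ι k = e := fun e he => hC (Or.inr he)
  -- restriction of points of `X`
  have hres : ∀ z ∈ X, (fun g => z (ι (π g))) ∈ X := by
    intro z hz
    refine hX.2 _ fun g => ⟨sh (ι (π g)) z, hX.1 z hz _, fun h hh => ?_⟩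
    obtain ⟨k, rfl⟩ := hCE h hh
    show z (ι k * ι (π g)) = z (ι (π (ι k * g)))
    rw [map_mul, hπ, map_mul]
  have hXK : LocOn (ι ⁻¹' E) {z : K → A | (fun g => z (π g)) ∈ X} := by
    refine ⟨fun z hz k => ?_, fun z hz => ?_⟩
    · have h1 := hX.1 _ hz (ι k)
      have h2 : sh (ι k) (fun g => z (π g)) = fun g => sh k z (π g) := by
        funext g
        show z (π (g * ι k)) = z (π g * k)
        rw [map_mul, hπ]
      rw [h2] at h1
      exact h1
    · refine hX.2 _ fun g => ?_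
      obtain ⟨z', hz', h1⟩ := hz (π g)
      refine ⟨fun g => z' (π g), hz', fun h hh => ?_⟩
      obtain ⟨k, rfl⟩ := hCE h hh
      show z' (π (ι k)) = z (π (ι k * g))
      rw [map_mul, hπ]
      exact h1 k hh
  have hSIK : SIrr {z : K → A | (fun g => z (π g)) ∈ X} := by
    refine ⟨ι ⁻¹' Δ, hΔ.preimage hinj.injOn, ?_⟩
    intro Ω₁ Ω₂ h1 h2 hd x₁ hx₁ x₂ hx₂
    obtain ⟨z, hz, hz1, hz2⟩ := hsi (ι '' Ω₁) (ι '' Ω₂) (h1.image _) (h2.image _) (by
      rintro d hdΔ _ ⟨w, hw, rfl⟩ ⟨w', hw', he⟩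
      obtain ⟨k, rfl⟩ := hCD d hdΔ
      rw [← map_mul] at he
      have := hinj he
      rw [this] at hw'
      exact hd k hdΔ w hw hw') _ hx₁ _ hx₂
    refine ⟨fun k => z (ι k), hres z hz, fun w hw => ?_, fun w hw => ?_⟩
    · have := hz1 (ι w) ⟨w, hw, rfl⟩
      show z (ι w) = x₁ w
      rw [this]
      show x₁ (π (ι w)) = x₁ w
      rw [hπ]
    · have := hz2 (ι w) ⟨w, hw, rfl⟩
      show z (ι w) = x₂ w
      rw [this]
      show x₂ (π (ι w)) = x₂ w
      rw [hπ]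
  obtain ⟨y, hy, hy1, hy2⟩ := hK A _ (ι ⁻¹' E) (hE.preimage hinj.injOn) hXK hSIK
    (fun k => x (ι k)) (hres x hx) (ι ⁻¹' F) (hF.preimage hinj.injOn)
  refine ⟨fun g => y (π g), hy, ?_, ?_⟩
  · refine (hy1.image (fun z : K → A => fun g : G => z (π g))).subset ?_
    rintro _ ⟨g, rfl⟩
    refine ⟨sh (π g) y, ⟨π g, rfl⟩, ?_⟩
    funext h
    show y (π h * π g) = y (π (h * g))
    rw [map_mul]
  · intro h hh
    obtain ⟨k, rfl⟩ := hCF h hh
    show y (π (ι k)) = x (ι k)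
    rw [hπ]
    exact hy2 k hh

theorem DP_equiv {G K : Type} [Group G] [Group K] (e : K ≃* G) (hK : DP K) : DP G := by
  refine DP_retract fun C _ => ⟨K, inferInstance, e.toMonoidHom, e.symm.toMonoidHom, ?_, ?_, hK⟩
  · intro k
    show e.symm (e k) = k
    exact e.symm_apply_apply k
  · intro c _
    exact ⟨e.symm c, e.apply_symm_apply c⟩

theorem free_support {α : Type} (C : Set (FreeGroup α)) (hC : C.Finite) :
    ∃ B : Set α, B.Finite ∧ C ⊆ (Subgroup.closure (FreeGroup.of '' B) : Subgroup (FreeGroup α)) := by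
  have h1 : ∀ g : FreeGroup α, ∃ B : Set α, B.Finite ∧
      g ∈ Subgroup.closure (FreeGroup.of '' B) := by
    intro g
    induction g using FreeGroup.induction_on with
    | C1 => exact ⟨∅, Set.finite_empty, one_mem _⟩
    | of a => exact ⟨{a}, Set.finite_singleton a, Subgroup.subset_closure ⟨a, rfl, rfl⟩⟩
    | inv_of a ih =>
      obtain ⟨B, hB, h⟩ := ih
      exact ⟨B, hB, inv_mem h⟩
    | mul x y hx hy =>
      obtain ⟨B, hB, h⟩ := hx
      obtain ⟨B', hB', h'⟩ := hy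
      refine ⟨B ∪ B', hB.union hB', mul_mem ?_ ?_⟩
      · exact Subgroup.closure_mono (Set.image_mono Set.subset_union_left) h
      · exact Subgroup.closure_mono (Set.image_mono Set.subset_union_right) h'
  choose B hB hBm using h1
  refine ⟨⋃ c ∈ C, B c, hC.biUnion fun c _ => hB c, fun c hc => ?_⟩
  exact Subgroup.closure_mono (Set.image_mono (Set.subset_biUnion_of_mem hc)) (hBm c)

theorem DP_free (α : Type) : DP (FreeGroup α) := by
  classical
  refine DP_retract fun C hC => ?_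
  obtain ⟨B, hB, hCB⟩ := free_support C hC
  have : Finite B := hB
  refine ⟨FreeGroup B, inferInstance, FreeGroup.map Subtype.val,
    FreeGroup.lift (fun a => if h : a ∈ B then FreeGroup.of (⟨a, h⟩ : B) else 1), ?_, ?_,
    DP_free_fin B⟩
  · intro k
    have h1 : (FreeGroup.lift (fun a => if h : a ∈ B then FreeGroup.of (⟨a, h⟩ : B) else 1)).comp
        (FreeGroup.map (Subtype.val : B → α)) = MonoidHom.id _ := by
      ext b
      simp
    exact DFunLike.congr_fun h1 k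
  · refine hCB.trans ?_
    have h2 : Subgroup.closure (FreeGroup.of '' B) ≤
        (FreeGroup.map (Subtype.val : B → α)).range := by
      rw [Subgroup.closure_le]
      rintro _ ⟨b, hb, rfl⟩
      exact ⟨FreeGroup.of ⟨b, hb⟩, by simp⟩
    intro c hc
    exact h2 hc

section FI

variable {G A : Type} [Group G] (H : Subgroup G)

/-- representatives. -/
noncomputable def rp (i : G ⧸ H) : G := Quotient.out i

theorem rp_mk (i : G ⧸ H) : ((rp H i : G) : G ⧸ H) = i := Quotient.out_eq i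

theorem rp_mem (g : G) : (rp H (g : G ⧸ H))⁻¹ * g ∈ H := by
  rw [← QuotientGroup.eq]
  exact rp_mk H _

/-- the component in `H`. -/
noncomputable def hc (g : G) : H := ⟨(rp H (g : G ⧸ H))⁻¹ * g, rp_mem H g⟩

theorem rp_mul_hc (g : G) : rp H (g : G ⧸ H) * (hc H g : G) = g := by
  show rp H (g : G ⧸ H) * ((rp H (g : G ⧸ H))⁻¹ * g) = g
  rw [mul_inv_cancel_left]

theorem mk_mul_mem (g : G) (f : H) : ((g * f : G) : G ⧸ H) = (g : G ⧸ H) := by
  rw [eq_comm, QuotientGroup.eq]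
  rw [inv_mul_cancel_left]
  exact f.2

theorem hc_mul (g : G) (f : H) : hc H (g * f) = hc H g * f := by
  apply Subtype.ext
  show (rp H ((g * f : G) : G ⧸ H))⁻¹ * (g * f) = (rp H (g : G ⧸ H))⁻¹ * g * f
  rw [mk_mul_mem, mul_assoc]

theorem mk_rp_mul (i : G ⧸ H) (f : H) : ((rp H i * f : G) : G ⧸ H) = i := by
  rw [mk_mul_mem, rp_mk]

theorem hc_rp_mul (i : G ⧸ H) (f : H) : hc H (rp H i * f) = f := by
  apply Subtype.ext
  show (rp H ((rp H i * f : G) : G ⧸ H))⁻¹ * (rp H i * f) = f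
  rw [mk_rp_mul, inv_mul_cancel_left]

/-- from block configurations to configurations. -/
noncomputable def unbl (z : H → (G ⧸ H → A)) : G → A := fun g => z (hc H g) (g : G ⧸ H)

/-- the block configuration. -/
noncomputable def blk (x : G → A) : H → (G ⧸ H → A) := fun f i => x (rp H i * f)

theorem unbl_blk (x : G → A) : unbl H (blk H x) = x := by
  funext g
  show x (rp H (g : G ⧸ H) * (hc H g : G)) = x g
  rw [rp_mul_hc]

theorem unbl_rp (z : H → (G ⧸ H → A)) (i : G ⧸ H) (f : H) : unbl H z (rp H i * f) = z f i := by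
  show z (hc H (rp H i * f)) ((rp H i * f : G) : G ⧸ H) = z f i
  rw [hc_rp_mul, mk_rp_mul]

theorem unbl_sh (z : H → (G ⧸ H → A)) (f : H) : unbl H (sh f z) = sh (f : G) (unbl H z) := by
  funext g
  show z (hc H g * f) (g : G ⧸ H) = z (hc H (g * f)) ((g * f : G) : G ⧸ H)
  rw [hc_mul, mk_mul_mem]

/-- the induced finite set. -/
def ind (E : Set G) : Set H := {d | ∃ i j : G ⧸ H, ∃ e ∈ E, (d : G) = (rp H j)⁻¹ * e * rp H i}

theorem ind_finite [Finite (G ⧸ H)] (E : Set G) (hE : E.Finite) : (ind H E).Finite := by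
  have h1 : (Set.image (fun t : (G ⧸ H) × (G ⧸ H) × G => (rp H t.2.1)⁻¹ * t.2.2 * rp H t.1)
      (Set.univ ×ˢ (Set.univ ×ˢ E))).Finite :=
    (Set.finite_univ.prod (Set.finite_univ.prod hE)).image _
  refine (h1.preimage (f := (Subtype.val : H → G)) Subtype.val_injective.injOn).subset ?_
  rintro d ⟨i, j, e, he, hd⟩
  exact ⟨(i, j, e), ⟨Set.mem_univ _, Set.mem_univ _, he⟩, hd.symm⟩

end FI

theorem DP_fi {G : Type} [Group G] (H : Subgroup G) [Finite (G ⧸ H)] (hH : DP H) : DP G := by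
  intro A _ X E hE hX hSI x hx F hF
  obtain ⟨Δ, hΔ, hsi⟩ := hSI
  have hloc : LocOn (ind H E) {z : H → (G ⧸ H → A) | unbl H z ∈ X} := by
    refine ⟨fun z hz f => ?_, fun z hz => ?_⟩
    · show unbl H (sh f z) ∈ X
      rw [unbl_sh]
      exact hX.1 _ hz _
    · refine hX.2 _ fun g => ?_
      obtain ⟨z', hz', h1⟩ := hz (hc H g)
      refine ⟨sh (rp H (g : G ⧸ H)) (unbl H z'), hX.1 _ hz' _, fun h hh => ?_⟩
      have e1 : h * g = h * rp H (g : G ⧸ H) * (hc H g : G) := by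
        rw [mul_assoc, rp_mul_hc]
      show z' (hc H (h * rp H (g : G ⧸ H))) ((h * rp H (g : G ⧸ H) : G) : G ⧸ H) =
        z (hc H (h * g)) ((h * g : G) : G ⧸ H)
      rw [e1, hc_mul, mk_mul_mem]
      have h2 := h1 (hc H (h * rp H (g : G ⧸ H))) ⟨(g : G ⧸ H), ((h * rp H (g : G ⧸ H) : G) : G ⧸ H),
        h, hh, by
          show (rp H ((h * rp H (g : G ⧸ H) : G) : G ⧸ H))⁻¹ * (h * rp H (g : G ⧸ H)) = _
          rw [mul_assoc]⟩
      rw [h2]
  have hSIH : SIrr {z : H → (G ⧸ H → A) | unbl H z ∈ X} := by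
    refine ⟨ind H Δ, ind_finite H Δ hΔ, ?_⟩
    intro Ω₁ Ω₂ h1 h2 hd x₁ hx₁ x₂ hx₂
    let th : Set H → Set G := fun Ω => Set.image (fun t : (G ⧸ H) × H => rp H t.1 * (t.2 : G))
      (Set.univ ×ˢ Ω)
    have hth : ∀ Ω : Set H, Ω.Finite → (th Ω).Finite := fun Ω hΩ =>
      (Set.finite_univ.prod hΩ).image _
    obtain ⟨z, hz, hz1, hz2⟩ := hsi (th Ω₁) (th Ω₂) (hth _ h1) (hth _ h2) (by
      rintro δ hδ _ ⟨⟨i, w⟩, ⟨-, hw⟩, rfl⟩ ⟨⟨j, w'⟩, ⟨-, hw'⟩, he⟩
      have he' : rp H j * (w' : G) = δ * (rp H i * (w : G)) := he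
      have hmem : (rp H j)⁻¹ * δ * rp H i = (w' * w⁻¹ : H) := by
        show (rp H j)⁻¹ * δ * rp H i = (w' : G) * (w : G)⁻¹
        have : (w' : G) = (rp H j)⁻¹ * (δ * (rp H i * (w : G))) := by
          rw [← he', inv_mul_cancel_left]
        rw [this]
        group
      have h3 := hd (w' * w⁻¹) ⟨i, j, δ, hδ, hmem.symm⟩ w hw
      apply h3
      rw [inv_mul_cancel_right]
      exact hw') _ hx₁ _ hx₂
    refine ⟨blk H z, ?_, fun w hw => ?_, fun w hw => ?_⟩
    · show unbl H (blk H z) ∈ X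
      rw [unbl_blk]
      exact hz
    · funext i
      show z (rp H i * w) = x₁ w i
      rw [hz1 _ ⟨(i, w), ⟨Set.mem_univ _, hw⟩, rfl⟩, unbl_rp]
    · funext i
      show z (rp H i * w) = x₂ w i
      rw [hz2 _ ⟨(i, w), ⟨Set.mem_univ _, hw⟩, rfl⟩, unbl_rp]
  obtain ⟨y, hy, hy1, hy2⟩ := hH (G ⧸ H → A) _ (ind H E) (ind_finite H E hE) hloc hSIH (blk H x)
    (by show unbl H (blk H x) ∈ X; rw [unbl_blk]; exact hx) (hc H '' F) (hF.image _)
  refine ⟨unbl H y, hy, ?_, ?_⟩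
  · have h1 : (Set.image (fun t : (G ⧸ H) × (H → (G ⧸ H → A)) => sh (rp H t.1) (unbl H t.2))
        (Set.univ ×ˢ (Set.range (fun f => sh f y)))).Finite :=
      (Set.finite_univ.prod hy1).image _
    refine h1.subset ?_
    rintro _ ⟨g, rfl⟩
    refine ⟨((g : G ⧸ H), sh (hc H g) y), ⟨Set.mem_univ _, ⟨_, rfl⟩⟩, ?_⟩
    show sh (rp H (g : G ⧸ H)) (unbl H (sh (hc H g) y)) = sh g (unbl H y)
    rw [unbl_sh, sh_sh, rp_mul_hc]
  · intro h hh
    have h1 := hy2 (hc H h) ⟨h, hh, rfl⟩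
    show y (hc H h) (h : G ⧸ H) = x h
    rw [h1]
    show x (rp H (h : G ⧸ H) * (hc H h : G)) = x h
    rw [rp_mul_hc]

theorem DP_vfree {G : Type} [Group G] (hG : ∃ H : Subgroup G, H.FiniteIndex ∧ IsFreeGroup H) :
    DP G := by
  obtain ⟨H, hfi, hfree⟩ := hG
  have : Finite (G ⧸ H) := inferInstance
  exact DP_fi H (DP_equiv (IsFreeGroup.mulEquiv H) (DP_free _))

/-- every finite subset lies in a virtually free retract. -/
theorem DP_class {G : Type} [Group G]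
    (hG : ∀ C : Finset G, ∃ K : Subgroup G, (∀ c ∈ C, c ∈ K) ∧
      (∃ π : G →* K, ∀ k : K, π (k : G) = k) ∧
      ∃ H : Subgroup K, H.FiniteIndex ∧ IsFreeGroup H) : DP G := by
  refine DP_retract fun C hC => ?_
  obtain ⟨K, hCK, ⟨π, hπ⟩, hK⟩ := hG hC.toFinset
  refine ⟨K, inferInstance, K.subtype, π, hπ, ?_, DP_vfree hK⟩
  intro c hc
  exact ⟨⟨c, hCK c (hC.mem_toFinset.2 hc)⟩, rfl⟩

end Pool.Agent.TH88.SI
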