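import Mathlib
import Pool.Agent.TH88.SI.Transfer
import Pool.Agent.TH88.SI.FP

/-!
# Density of periodic points passes to free products
-/

set_option autoImplicit false
set_option linter.unusedSectionVars false

namespace Pool.Agent.TH88.SI.FP

open Monoid

/-- the stabiliser of a configuration. -/
def stab {G A : Type} [Group G] (y : G → A) : Subgroup G where
  carrier := {k | ∀ h, y (h * k) = y h}
  mul_mem' := by
    intro a b ha hb h
    rw [← mul_assoc, hb, ha]
  one_mem' := by intro h; rw [mul_one]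
  inv_mem' := by
    intro a ha h
    have := ha (h * a⁻¹)
    rw [inv_mul_cancel_right] at this
    exact this.symm

theorem stab_fi {G A : Type} [Group G] (y : G → A) (hy : (Set.range (fun g => sh g y)).Finite) :
    (stab y).FiniteIndex := by
  have hf : Finite (Set.range (fun g => sh g y)) := hy
  let f : G ⧸ stab y → Set.range (fun g => sh g y) := fun q => ⟨sh (Quotient.out q) y, ⟨_, rfl⟩⟩
  have hfin : Finite (G ⧸ stab y) := by
    refine Finite.of_injective f ?_
    intro p q hpq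
    have h1 : sh (Quotient.out p) y = sh (Quotient.out q) y := congrArg Subtype.val hpq
    have h2 : (Quotient.out p)⁻¹ * Quotient.out q ∈ stab y := by
      intro h
      have h4 := congrFun h1 (h * (Quotient.out p)⁻¹)
      simp only [sh] at h4
      rw [inv_mul_cancel_right] at h4
      rw [← mul_assoc, ← h4]
    have h3 := (QuotientGroup.eq (s := stab y)).2 h2
    rw [← Quotient.out_eq p, ← Quotient.out_eq q]
    exact h3
  exact Subgroup.finiteIndex_of_finite_quotient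

theorem rf_of_DP {G : Type} [Group G] (hG : DP G) (t : G) (ht : t ≠ 1) :
    ∃ N : Subgroup G, N.FiniteIndex ∧ t ∉ N := by
  classical
  obtain ⟨y, -, hy, hyt⟩ := hG Bool Set.univ ∅ Set.finite_empty
    ⟨fun _ _ _ => trivial, fun _ _ => trivial⟩ ⟨{1}, Set.finite_singleton 1, by
      intro Ω₁ Ω₂ _ _ hd x₁ _ x₂ _
      refine ⟨fun w => if w ∈ Ω₁ then x₁ w else x₂ w, trivial, fun w hw => if_pos hw,
        fun w hw => if_neg ?_⟩
      intro hw1
      exact hd 1 rfl w hw1 (by rwa [one_mul])⟩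
    (fun g => decide (g = 1)) trivial {1, t} (by simp)
  refine ⟨stab y, stab_fi y hy, fun h => ?_⟩
  have h1 := h 1
  rw [one_mul, hyt t (by simp), hyt 1 (by simp)] at h1
  simp [ht] at h1

theorem exists_normal {G L I : Type} [Group G] [Finite I] (hG : DP G) (c : I → G → L)
    (hc : ∀ p, (Set.range (fun g => sh g (c p))).Finite) (T : Set G) (hT : T.Finite)
    (h1 : (1 : G) ∉ T) :
    ∃ N : Subgroup G, N.Normal ∧ N.FiniteIndex ∧ (∀ p, ∀ n ∈ N, ∀ h, c p (h * n) = c p h) ∧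
      ∀ t ∈ T, t ∉ N := by
  classical
  have : Finite T := hT
  have h2 : ∀ t : T, ∃ N : Subgroup G, N.FiniteIndex ∧ (t : G) ∉ N := fun t =>
    rf_of_DP hG t (fun h => h1 (h ▸ t.2))
  choose M hM1 hM2 using h2
  have ha : (⨅ p, stab (c p)).FiniteIndex :=
    Subgroup.finiteIndex_iInf (fun p => stab_fi (c p) (hc p))
  have hb : (⨅ t, M t).FiniteIndex := Subgroup.finiteIndex_iInf hM1
  let K : Subgroup G := (⨅ p, stab (c p)) ⊓ (⨅ t, M t)
  have hK : K.FiniteIndex := inferInstanceAs ((⨅ p, stab (c p)) ⊓ (⨅ t, M t)).FiniteIndex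
  refine ⟨K.normalCore, inferInstance, inferInstance, ?_, ?_⟩
  · intro p n hn h
    have h3 : n ∈ K := K.normalCore_le hn
    exact (Subgroup.mem_iInf.1 (Subgroup.mem_inf.1 h3).1 p) h
  · intro t ht hn
    have h3 := K.normalCore_le hn
    exact hM2 ⟨t, ht⟩ (Subgroup.mem_iInf.1 (Subgroup.mem_inf.1 h3).2 ⟨t, ht⟩)

section win

variable {ι : Type} {G : ι → Type} [∀ i, Group (G i)] {A : Type}

/-- the window. -/
def Bw (S : ∀ i, Set (G i)) (R : ℕ) : Set (CoprodI G) :=
  {g | ∃ l : List (Σ i, G i), l.length ≤ R ∧ (∀ s ∈ l, s.2 ∈ S s.1) ∧ pr l = g}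

theorem Bw_finite [Finite ι] (S : ∀ i, Set (G i)) (hS : ∀ i, (S i).Finite) (R : ℕ) :
    (Bw S R).Finite := by
  have hT : {s : Σ i, G i | s.2 ∈ S s.1}.Finite := by
    have : {s : Σ i, G i | s.2 ∈ S s.1} = ⋃ i, (Sigma.mk i) '' (S i) := by
      ext ⟨i, g⟩
      simp only [Set.mem_ofPred_eq, Set.mem_iUnion, Set.mem_image]
      constructor
      · intro h
        exact ⟨i, g, h, rfl⟩
      · rintro ⟨j, g', hg', he⟩
        obtain ⟨rfl, he⟩ := Sigma.mk.inj_iff.1 he
        have := eq_of_heq he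
        subst this
        exact hg'
    rw [this]
    exact Set.finite_iUnion fun i => (hS i).image _
  have hf : Finite {s : Σ i, G i | s.2 ∈ S s.1} := hT
  refine ((List.finite_length_le {s : Σ i, G i | s.2 ∈ S s.1} R).image
    (fun l => pr (l.map Subtype.val))).subset ?_
  rintro g ⟨l, hl, hl2, rfl⟩
  have h1 : l ∈ Set.range (List.map (Subtype.val : {s : Σ i, G i | s.2 ∈ S s.1} → _)) := by
    rw [Set.range_list_map_coe]
    exact hl2
  obtain ⟨l', rfl⟩ := h1
  refine ⟨l', ?_, rfl⟩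
  simpa using hl

theorem one_mem_Bw (S : ∀ i, Set (G i)) (R : ℕ) : (1 : CoprodI G) ∈ Bw S R :=
  ⟨[], Nat.zero_le _, by simp, rfl⟩

/-- labels. -/
def Lab (B : Set (CoprodI G)) (X : Set (CoprodI G → A)) : Type :=
  {p : B → A // ∃ x ∈ X, ∀ b : B, x b.1 = p b}

/-- compatibility of labels. -/
def Rl {B : Set (CoprodI G)} {X : Set (CoprodI G → A)} {i : ι} (s : G i) (p q : Lab B X) : Prop :=
  ∀ b b' : B, b.1 * CoprodI.of s = b'.1 → q.1 b = p.1 b'

/-- the coset subshifts. -/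
def Cc (S : ∀ i, Set (G i)) (B : Set (CoprodI G)) (X : Set (CoprodI G → A)) (i : ι) :
    Set (G i → Lab B X) :=
  {c | ∀ h, ∀ s ∈ S i, Rl s (c h) (c (s * h))}

/-- the label configuration. -/
def hat {B : Set (CoprodI G)} {X : Set (CoprodI G → A)} (hinv : ∀ x ∈ X, ∀ g, sh g x ∈ X)
    (x : CoprodI G → A) (hx : x ∈ X) : CoprodI G → Lab B X :=
  fun g => ⟨fun b => x (b.1 * g), sh g x, hinv x hx g, fun _ => rfl⟩

theorem hat_mem {S : ∀ i, Set (G i)} {B : Set (CoprodI G)} {X : Set (CoprodI G → A)}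
    (hinv : ∀ x ∈ X, ∀ g, sh g x ∈ X) (x : CoprodI G → A) (hx : x ∈ X) :
    hat (B := B) hinv x hx ∈ CS (Cc S B X) := by
  intro g i h s hs b b' hb
  show x (b.1 * (CoprodI.of (s * h) * g)) = x (b'.1 * (CoprodI.of h * g))
  rw [← hb, map_mul, mul_assoc, mul_assoc]

theorem rl_of_cs {S : ∀ i, Set (G i)} {B : Set (CoprodI G)} {X : Set (CoprodI G → A)}
    {z : CoprodI G → Lab B X} (hz : z ∈ CS (Cc S B X)) {i : ι} {s : G i} (hs : s ∈ S i)
    (g : CoprodI G) : Rl s (z g) (z (CoprodI.of s * g)) := by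
  have h1 := hz g i 1 s hs
  simp only [map_one, one_mul, mul_one] at h1
  exact h1

theorem unhat {S : ∀ i, Set (G i)} {R : ℕ} {X : Set (CoprodI G → A)} {E : Set (CoprodI G)}
    (hE : E ⊆ Bw S R) (hX : LocOn E X) {z : CoprodI G → Lab (Bw S R) X}
    (hz : z ∈ CS (Cc S (Bw S R) X)) :
    ∃ y ∈ X, ∀ (g : CoprodI G) (b : Bw S R), (z g).1 b = y (b.1 * g) := by
  let y : CoprodI G → A := fun g => (z g).1 ⟨1, one_mem_Bw S R⟩
  have key : ∀ (l : List (Σ i, G i)) (hl : pr l ∈ Bw S R) (_ : l.length ≤ R)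
      (_ : ∀ s ∈ l, s.2 ∈ S s.1) (g : CoprodI G), (z g).1 ⟨pr l, hl⟩ = y (pr l * g) := by
    intro l
    induction l using List.reverseRecOn with
    | nil =>
      intro hl _ _ g
      show (z g).1 ⟨1, _⟩ = (z (1 * g)).1 ⟨1, _⟩
      rw [one_mul]
    | append_singleton l s ih =>
      intro hl hlen hls g
      have hlen' : l.length ≤ R := by
        rw [List.length_append] at hlen
        omega
      have hls' : ∀ s ∈ l, s.2 ∈ S s.1 := fun t ht => hls t (List.mem_append_left _ ht)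
      have hs : s.2 ∈ S s.1 := hls s (List.mem_append_right _ (List.mem_singleton_self s))
      have hpl : pr l ∈ Bw S R := ⟨l, hlen', hls', rfl⟩
      have e1 : pr (l ++ [s]) = pr l * CoprodI.of s.2 := by
        rw [pr_append, pr_cons, pr_nil, mul_one]
      have h1 := rl_of_cs hz hs g ⟨pr l, hpl⟩ ⟨pr (l ++ [s]), hl⟩ e1.symm
      rw [← h1, ih hpl hlen' hls', e1, mul_assoc]
  have hy : ∀ (g : CoprodI G) (b : Bw S R), (z g).1 b = y (b.1 * g) := by
    rintro g ⟨b, hb⟩
    obtain ⟨l, hl, hl2, rfl⟩ := id hb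
    exact key l hb hl hl2 g
  refine ⟨y, hX.2 _ fun g => ?_, hy⟩
  obtain ⟨x', hx', h1⟩ := (z g).2
  exact ⟨x', hx', fun h hh => by rw [h1 ⟨h, hE hh⟩, hy g ⟨h, hE hh⟩]⟩

end win

end Pool.Agent.TH88.SI.FP
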