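import Mathlib
import Pool.Agent.TH88.SI.Transfer
import Pool.Agent.TH88.SI.Prod

/-!
# Subgroups, existence of periodic points, and `ℤ²`
-/

set_option autoImplicit false
set_option linter.unusedSectionVars false

namespace Pool.Agent.TH88.SI

section sub

variable {G A : Type} [Group G] (K : Subgroup G)

/-- representative of the right coset. -/
noncomputable def rr (g : G) : G := Quotient.out (Quotient.mk (QuotientGroup.rightRel K) g)

theorem rr_mem (g : G) : g * (rr K g)⁻¹ ∈ K := by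
  have h : Quotient.mk (QuotientGroup.rightRel K) (rr K g) = Quotient.mk (QuotientGroup.rightRel K) g :=
    Quotient.out_eq _
  have h2 := Quotient.exact h
  exact QuotientGroup.rightRel_apply.1 h2

theorem rr_mul (k : K) (g : G) : rr K (k * g) = rr K g := by
  unfold rr
  congr 1
  refine Quotient.sound ?_
  refine QuotientGroup.rightRel_apply.2 ?_
  rw [mul_inv_rev, ← mul_assoc, mul_inv_cancel, one_mul]
  exact K.inv_mem k.2

/-- the component in `K`. -/
noncomputable def kk (g : G) : K := ⟨g * (rr K g)⁻¹, rr_mem K g⟩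

theorem kk_mul (k : K) (g : G) : kk K (k * g) = k * kk K g := by
  apply Subtype.ext
  show (k : G) * g * (rr K (k * g))⁻¹ = k * (g * (rr K g)⁻¹)
  rw [rr_mul, mul_assoc]

theorem kk_rr (g : G) : (kk K g : G) * rr K g = g := by
  show g * (rr K g)⁻¹ * rr K g = g
  rw [inv_mul_cancel_right]

end sub

theorem DP_subgroup {G : Type} [Group G] (K : Subgroup G) (hG : DP G) : DP K := by
  intro A _ X E hE hX hSI x hx F hF
  obtain ⟨Δ, hΔ, hsi⟩ := hSI
  let Y : Set (G → A) := {z | ∀ g : G, (fun k : K => z (k * g)) ∈ X}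
  -- fibrewise configurations
  have hmk : ∀ z : G → K → A, (∀ r, z r ∈ X) → (fun g => z (rr K g) (kk K g)) ∈ Y := by
    intro z hz g
    have h1 := hX.1 _ (hz (rr K g)) (kk K g)
    have h2 : sh (kk K g) (z (rr K g)) = fun k : K => z (rr K (k * g)) (kk K (k * g)) := by
      funext k
      show z (rr K g) (k * kk K g) = _
      rw [rr_mul, kk_mul]
    rw [h2] at h1
    exact h1
  have hLoc : LocOn (Subtype.val '' E) Y := by
    refine ⟨fun z hz g g' => ?_, fun z hz g => ?_⟩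
    · have h1 := hz (g' * g)
      show (fun k : K => z (k * g' * g)) ∈ X
      simpa only [mul_assoc] using h1
    · refine hX.2 _ fun k0 => ?_
      obtain ⟨x', hx', h1⟩ := hz ((k0 : G) * g)
      have h2 := hx' 1
      refine ⟨_, h2, fun e he => ?_⟩
      show x' ((e : G) * 1) = z (((e * k0 : K) : G) * g)
      rw [mul_one, h1 e ⟨e, he, rfl⟩, Subgroup.coe_mul, mul_assoc]
  have hSY : SIrr Y := by
    refine ⟨Subtype.val '' Δ, hΔ.image _, ?_⟩
    intro Ω₁ Ω₂ h1 h2 hd x₁ hx₁ x₂ hx₂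
    have hinj : ∀ r : G, Function.Injective (fun k : K => (k : G) * r) := by
      intro r a b hab
      exact Subtype.ext (mul_right_cancel hab)
    have h3 : ∀ r : G, ∃ z ∈ X, (∀ w : K, (w : G) * r ∈ Ω₁ → z w = x₁ (w * r)) ∧
        (∀ w : K, (w : G) * r ∈ Ω₂ → z w = x₂ (w * r)) := by
      intro r
      obtain ⟨z, hz, hz1, hz2⟩ := hsi ((fun k : K => (k : G) * r) ⁻¹' Ω₁)
        ((fun k : K => (k : G) * r) ⁻¹' Ω₂) (h1.preimage (hinj r).injOn)
        (h2.preimage (hinj r).injOn) (by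
          intro d hdΔ w hw hdw
          refine hd d ⟨d, hdΔ, rfl⟩ _ hw ?_
          have h4 : ((d * w : K) : G) * r ∈ Ω₂ := hdw
          rw [Subgroup.coe_mul, mul_assoc] at h4
          exact h4) _ (hx₁ r) _ (hx₂ r)
      exact ⟨z, hz, fun w hw => hz1 w hw, fun w hw => hz2 w hw⟩
    choose z hz hz1 hz2 using h3
    refine ⟨fun g => z (rr K g) (kk K g), hmk z hz, fun w hw => ?_, fun w hw => ?_⟩
    · show z (rr K w) (kk K w) = x₁ w
      rw [hz1 _ _ (by rw [kk_rr]; exact hw), kk_rr]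
    · show z (rr K w) (kk K w) = x₂ w
      rw [hz2 _ _ (by rw [kk_rr]; exact hw), kk_rr]
  -- extend `x`
  have hx1 : sh (kk K 1)⁻¹ x ∈ X := hX.1 _ hx _
  have hext : ∀ k : K, (fun g => (fun _ : G => sh (kk K 1)⁻¹ x) (rr K g) (kk K g)) (k : G) = x k := by
    intro k
    show x (kk K (k : G) * (kk K 1)⁻¹) = x k
    have : kk K (k : G) = k * kk K 1 := by
      have := kk_mul K k 1
      rwa [mul_one] at this
    rw [this, mul_inv_cancel_right]
  obtain ⟨y, hy, hy1, hy2⟩ := hG A Y _ (hE.image _) hLoc hSY _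
    (hmk (fun _ => sh (kk K 1)⁻¹ x) fun _ => hx1) (Subtype.val '' F) (hF.image _)
  refine ⟨fun k : K => y k, ?_, ?_, ?_⟩
  · have := hy 1
    simpa only [mul_one] using this
  · refine (hy1.image (fun z : G → A => fun k : K => z k)).subset ?_
    rintro _ ⟨g, rfl⟩
    exact ⟨sh (g : G) y, ⟨g, rfl⟩, rfl⟩
  · intro h hh
    show y h = x h
    rw [hy2 h ⟨h, hh, rfl⟩]
    exact hext h

theorem DP_inj {G K : Type} [Group G] [Group K] (f : K →* G) (hf : Function.Injective f)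
    (hG : DP G) : DP K :=
  DP_equiv (MonoidHom.ofInjective hf).symm (DP_subgroup f.range hG)

/-- SFTs are closed. -/
theorem LocOn.closed {G A : Type} [Group G] [Finite A] [TopologicalSpace A] [DiscreteTopology A]
    {E : Set G} (hE : E.Finite) {X : Set (G → A)} (hX : LocOn E X) : IsClosed X := by
  have : Finite E := hE
  have h1 : X = ⋂ g : G, (fun x : G → A => fun e : E => x (e.1 * g)) ⁻¹'
      {p | ∃ x' ∈ X, ∀ e : E, x' e.1 = p e} := by
    ext x
    simp only [Set.mem_iInter, Set.mem_preimage, Set.mem_ofPred_eq]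
    constructor
    · intro hx g
      exact ⟨sh g x, hX.1 x hx g, fun e => rfl⟩
    · intro h
      refine hX.2 x fun g => ?_
      obtain ⟨x', hx', h2⟩ := h g
      exact ⟨x', hx', fun e he => h2 ⟨e, he⟩⟩
  rw [h1]
  refine isClosed_iInter fun g => ?_
  refine IsClosed.preimage ?_ (isClosed_discrete _)
  exact continuous_pi fun d => continuous_apply _

/-- strong irreducibility for infinite sets. -/
theorem si_inf {G A : Type} [Group G] [Finite A] {E : Set G} (hE : E.Finite) {X : Set (G → A)}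
    (hX : LocOn E X) {Δ : Set G}
    (hsi : ∀ Ω₁ Ω₂ : Set G, Ω₁.Finite → Ω₂.Finite → (∀ d ∈ Δ, ∀ w ∈ Ω₁, d * w ∉ Ω₂) →
      ∀ x₁ ∈ X, ∀ x₂ ∈ X, ∃ z ∈ X, (∀ w ∈ Ω₁, z w = x₁ w) ∧ (∀ w ∈ Ω₂, z w = x₂ w))
    (Ω₁ Ω₂ : Set G) (hd : ∀ d ∈ Δ, ∀ w ∈ Ω₁, d * w ∉ Ω₂) (x₁ : G → A) (hx₁ : x₁ ∈ X)
    (x₂ : G → A) (hx₂ : x₂ ∈ X) :
    ∃ z ∈ X, (∀ w ∈ Ω₁, z w = x₁ w) ∧ (∀ w ∈ Ω₂, z w = x₂ w) := by
  classical
  let _ : TopologicalSpace A := ⊥
  have _ : DiscreteTopology A := ⟨rfl⟩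
  have hc : IsCompact X := (hX.closed hE).isCompact
  let C : Finset G → Set (G → A) := fun T => {z | (∀ w ∈ T, w ∈ Ω₁ → z w = x₁ w) ∧
    (∀ w ∈ T, w ∈ Ω₂ → z w = x₂ w)}
  have hC : ∀ T, IsClosed (C T) := by
    intro T
    have : C T = (⋂ w ∈ T, ⋂ _ : w ∈ Ω₁, (fun z : G → A => z w) ⁻¹' {x₁ w}) ∩
        (⋂ w ∈ T, ⋂ _ : w ∈ Ω₂, (fun z : G → A => z w) ⁻¹' {x₂ w}) := by
      ext z
      simp [C]
    rw [this]
    refine IsClosed.inter ?_ ?_
    · exact isClosed_iInter fun w => isClosed_iInter fun _ => isClosed_iInter fun _ =>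
        (isClosed_discrete _).preimage (continuous_apply w)
    · exact isClosed_iInter fun w => isClosed_iInter fun _ => isClosed_iInter fun _ =>
        (isClosed_discrete _).preimage (continuous_apply w)
  have hne : (X ∩ ⋂ T, C T).Nonempty := by
    refine hc.inter_iInter_nonempty C hC fun S => ?_
    let T : Finset G := S.biUnion id
    obtain ⟨z, hz, hz1, hz2⟩ := hsi {w | w ∈ T ∧ w ∈ Ω₁} {w | w ∈ T ∧ w ∈ Ω₂}
      (T.finite_toSet.subset fun w hw => hw.1) (T.finite_toSet.subset fun w hw => hw.1)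
      (fun d hdΔ w hw hdw => hd d hdΔ w hw.2 hdw.2) x₁ hx₁ x₂ hx₂
    refine ⟨z, hz, ?_⟩
    simp only [Set.mem_iInter]
    intro T' hT'
    refine ⟨fun w hw hw1 => hz1 w ⟨?_, hw1⟩, fun w hw hw1 => hz2 w ⟨?_, hw1⟩⟩
    · exact Finset.mem_biUnion.2 ⟨T', hT', hw⟩
    · exact Finset.mem_biUnion.2 ⟨T', hT', hw⟩
  obtain ⟨z, hz, hzC⟩ := hne
  rw [Set.mem_iInter] at hzC
  refine ⟨z, hz, fun w hw => ?_, fun w hw => ?_⟩
  · exact (hzC {w}).1 w (Finset.mem_singleton_self w) hw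
  · exact (hzC {w}).2 w (Finset.mem_singleton_self w) hw

theorem range_fin {G A : Type} [Group G] (y : G → A) (N : Subgroup G) (hN : N.FiniteIndex)
    (h : ∀ n ∈ N, ∀ g, y (g * n) = y g) : (Set.range fun g => sh g y).Finite := by
  have hf : Finite (G ⧸ N) := inferInstance
  refine (Set.finite_range (fun q : G ⧸ N => sh (Quotient.out q) y)).subset ?_
  rintro _ ⟨g, rfl⟩
  refine ⟨(g : G ⧸ N), ?_⟩
  have h1 : (Quotient.out (g : G ⧸ N))⁻¹ * g ∈ N := by
    rw [← QuotientGroup.eq]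
    exact Quotient.out_eq _
  funext a
  show y (a * Quotient.out (g : G ⧸ N)) = y (a * g)
  rw [← h _ h1 (a * Quotient.out (g : G ⧸ N)), mul_assoc, mul_inv_cancel_left]

/-- for residually finite groups existence of periodic points implies density. -/
theorem DP_of_exists {G : Type} [Group G]
    (hrf : ∀ t : G, t ≠ 1 → ∃ N : Subgroup G, N.FiniteIndex ∧ t ∉ N)
    (hex : ∀ (A : Type) [Finite A] (X : Set (G → A)) (E : Set G), E.Finite → LocOn E X →
      SIrr X → X.Nonempty → ∃ y ∈ X, (Set.range (fun g => sh g y)).Finite) : DP G := by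
  classical
  intro A _ X E₀ hE₀ hX₀ hSI x hx F hF
  obtain ⟨y, hy, hyp⟩ := hex A X E₀ hE₀ hX₀ hSI ⟨x, hx⟩
  obtain ⟨Δ, hΔ, hsi⟩ := hSI
  let E : Set G := E₀ ∪ {1}
  have hE : E.Finite := hE₀.union (Set.finite_singleton 1)
  have h1E : (1 : G) ∈ E := Or.inr rfl
  have hX : LocOn E X := hX₀.mono Set.subset_union_left
  -- the ball
  let Q : Set G := Set.image2 (fun d f => d * f) Δ F ∪ F
  have hQ : Q.Finite := (hΔ.image2 _ hF).union hF
  obtain ⟨w, hw, hw1, hw2⟩ := si_inf hE hX hsi F Qᶜ (by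
    intro d hd f hf hn
    exact hn (Or.inl ⟨d, hd, f, hf, rfl⟩)) x hx y hy
  -- the subgroup
  let T : Set G := (Set.image (fun t : G × G × G × G => t.1⁻¹ * t.2.1 * t.2.2.1⁻¹ * t.2.2.2)
    (Q ×ˢ (E ×ˢ (E ×ˢ Q)))) \ {1}
  have hT : T.Finite := ((hQ.prod (hE.prod (hE.prod hQ))).image _).subset Set.sdiff_subset
  have : Finite T := hT
  have h2 : ∀ t : T, ∃ N : Subgroup G, N.FiniteIndex ∧ (t : G) ∉ N := fun t => hrf t t.2.2
  choose M hM1 hM2 using h2
  have ha : (FP.stab y).FiniteIndex := FP.stab_fi y hyp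
  have hb : (⨅ t, M t).FiniteIndex := Subgroup.finiteIndex_iInf hM1
  let N : Subgroup G := FP.stab y ⊓ (⨅ t, M t)
  have hN : N.FiniteIndex := inferInstanceAs (FP.stab y ⊓ (⨅ t, M t)).FiniteIndex
  have hNy : ∀ n ∈ N, ∀ g, y (g * n) = y g := fun n hn g => (Subgroup.mem_inf.1 hn).1 g
  have hNT : ∀ q ∈ Q, ∀ e ∈ E, ∀ e' ∈ E, ∀ q' ∈ Q, q⁻¹ * e * e'⁻¹ * q' ∈ N →
      q⁻¹ * e * e'⁻¹ * q' = 1 := by
    intro q hq e he e' he' q' hq' hn
    by_contra hne
    have ht : q⁻¹ * e * e'⁻¹ * q' ∈ T := ⟨⟨(q, e, e', q'), ⟨hq, he, he', hq'⟩, rfl⟩, hne⟩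
    exact hM2 ⟨_, ht⟩ (Subgroup.mem_iInf.1 (Subgroup.mem_inf.1 hn).2 ⟨_, ht⟩)
  -- uniqueness
  have huni : ∀ g n n', n ∈ N → n' ∈ N → ∀ e ∈ E, ∀ e' ∈ E, e * g * n ∈ Q → e' * g * n' ∈ Q →
      n = n' := by
    intro g n n' hn hn' e he e' he' hq hq'
    have h3 := hNT _ hq e he e' he' _ hq'
    have h4 : (e * g * n)⁻¹ * e * e'⁻¹ * (e' * g * n') = n⁻¹ * n' := by group
    rw [h4] at h3
    have h5 := h3 (N.mul_mem (N.inv_mem hn) hn')
    exact inv_mul_eq_one.1 h5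
  -- the point
  let z : G → A := fun g => if h : ∃ n ∈ N, g * n ∈ Q then w (g * h.choose) else y g
  have hz1 : ∀ g n, n ∈ N → g * n ∈ Q → z g = w (g * n) := by
    intro g n hn hq
    have h : ∃ n ∈ N, g * n ∈ Q := ⟨n, hn, hq⟩
    have h3 : z g = w (g * h.choose) := dif_pos h
    rw [h3]
    have h4 := huni g h.choose n h.choose_spec.1 hn 1 h1E 1 h1E
      (by rw [one_mul]; exact h.choose_spec.2) (by rw [one_mul]; exact hq)
    rw [h4]
  have hz2 : ∀ g, (∀ n ∈ N, g * n ∉ Q) → z g = y g := by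
    intro g h
    exact dif_neg (by push Not; exact h)
  have hzX : z ∈ X := by
    refine hX.2 z fun g => ?_
    by_cases hc : ∃ e ∈ E, ∃ n ∈ N, e * g * n ∈ Q
    · obtain ⟨e₀, he₀, n₀, hn₀, hq₀⟩ := hc
      refine ⟨sh (g * n₀) w, hX.1 w hw _, fun e he => ?_⟩
      show w (e * (g * n₀)) = z (e * g)
      by_cases hc2 : ∃ n ∈ N, e * g * n ∈ Q
      · obtain ⟨n, hn, hq⟩ := hc2
        have h3 := huni g n n₀ hn hn₀ e he e₀ he₀ hq hq₀
        rw [hz1 (e * g) n hn hq, h3, mul_assoc]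
      · push Not at hc2
        rw [hz2 _ hc2, ← mul_assoc, hw2 (e * g * n₀) (hc2 n₀ hn₀)]
        exact hNy n₀ hn₀ _
    · push Not at hc
      refine ⟨sh g y, hX.1 y hy _, fun e he => ?_⟩
      rw [hz2 _ (hc e he)]
      rfl
  refine ⟨z, hzX, range_fin z N hN ?_, ?_⟩
  · intro n hn g
    by_cases hc : ∃ m ∈ N, g * m ∈ Q
    · obtain ⟨m, hm, hq⟩ := hc
      rw [hz1 g m hm hq, hz1 (g * n) (n⁻¹ * m) (N.mul_mem (N.inv_mem hn) hm)
        (by rw [mul_assoc, mul_inv_cancel_left]; exact hq), mul_assoc, mul_inv_cancel_left]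
    · push Not at hc
      rw [hz2 g hc, hz2 (g * n), hNy n hn]
      intro m hm
      rw [mul_assoc]
      exact hc _ (N.mul_mem hn hm)
  · intro h hh
    rw [hz1 h 1 N.one_mem (by rw [mul_one]; exact Or.inr hh), mul_one]
    exact hw1 h hh

/-- folding. -/
theorem fold {G A : Type} [Group G] {E : Set G} {X : Set (G → A)} (hX : LocOn E X)
    (l : G → ℤ) (hl : ∀ a b, l (a * b) = l a + l b) (t : G) (ht : ∀ g, t * g = g * t)
    (hlt : l t = 1) (m : ℕ) (hE : ∀ e ∈ E, |l e| ≤ m) (p : ℕ) (hp : 2 * m < p)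
    (z : G → A) (hz : z ∈ X) (hzp : ∀ g, 0 ≤ l g → l g ≤ 2 * m → z (g * t ^ p) = z g) :
    (fun g => z (g * t ^ (-((p : ℤ) * (l g / p))))) ∈ X := by
  have hlz : ∀ k : ℤ, l (t ^ k) = k := by
    have h1 : l 1 = 0 := by
      have := hl 1 1
      rw [mul_one] at this
      omega
    have hinv : ∀ g, l g⁻¹ = - l g := by
      intro g
      have := hl g g⁻¹
      rw [mul_inv_cancel, h1] at this
      omega
    have hn : ∀ k : ℕ, l (t ^ k) = k := by
      intro k
      induction k with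
      | zero => simpa using h1
      | succ k ih => rw [pow_succ, hl, ih, hlt]; push_cast; ring
    intro k
    obtain ⟨n, rfl | rfl⟩ := k.eq_nat_or_neg
    · rw [zpow_natCast, hn]
    · rw [zpow_neg, zpow_natCast, hinv, hn]
  have hp0 : (0 : ℤ) < p := by omega
  refine hX.2 _ fun g => ?_
  obtain ⟨q, hq⟩ : ∃ q, q = (l g - m) / (p : ℤ) := ⟨_, rfl⟩
  obtain ⟨r, hr⟩ : ∃ r, r = (l g - m) % (p : ℤ) := ⟨_, rfl⟩
  have hqr : (p : ℤ) * q + r = l g - m := by
    rw [hq, hr]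
    exact Int.mul_ediv_add_emod _ _
  have hr0 : 0 ≤ r := hr ▸ Int.emod_nonneg _ hp0.ne'
  have hr1 : r < p := hr ▸ Int.emod_lt_of_pos _ hp0
  refine ⟨sh (g * t ^ (-((p : ℤ) * q))) z, hX.1 z hz _, fun e he => ?_⟩
  have he1 := abs_le.1 (hE e he)
  show z (e * (g * t ^ (-((p : ℤ) * q)))) = z (e * g * t ^ (-((p : ℤ) * (l (e * g) / p))))
  rw [← mul_assoc]
  have h2 : l (e * g) = (l e + m + r) + p * q := by
    rw [hl]; linarith
  by_cases hc : l e + m + r < p
  · have h3 : l (e * g) / p = q := by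
      rw [h2, Int.add_mul_ediv_left _ _ hp0.ne', Int.ediv_eq_zero_of_lt (by linarith) hc, zero_add]
    rw [h3]
  · push Not at hc
    have h3 : l (e * g) / p = q + 1 := by
      have h4 : l (e * g) = (l e + m + r - p) + p * (q + 1) := by rw [h2]; ring
      rw [h4, Int.add_mul_ediv_left _ _ hp0.ne', Int.ediv_eq_zero_of_lt (by linarith)
        (by linarith), zero_add]
    rw [h3]
    have h5 : e * g * t ^ (-((p : ℤ) * q)) = e * g * t ^ (-((p : ℤ) * (q + 1))) * t ^ p := by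
      rw [mul_assoc (e * g), ← zpow_natCast t p, ← zpow_add]
      congr 2
      ring
    rw [h5]
    apply hzp
    · rw [hl, hlz, h2]
      linarith
    · rw [hl, hlz, h2]
      linarith

end Pool.Agent.TH88.SI
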