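import Mathlib
import Pool.Agent.TH88.SI.Sub

/-!
# `ℤ²`
-/

set_option autoImplicit false
set_option linter.unusedSectionVars false

namespace Pool.Agent.TH88.SI

theorem fold_per {G A : Type} [Group G] (l : G → ℤ) (hl : ∀ a b, l (a * b) = l a + l b) (t : G)
    (hlt : l t = 1) (p : ℕ) (hp : 0 < p) (z : G → A) (g : G) :
    (fun g => z (g * t ^ (-((p : ℤ) * (l g / p))))) (g * t ^ p) =
      (fun g => z (g * t ^ (-((p : ℤ) * (l g / p))))) g := by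
  have hn : ∀ k : ℕ, l (t ^ k) = k := by
    have h1 : l 1 = 0 := by
      have := hl 1 1
      rw [mul_one] at this
      omega
    intro k
    induction k with
    | zero => simpa using h1
    | succ k ih => rw [pow_succ, hl, ih, hlt]; push_cast; ring
  show z (g * t ^ p * t ^ (-((p : ℤ) * (l (g * t ^ p) / p)))) = z (g * t ^ (-((p : ℤ) * (l g / p))))
  have hp0 : (p : ℤ) ≠ 0 := by exact_mod_cast hp.ne'
  have h2 : l (g * t ^ p) / p = l g / p + 1 := by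
    rw [hl, hn]
    have : l g + (p : ℤ) = l g + p * 1 := by ring
    rw [this, Int.add_mul_ediv_left _ _ hp0]
  rw [h2, mul_assoc, ← zpow_natCast t p, ← zpow_add]
  congr 3
  ring

/-- strongly irreducible SFTs over `ℤ²` have periodic points. -/
theorem exists_per {G A : Type} [CommGroup G] [Finite A] (l₁ l₂ : G → ℤ)
    (hl₁ : ∀ a b, l₁ (a * b) = l₁ a + l₁ b) (hl₂ : ∀ a b, l₂ (a * b) = l₂ a + l₂ b)
    (t₁ t₂ : G) (h11 : l₁ t₁ = 1) (h21 : l₂ t₁ = 0) (h22 : l₂ t₂ = 1)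
    (hgen : ∀ g, g = t₁ ^ (l₁ g) * t₂ ^ (l₂ g)) (X : Set (G → A)) (E : Set G) (hE : E.Finite)
    (hX : LocOn E X) (hSI : SIrr X) (hne : X.Nonempty) :
    ∃ y ∈ X, (Set.range (fun g => sh g y)).Finite := by
  obtain ⟨Δ, hΔ, hsi⟩ := hSI
  obtain ⟨x, hx⟩ := hne
  obtain ⟨m, hm⟩ : ∃ m : ℕ, ∀ e ∈ E ∪ Δ, |l₁ e| ≤ m ∧ |l₂ e| ≤ m := by
    obtain ⟨a, ha⟩ := ((hE.union hΔ).image (fun e => (l₁ e).natAbs + (l₂ e).natAbs)).bddAbove
    refine ⟨a, fun e he => ?_⟩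
    have h1 : (l₁ e).natAbs + (l₂ e).natAbs ≤ a := ha ⟨e, he, rfl⟩
    rw [Int.abs_eq_natAbs, Int.abs_eq_natAbs]
    constructor <;> omega
  have hl1pow : ∀ k : ℕ, l₁ (t₁ ^ k) = k := by
    have h1 : l₁ 1 = 0 := by
      have := hl₁ 1 1
      rw [mul_one] at this
      omega
    intro k
    induction k with
    | zero => simpa using h1
    | succ k ih => rw [pow_succ, hl₁, ih, h11]; push_cast; ring
  have hl2pow : ∀ k : ℕ, l₂ (t₁ ^ k) = 0 := by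
    have h1 : l₂ 1 = 0 := by
      have := hl₂ 1 1
      rw [mul_one] at this
      omega
    intro k
    induction k with
    | zero => simpa using h1
    | succ k ih => rw [pow_succ, hl₂, ih, h21]; ring
  -- step 1
  obtain ⟨p, hp⟩ : ∃ p : ℕ, p = 3 * m + 1 := ⟨_, rfl⟩
  obtain ⟨z, hz, hz1, hz2⟩ := si_inf hE hX hsi {g | 0 ≤ l₁ g ∧ l₁ g ≤ 2 * m}
    {g | (p : ℤ) ≤ l₁ g} (by
      rintro d hd w ⟨hw0, hw1⟩ hw2
      have h1 := abs_le.1 (hm d (Or.inr hd)).1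
      have h2 : (p : ℤ) ≤ l₁ (d * w) := hw2
      rw [hl₁] at h2
      have hp' : (p : ℤ) = 3 * m + 1 := by rw [hp]; push_cast; ring
      linarith [h1.2]) x hx (sh (t₁ ^ p)⁻¹ x) (hX.1 x hx _)
  have hzp : ∀ g, 0 ≤ l₁ g → l₁ g ≤ 2 * m → z (g * t₁ ^ p) = z g := by
    intro g h1 h2
    rw [hz1 g ⟨h1, h2⟩, hz2 (g * t₁ ^ p) (by
      show (p : ℤ) ≤ l₁ (g * t₁ ^ p)
      rw [hl₁, hl1pow]
      linarith)]
    show x (g * t₁ ^ p * (t₁ ^ p)⁻¹) = x g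
    rw [mul_inv_cancel_right]
  have hy1 := fold hX l₁ hl₁ t₁ (fun g => mul_comm _ _) h11 m (fun e he => (hm e (Or.inl he)).1) p
    (by omega) z hz hzp
  have hy1p := fold_per l₁ hl₁ t₁ h11 p (by omega) z
  generalize (fun g => z (g * t₁ ^ (-((p : ℤ) * (l₁ g / p))))) = y₁ at hy1 hy1p
  -- step 2
  have hfin : ∃ n₁ n₂ : ℕ, n₁ < n₂ ∧ ∀ (i : Fin p) (s : Fin (2 * m + 1)),
      y₁ (t₁ ^ (i : ℕ) * t₂ ^ (n₁ * (2 * m + 1) + s)) =
        y₁ (t₁ ^ (i : ℕ) * t₂ ^ (n₂ * (2 * m + 1) + s)) := by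
    obtain ⟨a, b, hab, he⟩ := Finite.exists_ne_map_eq_of_infinite
      (fun (n : ℕ) (i : Fin p) (s : Fin (2 * m + 1)) =>
        y₁ (t₁ ^ (i : ℕ) * t₂ ^ (n * (2 * m + 1) + s)))
    rcases lt_or_gt_of_ne hab with h | h
    · exact ⟨a, b, h, fun i s => congrFun (congrFun he i) s⟩
    · exact ⟨b, a, h, fun i s => (congrFun (congrFun he i) s).symm⟩
  obtain ⟨n₁, n₂, hn, hb⟩ := hfin
  obtain ⟨p', hp'⟩ : ∃ p' : ℕ, p' = (n₂ - n₁) * (2 * m + 1) := ⟨_, rfl⟩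
  have hp'm : 2 * m < p' := by
    rw [hp']
    have : 1 ≤ n₂ - n₁ := by omega
    calc 2 * m < 1 * (2 * m + 1) := by omega
      _ ≤ _ := Nat.mul_le_mul_right _ this
  have hp'n : n₁ * (2 * m + 1) + p' = n₂ * (2 * m + 1) := by
    rw [hp', ← add_mul]
    congr 1
    omega
  -- reduction modulo `t₁ ^ p`
  have hper1 : ∀ (k : ℤ) (g : G), y₁ (g * (t₁ ^ p) ^ k) = y₁ g := by
    intro k g
    have h1 : t₁ ^ p ∈ FP.stab y₁ := hy1p
    exact (FP.stab y₁).zpow_mem h1 k g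
  have hred : ∀ (a : ℤ) (h : G), ∃ i : Fin p, y₁ (t₁ ^ a * h) = y₁ (t₁ ^ (i : ℕ) * h) ∧
      t₁ ^ a = t₁ ^ (i : ℕ) * (t₁ ^ p) ^ (a / p) := by
    intro a h
    have hp0 : (0 : ℤ) < p := by omega
    have h0 := Int.emod_nonneg a hp0.ne'
    have h1 := Int.emod_lt_of_pos a hp0
    have h2 : t₁ ^ a = t₁ ^ (a % p).toNat * (t₁ ^ p) ^ (a / p) := by
      rw [← zpow_natCast t₁ (a % p).toNat, ← zpow_natCast t₁ p, ← zpow_mul, ← zpow_add,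
        Int.toNat_of_nonneg h0, Int.emod_add_mul_ediv]
    refine ⟨⟨(a % p).toNat, by omega⟩, ?_, h2⟩
    rw [h2, mul_assoc, mul_comm _ h, ← mul_assoc, hper1]
  have hy2 : sh (t₂ ^ (n₁ * (2 * m + 1))) y₁ ∈ X := hX.1 _ hy1 _
  have hyp : ∀ g, 0 ≤ l₂ g → l₂ g ≤ 2 * m →
      (sh (t₂ ^ (n₁ * (2 * m + 1))) y₁) (g * t₂ ^ p') = (sh (t₂ ^ (n₁ * (2 * m + 1))) y₁) g := by
    intro g h1 h2
    obtain ⟨s, hs⟩ := Int.eq_ofNat_of_zero_le h1
    have hs1 : s < 2 * m + 1 := by omega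
    have hg := hgen g
    rw [hs] at hg
    have hg' : g = t₁ ^ (l₁ g) * t₂ ^ s := by
      rw [← zpow_natCast t₂ s]
      exact hg
    show y₁ (g * t₂ ^ p' * t₂ ^ (n₁ * (2 * m + 1))) = y₁ (g * t₂ ^ (n₁ * (2 * m + 1)))
    have e1 : g * t₂ ^ p' * t₂ ^ (n₁ * (2 * m + 1)) =
        t₁ ^ (l₁ g) * t₂ ^ (n₂ * (2 * m + 1) + s) := by
      conv_lhs => rw [hg']
      rw [mul_assoc, mul_assoc, ← pow_add, ← pow_add, ← hp'n]
      congr 2
      ring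
    have e2 : g * t₂ ^ (n₁ * (2 * m + 1)) = t₁ ^ (l₁ g) * t₂ ^ (n₁ * (2 * m + 1) + s) := by
      conv_lhs => rw [hg']
      rw [mul_assoc, ← pow_add]
      congr 2
      ring
    rw [e1, e2]
    have hp0 : (0 : ℤ) < p := by omega
    have h0 := Int.emod_nonneg (l₁ g) hp0.ne'
    have h1' := Int.emod_lt_of_pos (l₁ g) hp0
    have h3 : t₁ ^ (l₁ g) = t₁ ^ (l₁ g % p).toNat * (t₁ ^ p) ^ (l₁ g / p) := by
      rw [← zpow_natCast t₁ (l₁ g % p).toNat, ← zpow_natCast t₁ p, ← zpow_mul, ← zpow_add,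
        Int.toNat_of_nonneg h0, Int.emod_add_mul_ediv]
    have h4 : ∀ h : G, y₁ (t₁ ^ (l₁ g) * h) = y₁ (t₁ ^ (l₁ g % p).toNat * h) := by
      intro h
      rw [h3, mul_assoc, mul_comm _ h, ← mul_assoc, hper1]
    rw [h4, h4]
    exact (hb ⟨(l₁ g % p).toNat, by omega⟩ ⟨s, hs1⟩).symm
  have hy3 := fold hX l₂ hl₂ t₂ (fun g => mul_comm _ _) h22 m (fun e he => (hm e (Or.inl he)).2) p'
    hp'm _ hy2 hyp
  have hy3p := fold_per l₂ hl₂ t₂ h22 p' (by omega) (sh (t₂ ^ (n₁ * (2 * m + 1))) y₁)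
  have hy3q : ∀ g, (fun g => (sh (t₂ ^ (n₁ * (2 * m + 1))) y₁)
      (g * t₂ ^ (-((p' : ℤ) * (l₂ g / p'))))) (g * t₁ ^ p) =
      (fun g => (sh (t₂ ^ (n₁ * (2 * m + 1))) y₁) (g * t₂ ^ (-((p' : ℤ) * (l₂ g / p'))))) g := by
    intro g
    show y₁ (g * t₁ ^ p * t₂ ^ (-((p' : ℤ) * (l₂ (g * t₁ ^ p) / p'))) * t₂ ^ (n₁ * (2 * m + 1))) =
      y₁ (g * t₂ ^ (-((p' : ℤ) * (l₂ g / p'))) * t₂ ^ (n₁ * (2 * m + 1)))
    rw [hl₂, hl2pow, add_zero]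
    have := hy1p (g * t₂ ^ (-((p' : ℤ) * (l₂ g / p'))) * t₂ ^ (n₁ * (2 * m + 1)))
    rw [← this]
    congr 1
    simp only [mul_assoc, mul_comm, mul_left_comm]
  generalize (fun g => (sh (t₂ ^ (n₁ * (2 * m + 1))) y₁)
      (g * t₂ ^ (-((p' : ℤ) * (l₂ g / p'))))) = y₃ at hy3 hy3p hy3q
  refine ⟨y₃, hy3, ?_⟩
  refine (Set.finite_range (fun ij : Fin p × Fin p' => sh (t₁ ^ (ij.1 : ℕ) * t₂ ^ (ij.2 : ℕ)) y₃)).subset ?_
  rintro _ ⟨g, rfl⟩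
  have hp0 : (0 : ℤ) < p := by omega
  have hp0' : (0 : ℤ) < p' := by omega
  have h0 := Int.emod_nonneg (l₁ g) hp0.ne'
  have h1 := Int.emod_lt_of_pos (l₁ g) hp0
  have h0' := Int.emod_nonneg (l₂ g) hp0'.ne'
  have h1' := Int.emod_lt_of_pos (l₂ g) hp0'
  refine ⟨(⟨(l₁ g % p).toNat, by omega⟩, ⟨(l₂ g % p').toNat, by omega⟩), ?_⟩
  have h3 : t₁ ^ (l₁ g) = t₁ ^ (l₁ g % p).toNat * (t₁ ^ p) ^ (l₁ g / p) := by
    rw [← zpow_natCast t₁ (l₁ g % p).toNat, ← zpow_natCast t₁ p, ← zpow_mul, ← zpow_add,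
      Int.toNat_of_nonneg h0, Int.emod_add_mul_ediv]
  have h3' : t₂ ^ (l₂ g) = t₂ ^ (l₂ g % p').toNat * (t₂ ^ p') ^ (l₂ g / p') := by
    rw [← zpow_natCast t₂ (l₂ g % p').toNat, ← zpow_natCast t₂ p', ← zpow_mul, ← zpow_add,
      Int.toNat_of_nonneg h0', Int.emod_add_mul_ediv]
  have hs1 : t₁ ^ p ∈ FP.stab y₃ := hy3q
  have hs2 : t₂ ^ p' ∈ FP.stab y₃ := hy3p
  have hs3 := (FP.stab y₃).mul_mem ((FP.stab y₃).zpow_mem hs1 (l₁ g / p))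
    ((FP.stab y₃).zpow_mem hs2 (l₂ g / p'))
  funext h
  show y₃ (h * (t₁ ^ (l₁ g % p).toNat * t₂ ^ (l₂ g % p').toNat)) = y₃ (h * g)
  rw [← hs3 (h * (t₁ ^ (l₁ g % p).toNat * t₂ ^ (l₂ g % p').toNat))]
  congr 1
  conv_rhs => rw [hgen g, h3, h3']
  simp only [mul_assoc, mul_comm, mul_left_comm]

theorem fi_comap {G H : Type} [Group G] [Group H] (f : G →* H) (N : Subgroup H)
    (hN : N.FiniteIndex) : (N.comap f).FiniteIndex := by
  refine ⟨?_⟩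
  rw [Subgroup.index_comap]
  exact (inferInstance : (N.subgroupOf f.range).FiniteIndex).index_ne_zero

theorem DP_Z : DP (Multiplicative ℤ) :=
  DP_equiv (FreeGroup.mulEquivIntOfUnique (α := Unit)) (DP_free Unit)

theorem DP_Z2 : DP (Multiplicative (ℤ × ℤ)) := by
  refine DP_of_exists ?_ ?_
  · intro t ht
    by_cases h1 : (Multiplicative.toAdd t).1 = 0
    · have h2 : (AddMonoidHom.toMultiplicative (AddMonoidHom.snd ℤ ℤ)) t ≠ 1 := by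
        intro h
        apply ht
        have h3 : (Multiplicative.toAdd t).2 = 0 := h
        exact Prod.ext h1 h3
      obtain ⟨N, hN, hN2⟩ := FP.rf_of_DP DP_Z _ h2
      exact ⟨N.comap (AddMonoidHom.toMultiplicative (AddMonoidHom.snd ℤ ℤ)), fi_comap _ N hN, hN2⟩
    · have h2 : (AddMonoidHom.toMultiplicative (AddMonoidHom.fst ℤ ℤ)) t ≠ 1 := by
        intro h
        exact h1 h
      obtain ⟨N, hN, hN2⟩ := FP.rf_of_DP DP_Z _ h2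
      exact ⟨N.comap (AddMonoidHom.toMultiplicative (AddMonoidHom.fst ℤ ℤ)), fi_comap _ N hN, hN2⟩
  · intro A _ X E hE hX hSI hne
    refine exists_per (fun g => (Multiplicative.toAdd g).1) (fun g => (Multiplicative.toAdd g).2)
      (fun _ _ => rfl) (fun _ _ => rfl) (Multiplicative.ofAdd (1, 0)) (Multiplicative.ofAdd (0, 1))
      rfl rfl rfl ?_ X E hE hX hSI hne
    intro g
    apply Multiplicative.toAdd.injective
    rw [toAdd_mul, toAdd_zpow, toAdd_zpow]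
    ext <;> simp

end Pool.Agent.TH88.SI
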