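import Mathlib
import Pool.Agent.TH88.SI.Transfer

/-!
# Left shift conventions, density of periodic points, and surjunctivity
-/

set_option autoImplicit false
set_option linter.unusedSectionVars false

namespace Pool.Agent.TH88.SI

theorem dense_left {G : Type} [Group G] (hG : DP G) (A : Type) [Finite A] (X : Set (G → A))
    (hSFT : ∃ (D : Finset G) (P : Set (D → A)),
      X = {x | ∀ g : G, (fun d : D => x (g * d.1)) ∈ P})
    (hSI : ∃ Δ : Finset G, ∀ Ω₁ Ω₂ : Finset G, (∀ w ∈ Ω₁, ∀ d ∈ Δ, w * d ∉ Ω₂) →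
      ∀ x₁ ∈ X, ∀ x₂ ∈ X, ∃ z ∈ X, (∀ w ∈ Ω₁, z w = x₁ w) ∧ (∀ w ∈ Ω₂, z w = x₂ w)) :
    ∀ x ∈ X, ∀ F : Finset G, ∃ y ∈ X,
      (Set.range (fun g : G => fun h : G => y (g⁻¹ * h))).Finite ∧ ∀ h ∈ F, y h = x h := by
  classical
  obtain ⟨D, P, hP⟩ := hSFT
  obtain ⟨Δ, hΔ⟩ := hSI
  intro x hx F
  have hmem : ∀ z : G → A, z ∈ X ↔ ∀ g : G, (fun d : D => z (g * d.1)) ∈ P := by
    intro z
    rw [hP]
    rfl
  have hLoc : LocOn (G := G) (A := A) ((fun g : G => g⁻¹) '' (D : Set G))
      {z | (fun g => z g⁻¹) ∈ X} := by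
    refine ⟨fun z hz g => ?_, fun z hz => ?_⟩
    · show (fun h => z (h⁻¹ * g)) ∈ X
      have hz' : (fun g => z g⁻¹) ∈ X := hz
      rw [hmem] at hz' ⊢
      intro g'
      have := hz' (g⁻¹ * g')
      convert this using 2 with d
      simp [mul_assoc]
    · show (fun g => z g⁻¹) ∈ X
      rw [hmem]
      intro g
      obtain ⟨x', hx', h1⟩ := hz g⁻¹
      have hx2 : (fun g => x' g⁻¹) ∈ X := hx'
      rw [hmem] at hx2
      have h2 := hx2 1
      convert h2 using 2 with d
      have h3 := h1 (d.1)⁻¹ ⟨d.1, d.2, rfl⟩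
      show z (g * d.1)⁻¹ = x' (1 * d.1)⁻¹
      rw [one_mul, h3, mul_inv_rev]
  have hS : SIrr (G := G) (A := A) {z | (fun g => z g⁻¹) ∈ X} := by
    refine ⟨(fun g : G => g⁻¹) '' (Δ : Set G), (Δ.finite_toSet).image _, ?_⟩
    intro Ω₁ Ω₂ h1 h2 hd x₁ hx₁ x₂ hx₂
    obtain ⟨z, hz, hz1, hz2⟩ := hΔ (h1.toFinset.image (fun g => g⁻¹))
      (h2.toFinset.image (fun g => g⁻¹)) (by
        intro w hw d hdΔ hwd
        obtain ⟨w', hw', rfl⟩ := Finset.mem_image.1 hw
        obtain ⟨u, hu, hue⟩ := Finset.mem_image.1 hwd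
        rw [Set.Finite.mem_toFinset] at hw' hu
        refine hd d⁻¹ ⟨d, hdΔ, rfl⟩ w' hw' ?_
        have : u = d⁻¹ * w' := by
          rw [← inv_inv u]
          have hue' : u⁻¹ = w'⁻¹ * d := hue
          rw [hue', mul_inv_rev, inv_inv]
        rw [← this]
        exact hu) _ hx₁ _ hx₂
    refine ⟨fun g => z g⁻¹, ?_, fun w hw => ?_, fun w hw => ?_⟩
    · show (fun g => z g⁻¹⁻¹) ∈ X
      simp only [inv_inv]
      exact hz
    · have := hz1 w⁻¹ (Finset.mem_image.2 ⟨w, (Set.Finite.mem_toFinset _).2 hw, rfl⟩)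
      show z w⁻¹ = x₁ w
      rw [this]
      show x₁ w⁻¹⁻¹ = x₁ w
      rw [inv_inv]
    · have := hz2 w⁻¹ (Finset.mem_image.2 ⟨w, (Set.Finite.mem_toFinset _).2 hw, rfl⟩)
      show z w⁻¹ = x₂ w
      rw [this]
      show x₂ w⁻¹⁻¹ = x₂ w
      rw [inv_inv]
  obtain ⟨y, hy, hy1, hy2⟩ := hG A _ _ ((D.finite_toSet).image _) hLoc hS (fun g => x g⁻¹)
    (by show (fun g => x g⁻¹⁻¹) ∈ X; simp only [inv_inv]; exact hx)
    ((fun g : G => g⁻¹) '' (F : Set G)) ((F.finite_toSet).image _)
  refine ⟨fun g => y g⁻¹, hy, ?_, ?_⟩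
  · refine (hy1.image (fun z : G → A => fun h : G => z h⁻¹)).subset ?_
    rintro _ ⟨g, rfl⟩
    refine ⟨sh g y, ⟨g, rfl⟩, ?_⟩
    funext h
    show y (h⁻¹ * g) = y (g⁻¹ * h)⁻¹
    rw [mul_inv_rev, inv_inv]
  · intro h hh
    have := hy2 h⁻¹ ⟨h, hh, rfl⟩
    show y h⁻¹ = x h
    rw [this, inv_inv]

/-- `X` closed, invariant, with dense periodic points, is surjunctive. -/
theorem surj_of_dense {G : Type} [Group G] (A : Type) [Finite A] [TopologicalSpace A]
    [DiscreteTopology A] (X : Set (G → A)) (hcl : IsClosed X)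
    (hd : ∀ x ∈ X, ∀ F : Finset G, ∃ y ∈ X,
      (Set.range (fun g : G => fun h : G => y (g⁻¹ * h))).Finite ∧ ∀ h ∈ F, y h = x h)
    (τ : X → X) (hτ : Continuous τ)
    (heq : ∀ (g : G) (x y : X), (∀ h, y.1 h = x.1 (g⁻¹ * h)) → ∀ h, (τ y).1 h = (τ x).1 (g⁻¹ * h))
    (hinj : Function.Injective τ) : Function.Surjective τ := by
  classical
  -- the range is closed
  have hXc : CompactSpace X := isCompact_iff_compactSpace.1 hcl.isCompact
  have hrc : IsClosed (Set.range τ) := (isCompact_range hτ).isClosed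
  -- periodic points are in the range
  have hper : ∀ y : X, (Set.range (fun g : G => fun h : G => y.1 (g⁻¹ * h))).Finite →
      y ∈ Set.range τ := by
    intro y hy
    let K : Subgroup G :=
      { carrier := {k | ∀ h, y.1 (k⁻¹ * h) = y.1 h}
        mul_mem' := by
          intro a b ha hb h
          rw [mul_inv_rev, mul_assoc, hb, ha]
        one_mem' := by intro h; simp
        inv_mem' := by
          intro a ha h
          have := ha (a * h)
          rw [inv_mul_cancel_left] at this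
          rw [inv_inv]
          exact this.symm }
    -- the coset space is finite
    have hfin : Finite (G ⧸ K) := by
      have hf : Finite (Set.range (fun g : G => fun h : G => y.1 (g⁻¹ * h))) := hy
      let f : G ⧸ K → Set.range (fun g : G => fun h : G => y.1 (g⁻¹ * h)) := fun q =>
        ⟨fun h => y.1 ((Quotient.out q)⁻¹ * h), ⟨_, rfl⟩⟩
      refine Finite.of_injective f ?_
      intro p q hpq
      have h1 : ∀ h, y.1 ((Quotient.out p)⁻¹ * h) = y.1 ((Quotient.out q)⁻¹ * h) := fun h =>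
        congrFun (congrArg Subtype.val hpq) h
      have h2 : (Quotient.out p)⁻¹ * (Quotient.out q) ∈ K := by
        intro h
        have := h1 (Quotient.out p * h)
        rw [inv_mul_cancel_left] at this
        rw [this, mul_inv_rev, inv_inv, mul_assoc]
      have h3 := (QuotientGroup.eq (s := K)).2 h2
      rw [← Quotient.out_eq p, ← Quotient.out_eq q]
      exact h3
    -- the fixed points of `K` in `X`
    let S : Set X := {z | ∀ k ∈ K, ∀ h, z.1 (k⁻¹ * h) = z.1 h}
    have hS : Finite S := by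
      let f : S → (G ⧸ K → A) := fun z q => z.1.1 ((Quotient.out q)⁻¹)
      refine Finite.of_injective f ?_
      intro z z' hzz
      apply Subtype.ext
      apply Subtype.ext
      funext h
      have key : ∀ w : S, w.1.1 h = f w (QuotientGroup.mk h⁻¹) := by
        intro w
        have h1 : h * Quotient.out (QuotientGroup.mk h⁻¹ : G ⧸ K) ∈ K := by
          have := (QuotientGroup.eq (s := K)).1
            (Quotient.out_eq (QuotientGroup.mk h⁻¹ : G ⧸ K)).symm
          rw [inv_inv] at this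
          exact this
        have h2 := w.2 _ h1 h
        rw [mul_inv_rev, mul_assoc, inv_mul_cancel, mul_one] at h2
        exact h2.symm
      rw [key z, key z', hzz]
    have hτS : ∀ z ∈ S, τ z ∈ S := by
      intro z hz k hk h
      exact (heq k z z (fun h => (hz k hk h).symm) h).symm
    let f : S → S := fun z => ⟨τ z.1, hτS z.1 z.2⟩
    have hf : Function.Injective f := by
      intro a b hab
      exact Subtype.ext (hinj (congrArg Subtype.val hab))
    obtain ⟨z, hz⟩ := (Finite.injective_iff_surjective.1 hf) ⟨y, fun k hk h => hk h⟩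
    exact ⟨z.1, congrArg Subtype.val hz⟩
  intro x
  have hx : x ∈ closure (Set.range τ) := by
    rw [mem_closure_iff]
    intro U hU hxU
    rw [isOpen_induced_iff] at hU
    obtain ⟨U', hU', rfl⟩ := hU
    obtain ⟨F, u, hu, hsub⟩ := isOpen_pi_iff.1 hU' x.1 hxU
    obtain ⟨y, hyX, hy1, hy2⟩ := hd x.1 x.2 F
    refine ⟨⟨y, hyX⟩, ?_, hper ⟨y, hyX⟩ hy1⟩
    apply hsub
    intro h hh
    show y h ∈ u h
    rw [hy2 h hh]
    exact (hu h hh).2
  rw [hrc.closure_eq] at hx
  exact hx

/-- an SFT is closed. -/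
theorem closed_of_sft {G : Type} [Group G] (A : Type) [TopologicalSpace A]
    [DiscreteTopology A] [Finite A] (X : Set (G → A))
    (hSFT : ∃ (D : Finset G) (P : Set (D → A)),
      X = {x | ∀ g : G, (fun d : D => x (g * d.1)) ∈ P}) : IsClosed X := by
  obtain ⟨D, P, rfl⟩ := hSFT
  have : {x : G → A | ∀ g : G, (fun d : D => x (g * d.1)) ∈ P} =
      ⋂ g : G, (fun x : G → A => fun d : D => x (g * d.1)) ⁻¹' P := by
    ext x
    simp
  rw [this]
  refine isClosed_iInter fun g => ?_
  refine IsClosed.preimage ?_ (isClosed_discrete P)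
  exact continuous_pi fun d => continuous_apply _

end Pool.Agent.TH88.SI
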