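import Mathlib
import Pool.Agent.TH88.SI.Prod

/-!
# Density of periodic points passes to free products, II
-/

set_option autoImplicit false
set_option linter.unusedSectionVars false

namespace Pool.Agent.TH88.SI.FP

open Monoid

section trans

variable {ι L : Type} {G H : ι → Type} [∀ i, Group (G i)] [∀ i, Group (H i)]
  (S : ∀ i, Set (G i)) (rel : ∀ i, G i → L → L → Prop)

/-- the subshift given by a relation along the generators `S i`. -/
def Cr (i : ι) : Set (G i → L) := {c | ∀ h, ∀ s ∈ S i, rel i s (c h) (c (s * h))}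

/-- its points that factor through `π i`. -/
def Cq (π : ∀ i, G i →* H i) (i : ι) : Set (H i → L) :=
  {c | (fun g => c (π i g)) ∈ Cr S rel i}

/-- the induced homomorphism. -/
def Pi (π : ∀ i, G i →* H i) : CoprodI G →* CoprodI H :=
  CoprodI.lift (fun i => (CoprodI.of : H i →* CoprodI H).comp (π i))

theorem Pi_of (π : ∀ i, G i →* H i) (i : ι) (g : G i) :
    Pi π (CoprodI.of g) = CoprodI.of (π i g) := by
  unfold Pi
  rw [CoprodI.lift_of]
  rfl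

variable {S rel}

theorem cs_rel {z : CoprodI G → L} :
    z ∈ CS (Cr S rel) ↔ ∀ i, ∀ s ∈ S i, ∀ g, rel i s (z g) (z (CoprodI.of s * g)) := by
  constructor
  · intro hz i s hs g
    have h1 := hz g i 1 s hs
    simp only [map_one, one_mul, mul_one] at h1
    exact h1
  · intro hz g i h s hs
    show rel i s (z (CoprodI.of h * g)) (z (CoprodI.of (s * h) * g))
    rw [map_mul, mul_assoc]
    exact hz i s hs _

variable {π : ∀ i, G i →* H i}

theorem cs_q {x : CoprodI H → L} :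
    x ∈ CS (Cq S rel π) ↔ ∀ i, ∀ s ∈ S i, ∀ u, rel i s (x u) (x (CoprodI.of (π i s) * u)) := by
  constructor
  · intro hx i s hs u
    have h1 : rel i s (x (CoprodI.of (π i 1) * u)) (x (CoprodI.of (π i (s * 1)) * u)) :=
      hx u i 1 s hs
    simp only [map_one, one_mul, mul_one] at h1
    exact h1
  · intro hx u i h s hs
    show rel i s (x (CoprodI.of (π i h) * u)) (x (CoprodI.of (π i (s * h)) * u))
    rw [map_mul, map_mul, mul_assoc]
    exact hx i s hs _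

theorem cs_pull {x : CoprodI H → L} (hx : x ∈ CS (Cq S rel π)) :
    (fun g => x (Pi π g)) ∈ CS (Cr S rel) := by
  rw [cs_rel]
  intro i s hs g
  show rel i s (x (Pi π g)) (x (Pi π (CoprodI.of s * g)))
  rw [map_mul, Pi_of]
  exact cs_q.1 hx i s hs _

/-- transplantation of a local modification. -/
theorem transplant (Q Qp : Set (CoprodI G)) (h1Q : (1 : CoprodI G) ∈ Q) (hQQ : Q ⊆ Qp)
    (hQp : ∀ i, ∀ s ∈ S i, ∀ q ∈ Q, CoprodI.of s * q ∈ Qp ∧ (CoprodI.of s)⁻¹ * q ∈ Qp)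
    (hinj : ∀ q ∈ Qp, ∀ r ∈ Qp, Pi π q = Pi π r → q = r)
    (hmix : ∀ z₁ ∈ CS (Cr S rel), ∀ z₂ ∈ CS (Cr S rel), ∃ z ∈ CS (Cr S rel), z 1 = z₁ 1 ∧
      ∀ r ∈ Qp, r ∉ Q → z r = z₂ r) :
    ∀ x ∈ CS (Cq S rel π), ∀ x' ∈ CS (Cq S rel π), ∃ z ∈ CS (Cq S rel π), z 1 = x' 1 ∧
      ∀ g ∉ (Pi π) '' Q, z g = x g := by
  classical
  intro x hx x' hx'
  obtain ⟨z, hz, hz1, hz2⟩ := hmix _ (cs_pull hx') _ (cs_pull hx)
  let z' : CoprodI H → L := fun g => if h : ∃ q ∈ Q, Pi π q = g then z h.choose else x g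
  have hout : ∀ g, g ∉ (Pi π) '' Q → z' g = x g := fun g hg => dif_neg hg
  have hin : ∀ r ∈ Qp, z' (Pi π r) = z r := by
    intro r hr
    by_cases h : ∃ q ∈ Q, Pi π q = Pi π r
    · have h1 : z' (Pi π r) = z h.choose := dif_pos h
      rw [h1, hinj _ (hQQ h.choose_spec.1) r hr h.choose_spec.2]
    · have h1 : z' (Pi π r) = x (Pi π r) := dif_neg h
      have hrQ : r ∉ Q := fun h2 => h ⟨r, h2, rfl⟩
      rw [h1, hz2 r hr hrQ]
  refine ⟨z', ?_, ?_, hout⟩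
  · rw [cs_q]
    intro i s hs u
    by_cases hu : ∃ q ∈ Q, Pi π q = u
    · obtain ⟨q, hq, rfl⟩ := hu
      have e1 : CoprodI.of (π i s) * Pi π q = Pi π (CoprodI.of s * q) := by
        rw [map_mul, Pi_of]
      rw [e1, hin q (hQQ hq), hin _ (hQp i s hs q hq).1]
      exact cs_rel.1 hz i s hs q
    · by_cases hv : ∃ q ∈ Q, Pi π q = CoprodI.of (π i s) * u
      · obtain ⟨q, hq, hqv⟩ := hv
        have e1 : u = Pi π ((CoprodI.of s)⁻¹ * q) := by
          rw [map_mul, map_inv, Pi_of, hqv, inv_mul_cancel_left]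
        have e2 : z' u = z ((CoprodI.of s)⁻¹ * q) := by
          rw [e1]
          exact hin _ (hQp i s hs q hq).2
        have e3 : z' (CoprodI.of (π i s) * u) = z q := by
          rw [← hqv]
          exact hin _ (hQQ hq)
        rw [e2, e3]
        have h3 := cs_rel.1 hz i s hs ((CoprodI.of s)⁻¹ * q)
        rw [mul_inv_cancel_left] at h3
        exact h3
      · have e2 : z' u = x u := dif_neg hu
        have e3 : z' (CoprodI.of (π i s) * u) = x (CoprodI.of (π i s) * u) := dif_neg hv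
        rw [e2, e3]
        exact cs_q.1 hx i s hs u
  · have h1 := hin 1 (hQQ h1Q)
    rw [map_one] at h1
    rw [h1, hz1]
    show x' (Pi π 1) = x' 1
    rw [map_one]

theorem Cq_inv (hπ : ∀ i, Function.Surjective (π i)) (i : ι) (c : H i → L)
    (hc : c ∈ Cq S rel π i) (h : H i) : (fun k => c (k * h)) ∈ Cq S rel π i := by
  obtain ⟨g, rfl⟩ := hπ i h
  intro k s hs
  show rel i s (c (π i k * π i g)) (c (π i (s * k) * π i g))
  rw [← map_mul, ← map_mul, mul_assoc]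
  exact hc (k * g) s hs

theorem Cq_ext (hπ : ∀ i, Function.Surjective (π i)) (i : ι) (c : G i → L) (hc : c ∈ Cr S rel i)
    (hker : ∀ n, π i n = 1 → ∀ h, c (h * n) = c h) : ∃ c' ∈ Cq S rel π i, c' 1 = c 1 := by
  have key : ∀ h, c (Function.surjInv (hπ i) (π i h)) = c h := by
    intro h
    have h1 := hker (h⁻¹ * Function.surjInv (hπ i) (π i h)) (by
      rw [map_mul, Function.surjInv_eq (hπ i), map_inv, inv_mul_cancel]) h
    rw [mul_inv_cancel_left] at h1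
    exact h1
  refine ⟨fun q => c (Function.surjInv (hπ i) q), ?_, ?_⟩
  · intro h s hs
    show rel i s (c (Function.surjInv (hπ i) (π i h))) (c (Function.surjInv (hπ i) (π i (s * h))))
    rw [key, key]
    exact hc h s hs
  · have := key 1
    rw [map_one] at this
    exact this

end trans

/-- injectivity on a finite set. -/
theorem Pi_inj {ι : Type} {G H : ι → Type} [∀ i, Group (G i)] [∀ i, Group (H i)]
    (π : ∀ i, G i →* H i) (g : CoprodI G) (hg : ∀ s ∈ wd g, π s.1 s.2 ≠ 1) (h1 : Pi π g = 1) :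
    g = 1 := by
  let f : (Σ i, G i) → (Σ i, H i) := fun s => ⟨s.1, π s.1 s.2⟩
  have hpr : ∀ l : List (Σ i, G i), Pi π (pr l) = pr (l.map f) := by
    intro l
    induction l with
    | nil => exact map_one _
    | cons s l ih =>
      rw [pr_cons, map_mul, Pi_of, ih, List.map_cons, pr_cons]
  have hW : IsW ((wd g).map f) := by
    refine ⟨?_, ?_⟩
    · intro s hs
      obtain ⟨t, ht, rfl⟩ := List.mem_map.1 hs
      exact hg t ht
    · rw [List.isChain_map]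
      exact (wd_isW g).2
  have h2 : pr ((wd g).map f) = pr ([] : List (Σ i, H i)) := by
    rw [← hpr, pr_wd, h1, pr_nil]
  have h3 := pr_inj hW isW_nil h2
  rw [List.map_eq_nil_iff] at h3
  exact wd_eq_nil.1 h3

section mix

variable {ι : Type} {G : ι → Type} [∀ i, Group (G i)] {A : Type} {S : ∀ i, Set (G i)} {R : ℕ}
  {X : Set (CoprodI G → A)} {E : Set (CoprodI G)}

/-- the separation set for labels. -/
def Dh (B Δ : Set (CoprodI G)) : Set (CoprodI G) :=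
  (fun t : CoprodI G × CoprodI G × CoprodI G => t.1⁻¹ * t.2.1 * t.2.2) '' (B ×ˢ (Δ ×ˢ B))

theorem mix (hE : E ⊆ Bw S R) (hX : LocOn E X) (hB : (Bw S R).Finite) (Δ : Set (CoprodI G))
    (hΔ : ∀ Ω₁ Ω₂ : Set (CoprodI G), Ω₁.Finite → Ω₂.Finite → (∀ d ∈ Δ, ∀ w ∈ Ω₁, d * w ∉ Ω₂) →
      ∀ x₁ ∈ X, ∀ x₂ ∈ X, ∃ z ∈ X, (∀ w ∈ Ω₁, z w = x₁ w) ∧ (∀ w ∈ Ω₂, z w = x₂ w))
    (Ω₁ Ω₂ : Set (CoprodI G)) (h1 : Ω₁.Finite) (h2 : Ω₂.Finite)
    (hd : ∀ d ∈ Dh (Bw S R) Δ, ∀ w ∈ Ω₁, d * w ∉ Ω₂) (z₁ : CoprodI G → Lab (Bw S R) X)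
    (hz₁ : z₁ ∈ CS (Cc S (Bw S R) X)) (z₂ : CoprodI G → Lab (Bw S R) X)
    (hz₂ : z₂ ∈ CS (Cc S (Bw S R) X)) :
    ∃ z ∈ CS (Cc S (Bw S R) X), (∀ w ∈ Ω₁, z w = z₁ w) ∧ (∀ w ∈ Ω₂, z w = z₂ w) := by
  obtain ⟨y₁, hy₁, hyz₁⟩ := unhat hE hX hz₁
  obtain ⟨y₂, hy₂, hyz₂⟩ := unhat hE hX hz₂
  obtain ⟨y, hy, hya, hyb⟩ := hΔ (Set.image2 (· * ·) (Bw S R) Ω₁) (Set.image2 (· * ·) (Bw S R) Ω₂)
    (hB.image2 _ h1) (hB.image2 _ h2) (by
      rintro δ hδ _ ⟨b, hb, w, hw, rfl⟩ ⟨b', hb', w', hw', he⟩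
      refine hd (b'⁻¹ * δ * b) ⟨(b', δ, b), ⟨hb', hδ, hb⟩, rfl⟩ w hw ?_
      have he' : b' * w' = δ * (b * w) := he
      have : b'⁻¹ * δ * b * w = w' := by
        rw [mul_assoc, mul_assoc, ← he', inv_mul_cancel_left]
      rw [this]
      exact hw') y₁ hy₁ y₂ hy₂
  refine ⟨hat hX.1 y hy, hat_mem hX.1 y hy, fun w hw => ?_, fun w hw => ?_⟩
  · apply Subtype.ext
    funext b
    rw [hyz₁ w b]
    exact hya _ ⟨b.1, b.2, w, hw, rfl⟩
  · apply Subtype.ext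
    funext b
    rw [hyz₂ w b]
    exact hyb _ ⟨b.1, b.2, w, hw, rfl⟩

theorem cc_shift {B : Set (CoprodI G)} (i : ι) (c : G i → Lab B X) (hc : c ∈ Cc S B X i)
    (h : G i) : (fun k => c (k * h)) ∈ Cc S B X i := by
  intro k s hs
  have := hc (k * h) s hs
  rw [← mul_assoc] at this
  exact this

theorem cc_loc {B : Set (CoprodI G)} (i : ι) : LocOn (S i ∪ {1}) (Cc S B X i) := by
  refine ⟨fun c hc g => cc_shift i c hc g, fun c hc h s hs => ?_⟩
  obtain ⟨c', hc', h1⟩ := hc h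
  have h2 := hc' 1 s hs
  rw [mul_one, h1 1 (Or.inr rfl), h1 s (Or.inl hs), one_mul] at h2
  exact h2

/-- every point of a coset subshift extends. -/
theorem ext_cs {B : Set (CoprodI G)} (hinv : ∀ x ∈ X, ∀ g, sh g x ∈ X) (i : ι) (c : G i → Lab B X)
    (hc : c ∈ Cc S B X i) : ∃ z ∈ CS (Cc S B X), ∀ h, z (CoprodI.of h) = c h := by
  have h1 : ∀ p : Lab B X, ∃ x ∈ X, ∀ b : B, x b.1 = p.1 b := fun p => p.2
  choose xx hxx hxp using h1
  have hat1 : ∀ p : Lab B X, hat hinv (xx p) (hxx p) 1 = p := by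
    intro p
    apply Subtype.ext
    funext b
    show xx p (b.1 * 1) = p.1 b
    rw [mul_one, hxp]
  obtain ⟨y, hy, hy2⟩ := glue2 (Cc S B X) (fun i c hc h => cc_shift i c hc h) i c hc
    (fun h => hat hinv (xx (c h)) (hxx (c h))) (fun h => hat_mem hinv _ _) (fun h => hat1 _)
  refine ⟨y, hy, fun h => ?_⟩
  have h3 := hy2 h 1 (by rw [ty_one]; simp)
  rw [one_mul] at h3
  rw [h3]
  exact hat1 _

theorem cc_si (hE : E ⊆ Bw S R) (hX : LocOn E X) (hB : (Bw S R).Finite) (Δ : Set (CoprodI G))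
    (hΔf : Δ.Finite)
    (hΔ : ∀ Ω₁ Ω₂ : Set (CoprodI G), Ω₁.Finite → Ω₂.Finite → (∀ d ∈ Δ, ∀ w ∈ Ω₁, d * w ∉ Ω₂) →
      ∀ x₁ ∈ X, ∀ x₂ ∈ X, ∃ z ∈ X, (∀ w ∈ Ω₁, z w = x₁ w) ∧ (∀ w ∈ Ω₂, z w = x₂ w)) (i : ι) :
    SIrr (Cc S (Bw S R) X i) := by
  classical
  have hinj : Function.Injective (CoprodI.of : G i → CoprodI G) := CoprodI.of_injective i
  have hDf : (Dh (Bw S R) Δ).Finite := (hB.prod (hΔf.prod hB)).image _
  refine ⟨(CoprodI.of : G i → CoprodI G) ⁻¹' Dh (Bw S R) Δ, hDf.preimage hinj.injOn, ?_⟩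
  intro Ω₁ Ω₂ h1 h2 hd c₁ hc₁ c₂ hc₂
  obtain ⟨z₁, hz₁, e₁⟩ := ext_cs hX.1 i c₁ hc₁
  obtain ⟨z₂, hz₂, e₂⟩ := ext_cs hX.1 i c₂ hc₂
  obtain ⟨z, hz, ha, hb⟩ := mix hE hX hB Δ hΔ (CoprodI.of '' Ω₁) (CoprodI.of '' Ω₂) (h1.image _)
    (h2.image _) (by
      rintro d hd' _ ⟨w, hw, rfl⟩ ⟨w', hw', he⟩
      have e3 : d = CoprodI.of (w' * w⁻¹) := by
        rw [map_mul, map_inv, he, mul_inv_cancel_right]
      subst e3
      refine hd (w' * w⁻¹) hd' w hw ?_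
      rw [inv_mul_cancel_right]
      exact hw') z₁ hz₁ z₂ hz₂
  refine ⟨fun h => z (CoprodI.of h), CS.of_mem _ hz i, fun w hw => ?_, fun w hw => ?_⟩
  · show z (CoprodI.of w) = c₁ w
    rw [ha _ ⟨w, hw, rfl⟩, e₁]
  · show z (CoprodI.of w) = c₂ w
    rw [hb _ ⟨w, hw, rfl⟩, e₂]

end mix

end Pool.Agent.TH88.SI.FP
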