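import Mathlib
import Pool.Agent.TH88.SI.Prod2

/-!
# Density of periodic points passes to free products, III
-/

set_option autoImplicit false
set_option linter.unusedSectionVars false

namespace Pool.Agent.TH88.SI.FP

open Monoid

/-- density of periodic points passes to finite free products. -/
theorem DP_coprod_fin {ι : Type} [Finite ι] {G : ι → Type} [∀ i, Group (G i)]
    (hG : ∀ i, DP (G i)) : DP (CoprodI G) := by
  classical
  intro A _ X E hE hX hSI x hx F hF
  obtain ⟨Δ, hΔf, hΔ⟩ := hSI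
  have : Fintype ι := Fintype.ofFinite ι
  have hinv := hX.1
  have hEF : (E ∪ F).Finite := hE.union hF
  -- the letters
  let S : ∀ i, Set (G i) := fun i => {s | ∃ g ∈ E ∪ F, (⟨i, s⟩ : Σ i, G i) ∈ wd g ∨
    (⟨i, s⁻¹⟩ : Σ i, G i) ∈ wd g}
  have hlet : ∀ (i : ι) (l : List (Σ i, G i)), {s : G i | (⟨i, s⟩ : Σ i, G i) ∈ l}.Finite := by
    intro i l
    exact (List.finite_toSet l).preimage (f := fun s : G i => (⟨i, s⟩ : Σ i, G i))
      (fun a _ b _ h => by simpa using h)
  have hS : ∀ i, (S i).Finite := by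
    intro i
    have h1 : S i ⊆ ⋃ g ∈ E ∪ F, ({s : G i | (⟨i, s⟩ : Σ i, G i) ∈ wd g} ∪
        (fun s : G i => s⁻¹) '' {s : G i | (⟨i, s⟩ : Σ i, G i) ∈ wd g}) := by
      rintro s ⟨g, hg, h | h⟩
      · exact Set.mem_biUnion hg (Or.inl h)
      · exact Set.mem_biUnion hg (Or.inr ⟨s⁻¹, h, inv_inv s⟩)
    exact (hEF.biUnion fun g _ => (hlet i _).union ((hlet i _).image _)).subset h1
  obtain ⟨R, hR⟩ : ∃ R, E ∪ F ⊆ Bw S R := by
    refine ⟨hEF.toFinset.sup fun g => (wd g).length, fun g hg => ?_⟩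
    refine ⟨wd g, ?_, fun s hs => ⟨g, hg, Or.inl hs⟩, pr_wd g⟩
    exact Finset.le_sup (f := fun g => (wd g).length) (hEF.mem_toFinset.2 hg)
  have hEB : E ⊆ Bw S R := Set.subset_union_left.trans hR
  have hFB : F ⊆ Bw S R := Set.subset_union_right.trans hR
  have hB := Bw_finite S hS R
  have hBf : Finite (Bw S R) := hB
  have hLf : Finite (Lab (Bw S R) X) :=
    inferInstanceAs (Finite {p : Bw S R → A // ∃ x ∈ X, ∀ b : Bw S R, x b.1 = p b})
  have : Fintype (Lab (Bw S R) X) := Fintype.ofFinite _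
  have : Nonempty (Lab (Bw S R) X) := ⟨hat hinv x hx 1⟩
  -- periodic points of the coset subshifts
  have hDP : ∀ i (p : Lab (Bw S R) X), ∃ c ∈ Cc S (Bw S R) X i,
      (Set.range (fun g => sh g c)).Finite ∧ c 1 = p := by
    intro i p
    obtain ⟨z, hz, hzp⟩ := p.2
    obtain ⟨c, hc, hc1, hc2⟩ := hG i (Lab (Bw S R) X) (Cc S (Bw S R) X i) (S i ∪ {1})
      ((hS i).union (Set.finite_singleton 1)) (cc_loc i) (cc_si hEB hX hB Δ hΔf hΔ i)
      (fun h => hat hinv z hz (CoprodI.of h)) (CS.of_mem _ (hat_mem hinv z hz) i) {1}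
      (Set.finite_singleton 1)
    refine ⟨c, hc, hc1, ?_⟩
    rw [hc2 1 rfl]
    apply Subtype.ext
    funext b
    show z (b.1 * CoprodI.of 1) = p.1 b
    rw [map_one, mul_one, hzp]
  choose c hcC hcf hc1 using hDP
  -- the finite sets
  let Q : Set (CoprodI G) := {1} ∪ Dh (Bw S R) Δ
  have hQ : Q.Finite := (Set.finite_singleton 1).union ((hB.prod (hΔf.prod hB)).image _)
  let Qp : Set (CoprodI G) := Q ∪ ⋃ i, (Set.image2 (fun (s : G i) (q : CoprodI G) =>
    CoprodI.of s * q) (S i) Q ∪ Set.image2 (fun (s : G i) (q : CoprodI G) =>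
    (CoprodI.of s)⁻¹ * q) (S i) Q)
  have hQp : Qp.Finite := hQ.union (Set.finite_iUnion fun i =>
    ((hS i).image2 _ hQ).union ((hS i).image2 _ hQ))
  let T : ∀ i, Set (G i) := fun i => ⋃ q ∈ Qp, ⋃ r ∈ Qp, {t : G i | (⟨i, t⟩ : Σ i, G i) ∈ wd (q⁻¹ * r)}
  have hT : ∀ i, (T i).Finite := fun i => hQp.biUnion fun q _ => hQp.biUnion fun r _ => hlet i _
  have hT1 : ∀ i, (1 : G i) ∉ T i := by
    intro i h
    simp only [T, Set.mem_iUnion] at h
    obtain ⟨q, -, r, -, h⟩ := h
    exact (wd_isW _).1 _ h rfl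
  have hN : ∀ i, ∃ N : Subgroup (G i), N.Normal ∧ N.FiniteIndex ∧
      (∀ p, ∀ n ∈ N, ∀ h, c i p (h * n) = c i p h) ∧ ∀ t ∈ T i, t ∉ N := fun i =>
    exists_normal (hG i) (c i) (hcf i) (T i) (hT i) (hT1 i)
  choose N hNn hNf hNc hNT using hN
  have : ∀ i, Finite (G i ⧸ N i) := fun i => by
    have := hNf i
    exact Subgroup.finite_quotient_of_finiteIndex
  have : ∀ i, Fintype (G i ⧸ N i) := fun i => Fintype.ofFinite _
  let π : ∀ i, G i →* G i ⧸ N i := fun i => QuotientGroup.mk' (N i)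
  have hπ : ∀ i, Function.Surjective (π i) := fun i => QuotientGroup.mk'_surjective (N i)
  have hker : ∀ i n, π i n = 1 → n ∈ N i := fun i n h => (QuotientGroup.eq_one_iff n).1 h
  let rel : ∀ i, G i → Lab (Bw S R) X → Lab (Bw S R) X → Prop := fun i s p q => Rl s p q
  obtain ⟨V, hV, lab, act, hlab, hact⟩ := exists_model (H := fun i => G i ⧸ N i)
    (Cq S rel π) (fun i c hc h => Cq_inv hπ i c hc h) (by
      intro i p
      obtain ⟨c', hc', hc'1⟩ := Cq_ext (rel := rel) hπ i (c i p) (hcC i p)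
        (fun n hn h => hNc i p n (hker i n hn) h)
      exact ⟨c', hc', by rw [hc'1, hc1]⟩) ((Pi π) '' Q) (hQ.image _)
    (transplant (rel := rel) Q Qp (Or.inl rfl) (fun q hq => Or.inl hq) (by
      intro i s hs q hq
      exact ⟨Or.inr (Set.mem_iUnion.2 ⟨i, Or.inl ⟨s, hs, q, hq, rfl⟩⟩),
        Or.inr (Set.mem_iUnion.2 ⟨i, Or.inr ⟨s, hs, q, hq, rfl⟩⟩)⟩) (by
      intro q hq r hr he
      have h1 : q⁻¹ * r = 1 := by
        refine Pi_inj π _ ?_ (by rw [map_mul, map_inv, he, inv_mul_cancel])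
        rintro ⟨i, t⟩ ht h2
        refine hNT i t ?_ (hker i t h2)
        exact Set.mem_biUnion hq (Set.mem_biUnion hr ht)
      exact (inv_mul_eq_one.1 h1)) (by
      intro z₁ hz₁ z₂ hz₂
      obtain ⟨z, hz, ha, hb⟩ := mix hEB hX hB Δ hΔ {1} (Qp \ Q) (Set.finite_singleton 1)
        (hQp.subset Set.sdiff_subset) (by
          rintro d hd w hw hdw
          rw [Set.mem_singleton_iff] at hw
          subst hw
          rw [mul_one] at hdw
          exact hdw.2 (Or.inr hd)) z₁ hz₁ z₂ hz₂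
      exact ⟨z, hz, ha 1 rfl, fun r hr hrQ => hb r ⟨hr, hrQ⟩⟩))
  obtain ⟨v₀, hv₀⟩ := hlab (hat hinv x hx 1)
  let ρ : CoprodI G →* Equiv.Perm V := CoprodI.lift fun i => (act i).comp (π i)
  have hρ : ∀ i (g : G i), ρ (CoprodI.of g) = act i (π i g) := by
    intro i g
    show CoprodI.lift _ (CoprodI.of g) = _
    rw [CoprodI.lift_of]
    rfl
  have hŷ : (fun g => lab (ρ g v₀)) ∈ CS (Cc S (Bw S R) X) := by
    intro g i
    have h1 : (fun h : G i => lab (ρ (CoprodI.of h * g) v₀)) =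
        fun h => lab (act i (π i h) (ρ g v₀)) := by
      funext h
      rw [map_mul, hρ, Equiv.Perm.mul_apply]
    show (fun h : G i => lab (ρ (CoprodI.of h * g) v₀)) ∈ _
    rw [h1]
    exact hact i (ρ g v₀)
  obtain ⟨y, hy, hyb⟩ := unhat hEB hX hŷ
  refine ⟨y, hy, ?_, ?_⟩
  · refine (Set.finite_range (fun v : V => fun h : CoprodI G =>
      (lab (ρ h v)).1 ⟨1, one_mem_Bw S R⟩)).subset ?_
    rintro _ ⟨g, rfl⟩
    refine ⟨ρ g v₀, ?_⟩
    funext h
    show (lab (ρ h (ρ g v₀))).1 ⟨1, one_mem_Bw S R⟩ = y (h * g)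
    have h1 := hyb (h * g) ⟨1, one_mem_Bw S R⟩
    rw [one_mul] at h1
    rw [← h1, map_mul, Equiv.Perm.mul_apply]
  · intro b hb
    have h1 := hyb 1 ⟨b, hFB hb⟩
    rw [mul_one] at h1
    rw [← h1, map_one]
    show (lab v₀).1 ⟨b, hFB hb⟩ = x b
    rw [hv₀]
    show x (b * 1) = x b
    rw [mul_one]

/-- density of periodic points passes to arbitrary free products. -/
theorem DP_coprod {ι : Type} {G : ι → Type} [∀ i, Group (G i)] (hG : ∀ i, DP (G i)) :
    DP (CoprodI G) := by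
  classical
  refine DP_retract fun C hC => ?_
  -- the finite set of types
  let J : Set ι := ⋃ g ∈ C, {i | ∃ s ∈ wd g, s.1 = i}
  have hJ : J.Finite := hC.biUnion fun g _ => by
    have : {i | ∃ s ∈ wd g, s.1 = i} = Sigma.fst '' {s | s ∈ wd g} := by
      ext i
      simp only [Set.mem_image]
      exact Iff.rfl
    rw [this]
    exact (List.finite_toSet (wd g)).image _
  have : Finite J := hJ
  let e : CoprodI (fun j : J => G j) →* CoprodI G := CoprodI.lift fun j => CoprodI.of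
  let r : CoprodI G →* CoprodI (fun j : J => G j) := CoprodI.lift fun i =>
    if h : i ∈ J then (CoprodI.of (M := fun j : J => G j) (i := ⟨i, h⟩)) else 1
  refine ⟨CoprodI (fun j : J => G j), inferInstance, e, r, ?_, ?_,
    DP_coprod_fin (fun j => hG j)⟩
  · intro k
    have h1 : r.comp e = MonoidHom.id _ := by
      refine CoprodI.ext_hom _ _ fun j => ?_
      ext g
      show r (e (CoprodI.of (M := fun j : J => G j) (i := j) g)) =
        CoprodI.of (M := fun j : J => G j) (i := j) g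
      have h2 : e (CoprodI.of (M := fun j : J => G j) (i := j) g) =
          CoprodI.of (M := G) (i := j.1) g := CoprodI.lift_of _ _
      have h3 : r (CoprodI.of (M := G) (i := j.1) g) = (if h : j.1 ∈ J then
          (CoprodI.of (M := fun j : J => G j) (i := ⟨j.1, h⟩)) else 1 :
            G j.1 →* CoprodI (fun j : J => G j)) g := CoprodI.lift_of _ _
      rw [h2, h3, dif_pos j.2]
    exact DFunLike.congr_fun h1 k
  · intro g hg
    have h1 : ∀ l : List (Σ i, G i), (∀ s ∈ l, s.1 ∈ J) → pr l ∈ Set.range e := by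
      intro l
      induction l with
      | nil => exact fun _ => ⟨1, map_one _⟩
      | cons s l ih =>
        intro hs
        obtain ⟨k, hk⟩ := ih fun t ht => hs t (List.mem_cons_of_mem _ ht)
        refine ⟨CoprodI.of (M := fun j : J => G j) (i := ⟨s.1, hs s List.mem_cons_self⟩) s.2 * k, ?_⟩
        rw [map_mul, hk, pr_cons]
        congr 1
    have h2 := h1 (wd g) fun s hs => Set.mem_biUnion hg ⟨s, hs, rfl⟩
    rw [pr_wd] at h2
    exact h2

end Pool.Agent.TH88.SI.FP
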