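import Mathlib
import Pool.Agent.TH88.SI.Z2
import Pool.Agent.TH88.SI.Final
import Pool.Agent.TH88.SI.Prod3

/-!
# From the left shift conventions to the right shift conventions
-/

set_option autoImplicit false
set_option linter.unusedSectionVars false

namespace Pool.Agent.TH88.SI

theorem DP_of_left {G : Type} [Group G]
    (hG : ∀ (A : Type) [Finite A] (X : Set (G → A)),
      (∃ (D : Finset G) (P : Set (D → A)), X = {x | ∀ g : G, (fun d : D => x (g * d.1)) ∈ P}) →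
      (∃ Δ : Finset G, ∀ Ω₁ Ω₂ : Finset G, (∀ w ∈ Ω₁, ∀ d ∈ Δ, w * d ∉ Ω₂) →
        ∀ x₁ ∈ X, ∀ x₂ ∈ X, ∃ z ∈ X, (∀ w ∈ Ω₁, z w = x₁ w) ∧ (∀ w ∈ Ω₂, z w = x₂ w)) →
      ∀ x ∈ X, ∀ F : Finset G, ∃ y ∈ X,
        (Set.range (fun g : G => fun h : G => y (g⁻¹ * h))).Finite ∧ ∀ h ∈ F, y h = x h) :
    DP G := by
  classical
  intro A _ X E hE hX hSI x hx F hF
  obtain ⟨Δ, hΔ, hsi⟩ := hSI
  obtain ⟨y, hy, hy1, hy2⟩ := hG A {z | (fun g => z g⁻¹) ∈ X} (by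
    refine ⟨hE.toFinset.image (fun g => g⁻¹), {p | ∃ x' ∈ X, ∀ d, p d = x' (d.1)⁻¹}, ?_⟩
    ext z
    constructor
    · intro hz g
      have hz' : (fun g => z g⁻¹) ∈ X := hz
      refine ⟨_, hX.1 _ hz' g⁻¹, fun d => ?_⟩
      show z (g * d.1) = z ((d.1)⁻¹ * g⁻¹)⁻¹
      rw [mul_inv_rev, inv_inv, inv_inv]
    · intro hz
      show (fun g => z g⁻¹) ∈ X
      refine hX.2 _ fun g => ?_
      obtain ⟨x', hx', h1⟩ := hz g⁻¹
      refine ⟨x', hx', fun e he => ?_⟩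
      have h2 := h1 ⟨e⁻¹, Finset.mem_image.2 ⟨e, (Set.Finite.mem_toFinset _).2 he, rfl⟩⟩
      simp only [inv_inv] at h2
      rw [← h2]
      show z (g⁻¹ * e⁻¹) = z (e * g)⁻¹
      rw [mul_inv_rev]) (by
    refine ⟨hΔ.toFinset.image (fun g => g⁻¹), ?_⟩
    intro Ω₁ Ω₂ hd x₁ hx₁ x₂ hx₂
    obtain ⟨z, hz, hz1, hz2⟩ := hsi ((fun g : G => g⁻¹) '' (Ω₁ : Set G))
      ((fun g : G => g⁻¹) '' (Ω₂ : Set G)) ((Ω₁.finite_toSet).image _) ((Ω₂.finite_toSet).image _)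
      (by
        rintro d hdΔ _ ⟨w, hw, rfl⟩ ⟨w', hw', he⟩
        refine hd w hw d⁻¹ (Finset.mem_image.2 ⟨d, (Set.Finite.mem_toFinset _).2 hdΔ, rfl⟩) ?_
        have he' : w'⁻¹ = d * w⁻¹ := he
        have : w' = w * d⁻¹ := by
          rw [← inv_inv w', he', mul_inv_rev, inv_inv]
        rw [← this]
        exact hw') _ hx₁ _ hx₂
    refine ⟨fun g => z g⁻¹, ?_, fun w hw => ?_, fun w hw => ?_⟩
    · show (fun g => z g⁻¹⁻¹) ∈ X
      simp only [inv_inv]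
      exact hz
    · show z w⁻¹ = x₁ w
      rw [hz1 w⁻¹ ⟨w, hw, rfl⟩]
      show x₁ w⁻¹⁻¹ = x₁ w
      rw [inv_inv]
    · show z w⁻¹ = x₂ w
      rw [hz2 w⁻¹ ⟨w, hw, rfl⟩]
      show x₂ w⁻¹⁻¹ = x₂ w
      rw [inv_inv]) (fun g => x g⁻¹)
    (by show (fun g => x g⁻¹⁻¹) ∈ X; simp only [inv_inv]; exact hx)
    (hF.toFinset.image (fun g => g⁻¹))
  refine ⟨fun g => y g⁻¹, hy, ?_, ?_⟩
  · refine (hy1.image (fun z : G → A => fun h : G => z h⁻¹)).subset ?_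
    rintro _ ⟨g, rfl⟩
    refine ⟨fun h => y (g⁻¹ * h), ⟨g, rfl⟩, ?_⟩
    funext h
    show y (g⁻¹ * h⁻¹) = y (h * g)⁻¹
    rw [mul_inv_rev]
  · intro h hh
    show y h⁻¹ = x h
    rw [hy2 h⁻¹ (Finset.mem_image.2 ⟨h, (Set.Finite.mem_toFinset _).2 hh, rfl⟩)]
    show x h⁻¹⁻¹ = x h
    rw [inv_inv]

/-- `G` is virtually a subgroup of a free product of groups from the class. -/
theorem DP_virt {G : Type} [Group G] {H : Subgroup G} (hH : H.FiniteIndex) {ι : Type}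
    {K : ι → Type} [∀ i, Group (K i)] (hK : ∀ i, DP (K i)) (φ : H →* Monoid.CoprodI K)
    (hφ : Function.Injective φ) : DP G := by
  have : Finite (G ⧸ H) := inferInstance
  exact DP_fi H (DP_inj φ hφ (FP.DP_coprod hK))

/-- virtually a subgroup of `ℤ²`. -/
theorem DP_vZ2 {G : Type} [Group G] (h : ∃ (L : Subgroup G) (f : L →* Multiplicative (ℤ × ℤ)),
    L.FiniteIndex ∧ Function.Injective f) : DP G := by
  obtain ⟨L, f, hL, hf⟩ := h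
  have : Finite (G ⧸ L) := inferInstance
  exact DP_fi L (DP_inj f hf DP_Z2)

end Pool.Agent.TH88.SI
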