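import Pool.Agent.TH88.SI.Final

/-!
# Subshifts with topological strong spatial mixing over residually finite groups
-/

set_option autoImplicit false

namespace Pool.Agent.TH88.SI.Tssm

variable {G A : Type} [Group G]

theorem avoid (hRF : ∀ g : G, g ≠ 1 → ∃ H : Subgroup G, H.FiniteIndex ∧ g ∉ H) (E : Finset G) :
    ∃ N : Subgroup G, N.Normal ∧ N.FiniteIndex ∧ ∀ e ∈ E, e ≠ 1 → e ∉ N := by
  classical
  induction E using Finset.induction with
  | empty => exact ⟨⊤, inferInstance, inferInstance, by simp⟩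
  | insert a s ha ih =>
    obtain ⟨N, h1, h2, h3⟩ := ih
    by_cases h : a = 1
    · refine ⟨N, h1, h2, fun e he hne => ?_⟩
      rcases Finset.mem_insert.1 he with h4 | he
      · exact absurd (h4.trans h) hne
      · exact h3 e he hne
    · obtain ⟨H, hH, haH⟩ := hRF a h
      refine ⟨N ⊓ H.normalCore, inferInstance, inferInstance, fun e he hne => ?_⟩
      rcases Finset.mem_insert.1 he with h4 | he
      · exact fun hc => haH (H.normalCore_le (h4 ▸ hc.2))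
      · exact fun hc => h3 e he hne hc.1

/-- every `B`-window of the partial configuration `y` on `T` extends to a point of `X`. -/
def Good (X : Set (G → A)) (B : Finset G) (T : Set G) (y : G → A) : Prop :=
  ∀ g : G, ∃ x ∈ X, ∀ b ∈ B, g * b ∈ T → x (g * b) = y (g * b)

/-- the single site form of strong spatial mixing. -/
def Mix (X : Set (G → A)) (B : Finset G) : Prop :=
  ∀ (u : G) (V W : Finset G), (∀ b ∈ B, u * b ∉ V) → ∀ x₁ ∈ X, ∀ x₂ ∈ X,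
    (∀ w ∈ W, x₁ w = x₂ w) → ∃ z ∈ X, z u = x₁ u ∧ (∀ w ∈ W, z w = x₁ w) ∧ ∀ v ∈ V, z v = x₂ v

theorem step (X : Set (G → A)) (hinv : ∀ g : G, ∀ x ∈ X, (fun h => x (g⁻¹ * h)) ∈ X)
    (B : Finset G) (hT : Mix X B)
    (N : Subgroup G) (hNn : N.Normal) (hN : ∀ b ∈ B, ∀ b' ∈ B, b⁻¹ * b' ∈ N → b⁻¹ * b' = 1)
    (T : Set G) (hTN : ∀ n ∈ N, ∀ t ∈ T, n * t ∈ T)
    (y : G → A) (hy : ∀ n ∈ N, ∀ t, y (n * t) = y t)
    (hgood : Good X B T y) (u : G) (hu : u ∉ T) :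
    ∃ y' : G → A, (∀ n ∈ N, ∀ t, y' (n * t) = y' t) ∧ (∀ t ∈ T, y' t = y t) ∧
      Good X B (T ∪ {h | h * u⁻¹ ∈ N}) y' := by
  classical
  obtain ⟨x1, hx1, h1⟩ := hgood u
  have hTc : ∀ t ∈ T, t * u⁻¹ ∉ N := by
    intro t ht hc
    apply hu
    have h2 := hTN _ (N.inv_mem hc) t ht
    have h3 : (t * u⁻¹)⁻¹ * t = u := by group
    rwa [h3] at h2
  refine ⟨fun h => if h * u⁻¹ ∈ N then x1 u else y h, ?_, ?_, ?_⟩
  · intro n hn t
    have h2 : n * t * u⁻¹ ∈ N ↔ t * u⁻¹ ∈ N := by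
      rw [mul_assoc]
      exact N.mul_mem_cancel_left hn
    simp only [h2, hy n hn t]
  · intro t ht
    simp only [hTc t ht, if_false]
  · intro g
    by_cases hex : ∃ b ∈ B, g * b * u⁻¹ ∈ N
    · obtain ⟨b₀, hb₀, hn⟩ := hex
      obtain ⟨x2, hx2, h2⟩ := hgood g
      obtain ⟨n, hnd⟩ : ∃ n, n = g * b₀ * u⁻¹ := ⟨_, rfl⟩
      rw [← hnd] at hn
      have hnu : g * b₀ = n * u := by rw [hnd]; group
      have hagree : ∀ w ∈ T, (∃ b ∈ B, w = n * u * b) → x1 (n⁻¹ * w) = y w := by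
        rintro w hwT ⟨b, hb, hwb⟩
        have h3 : n⁻¹ * w = u * b := by rw [hwb]; group
        have h4 : n⁻¹ * w ∈ T := hTN _ (N.inv_mem hn) w hwT
        have h5 := h1 b hb (by rw [← h3]; exact h4)
        rw [h3, h5, ← h3, hy _ (N.inv_mem hn)]
      obtain ⟨z, hz, hzu, hzW, hzV⟩ := hT (n * u)
        ((B.image (g * ·)).filter fun h => h ∈ T ∧ ¬ ∃ b ∈ B, h = n * u * b)
        ((B.image (g * ·)).filter fun h => h ∈ T ∧ ∃ b ∈ B, h = n * u * b)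
        (by
          intro b hb hc
          exact (Finset.mem_filter.1 hc).2.2 ⟨b, hb, rfl⟩)
        (fun h => x1 (n⁻¹ * h)) (hinv n x1 hx1) x2 hx2
        (by
          intro w hw
          obtain ⟨hw1, hw2, hw3⟩ := Finset.mem_filter.1 hw
          obtain ⟨b, hb, rfl⟩ := Finset.mem_image.1 hw1
          show x1 (n⁻¹ * (g * b)) = x2 (g * b)
          rw [hagree _ hw2 hw3, h2 b hb hw2])
      refine ⟨z, hz, fun b hb hgb => ?_⟩
      rcases hgb with hgb | hgb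
      · have h6 : ¬ (g * b * u⁻¹ ∈ N) := hTc _ hgb
        simp only [h6, if_false]
        by_cases hb2 : ∃ b' ∈ B, g * b = n * u * b'
        · rw [hzW (g * b) (Finset.mem_filter.2 ⟨Finset.mem_image.2 ⟨b, hb, rfl⟩, hgb, hb2⟩)]
          exact hagree _ hgb hb2
        · rw [hzV (g * b) (Finset.mem_filter.2 ⟨Finset.mem_image.2 ⟨b, hb, rfl⟩, hgb, hb2⟩)]
          exact h2 b hb hgb
      · have h6 : g * b * u⁻¹ ∈ N := hgb
        simp only [h6, if_true]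
        have h7 : b₀⁻¹ * b ∈ N := by
          have h8 : b₀⁻¹ * b = u⁻¹ * (n⁻¹ * (g * b * u⁻¹)) * u := by
            have : b₀ = g⁻¹ * (n * u) := by rw [← hnu]; group
            rw [this]; group
          rw [h8]
          have h9 := hNn.conj_mem _ (N.mul_mem (N.inv_mem hn) h6) u⁻¹
          simpa using h9
        have h8 : b = b₀ := by
          have := hN b₀ hb₀ b hb h7
          exact (inv_mul_eq_one.1 this).symm
        rw [h8, hnu, hzu]
        show x1 (n⁻¹ * (n * u)) = x1 u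
        rw [inv_mul_cancel_left]
    · obtain ⟨x2, hx2, h2⟩ := hgood g
      refine ⟨x2, hx2, fun b hb hgb => ?_⟩
      have h3 : ¬ (g * b * u⁻¹ ∈ N) := fun hc => hex ⟨b, hb, hc⟩
      simp only [h3, if_false]
      rcases hgb with hgb | hgb
      · exact h2 b hb hgb
      · exact absurd hgb h3

theorem fill (X : Set (G → A)) (hinv : ∀ g : G, ∀ x ∈ X, (fun h => x (g⁻¹ * h)) ∈ X)
    (B : Finset G) (hT : Mix X B)
    (N : Subgroup G) (hNn : N.Normal) (hN : ∀ b ∈ B, ∀ b' ∈ B, b⁻¹ * b' ∈ N → b⁻¹ * b' = 1)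
    (T : Set G) (hTN : ∀ n ∈ N, ∀ t ∈ T, n * t ∈ T)
    (y : G → A) (hy : ∀ n ∈ N, ∀ t, y (n * t) = y t)
    (hgood : Good X B T y) (R : Finset G) :
    ∃ (T' : Set G) (y' : G → A), (∀ n ∈ N, ∀ t ∈ T', n * t ∈ T') ∧
      (∀ n ∈ N, ∀ t, y' (n * t) = y' t) ∧ T ⊆ T' ∧ (∀ t ∈ T, y' t = y t) ∧ Good X B T' y' ∧
      ∀ r ∈ R, r ∈ T' := by
  classical
  induction R using Finset.induction with
  | empty => exact ⟨T, y, hTN, hy, subset_rfl, fun _ _ => rfl, hgood, by simp⟩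
  | insert u s hus ih =>
    obtain ⟨T', y', h1, h2, h3, h4, h5, h6⟩ := ih
    by_cases hu : u ∈ T'
    · refine ⟨T', y', h1, h2, h3, h4, h5, fun r hr => ?_⟩
      rcases Finset.mem_insert.1 hr with rfl | hr
      · exact hu
      · exact h6 r hr
    · obtain ⟨y'', k1, k2, k3⟩ := step X hinv B hT N hNn hN T' h1 y' h2 h5 u hu
      refine ⟨T' ∪ {h | h * u⁻¹ ∈ N}, y'', ?_, k1, ?_, ?_, k3, ?_⟩
      · rintro n hn t (ht | ht)
        · exact Or.inl (h1 n hn t ht)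
        · right
          show n * t * u⁻¹ ∈ N
          rw [mul_assoc]
          exact N.mul_mem hn ht
      · exact h3.trans Set.subset_union_left
      · intro t ht
        rw [k2 t (h3 ht), h4 t ht]
      · intro r hr
        rcases Finset.mem_insert.1 hr with rfl | hr
        · right
          show r * r⁻¹ ∈ N
          rw [mul_inv_cancel]
          exact N.one_mem
        · exact Or.inl (h6 r hr)

theorem mem_of_good [TopologicalSpace A] [DiscreteTopology A] (X : Set (G → A))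
    (hcl : IsClosed X) (B : Finset G) (hB1 : (1 : G) ∈ B) (hT : Mix X B)
    (y : G → A) (hgood : ∀ g : G, ∃ x ∈ X, ∀ b ∈ B, x (g * b) = y (g * b)) : y ∈ X := by
  classical
  have hfin : ∀ T : Finset G, ∃ z ∈ X, ∀ t ∈ T, z t = y t := by
    intro T
    induction T using Finset.induction with
    | empty =>
      obtain ⟨x, hx, -⟩ := hgood 1
      exact ⟨x, hx, by simp⟩
    | insert u s hus ih =>
      obtain ⟨x2, hx2, h2⟩ := ih
      obtain ⟨x1, hx1, h1⟩ := hgood u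
      obtain ⟨z, hz, hzu, hzW, hzV⟩ := hT u (s.filter fun h => ¬ ∃ b ∈ B, h = u * b)
        (s.filter fun h => ∃ b ∈ B, h = u * b)
        (by
          intro b hb hc
          exact (Finset.mem_filter.1 hc).2 ⟨b, hb, rfl⟩) x1 hx1 x2 hx2
        (by
          intro w hw
          obtain ⟨hw1, b, hb, rfl⟩ := Finset.mem_filter.1 hw
          rw [h1 b hb, h2 _ hw1])
      refine ⟨z, hz, fun t ht => ?_⟩
      rcases Finset.mem_insert.1 ht with rfl | ht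
      · rw [hzu]
        have := h1 1 hB1
        rwa [mul_one] at this
      · by_cases hb : ∃ b ∈ B, t = u * b
        · rw [hzW t (Finset.mem_filter.2 ⟨ht, hb⟩)]
          obtain ⟨b, hb, rfl⟩ := hb
          exact h1 b hb
        · rw [hzV t (Finset.mem_filter.2 ⟨ht, hb⟩)]
          exact h2 t ht
  rw [← hcl.closure_eq]
  refine mem_closure_iff.2 fun o ho hyo => ?_
  obtain ⟨I, v, hv, hsub⟩ := isOpen_pi_iff.1 ho y hyo
  obtain ⟨z, hz, hzI⟩ := hfin I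
  refine ⟨z, hsub ?_, hz⟩
  intro i hi
  rw [hzI i hi]
  exact (hv i hi).2

theorem dense [TopologicalSpace A] [DiscreteTopology A]
    (hRF : ∀ g : G, g ≠ 1 → ∃ H : Subgroup G, H.FiniteIndex ∧ g ∉ H)
    (X : Set (G → A)) (hcl : IsClosed X)
    (hinv : ∀ g : G, ∀ x ∈ X, (fun h => x (g⁻¹ * h)) ∈ X)
    (B : Finset G) (hB1 : (1 : G) ∈ B) (hT : Mix X B) :
    ∀ x ∈ X, ∀ F : Finset G, ∃ y ∈ X,
      (Set.range (fun g : G => fun h : G => y (g⁻¹ * h))).Finite ∧ ∀ h ∈ F, y h = x h := by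
  classical
  intro x0 hx0 F
  obtain ⟨N, hNn, hNf, hNa⟩ := avoid hRF
    ((B ×ˢ B).image (fun p => p.1⁻¹ * p.2) ∪
      ((F ×ˢ F) ×ˢ (B ×ˢ B)).image (fun p => p.1.1 * (p.2.1⁻¹ * p.2.2) * p.1.2⁻¹))
  have hN1 : ∀ b ∈ B, ∀ b' ∈ B, b⁻¹ * b' ∈ N → b⁻¹ * b' = 1 := by
    intro b hb b' hb' hm
    by_contra hc
    exact hNa _ (Finset.mem_union_left _ (Finset.mem_image.2
      ⟨(b, b'), Finset.mem_product.2 ⟨hb, hb'⟩, rfl⟩)) hc hm
  have hN2 : ∀ f ∈ F, ∀ f' ∈ F, ∀ b ∈ B, ∀ b' ∈ B, f * (b⁻¹ * b') * f'⁻¹ ∈ N →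
      f * (b⁻¹ * b') * f'⁻¹ = 1 := by
    intro f hf f' hf' b hb b' hb' hm
    by_contra hc
    exact hNa _ (Finset.mem_union_right _ (Finset.mem_image.2
      ⟨((f, f'), (b, b')), Finset.mem_product.2 ⟨Finset.mem_product.2 ⟨hf, hf'⟩,
        Finset.mem_product.2 ⟨hb, hb'⟩⟩, rfl⟩)) hc hm
  obtain ⟨y0, hy0⟩ : ∃ y0 : G → A, y0 = fun h => if hh : ∃ f ∈ F, h * f⁻¹ ∈ N then
    x0 hh.choose else x0 1 := ⟨_, rfl⟩
  have hkey : ∀ h f, f ∈ F → h * f⁻¹ ∈ N → y0 h = x0 f := by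
    intro h f hf hm
    have hh : ∃ f ∈ F, h * f⁻¹ ∈ N := ⟨f, hf, hm⟩
    rw [hy0]
    simp only [hh, dif_pos]
    obtain ⟨k1, k2⟩ := hh.choose_spec
    congr 1
    have h3 := N.mul_mem (N.inv_mem k2) hm
    have h4 := hN2 _ k1 f hf 1 hB1 1 hB1 (by
      have : hh.choose * (1⁻¹ * 1) * f⁻¹ = (h * hh.choose⁻¹)⁻¹ * (h * f⁻¹) := by group
      rw [this]; exact h3)
    have h5 : hh.choose * f⁻¹ = 1 := by simpa using h4
    exact mul_inv_eq_one.1 h5
  have hy0i : ∀ n ∈ N, ∀ t, y0 (n * t) = y0 t := by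
    intro n hn t
    by_cases hh : ∃ f ∈ F, t * f⁻¹ ∈ N
    · obtain ⟨f, hf, hm⟩ := hh
      rw [hkey t f hf hm, hkey (n * t) f hf (by rw [mul_assoc]; exact N.mul_mem hn hm)]
    · have hh2 : ¬ ∃ f ∈ F, n * t * f⁻¹ ∈ N := by
        rintro ⟨f, hf, hm⟩
        refine hh ⟨f, hf, ?_⟩
        rw [mul_assoc] at hm
        exact (N.mul_mem_cancel_left hn).1 hm
      rw [hy0]
      simp only [hh, hh2, dif_neg, not_false_eq_true]
  have hT0 : ∀ n ∈ N, ∀ t ∈ {h : G | ∃ f ∈ F, h * f⁻¹ ∈ N},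
      n * t ∈ {h : G | ∃ f ∈ F, h * f⁻¹ ∈ N} := by
    rintro n hn t ⟨f, hf, hm⟩
    exact ⟨f, hf, by rw [mul_assoc]; exact N.mul_mem hn hm⟩
  have hgood0 : Good X B {h : G | ∃ f ∈ F, h * f⁻¹ ∈ N} y0 := by
    intro g
    by_cases hex : ∃ b ∈ B, ∃ f ∈ F, g * b * f⁻¹ ∈ N
    · obtain ⟨b, hb, f, hf, hn⟩ := hex
      refine ⟨_, hinv (g * b * f⁻¹) x0 hx0, ?_⟩
      rintro b' hb' ⟨f', hf', hn'⟩
      show x0 ((g * b * f⁻¹)⁻¹ * (g * b')) = y0 (g * b')
      rw [hkey _ f' hf' hn']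
      congr 1
      have h3 := N.mul_mem (N.inv_mem hn) hn'
      have h4 : (g * b * f⁻¹)⁻¹ * (g * b' * f'⁻¹) = f * (b⁻¹ * b') * f'⁻¹ := by group
      rw [h4] at h3
      have h5 := hN2 f hf f' hf' b hb b' hb' h3
      have h6 : (g * b * f⁻¹)⁻¹ * (g * b') = (f * (b⁻¹ * b') * f'⁻¹) * f' := by group
      rw [h6, h5, one_mul]
    · refine ⟨x0, hx0, ?_⟩
      rintro b hb ⟨f, hf, hm⟩
      exact absurd ⟨b, hb, f, hf, hm⟩ hex
  have : Finite (G ⧸ N) := inferInstance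
  obtain ⟨R, hR⟩ : ∃ R : Finset G, ∀ g : G, ∃ r ∈ R, g * r⁻¹ ∈ N := by
    have := Fintype.ofFinite (G ⧸ N)
    refine ⟨Finset.univ.image (fun q : G ⧸ N => q.out), fun g => ?_⟩
    refine ⟨((g : G ⧸ N)).out, Finset.mem_image.2 ⟨_, Finset.mem_univ _, rfl⟩, ?_⟩
    obtain ⟨n, hn⟩ := QuotientGroup.mk_out_eq_mul N g
    rw [hn, mul_inv_rev]
    have := hNn.conj_mem _ (N.inv_mem n.2) g
    rw [← mul_assoc]
    exact this
  obtain ⟨T', y, h1, h2, h3, h4, h5, h6⟩ := fill X hinv B hT N hNn hN1 _ hT0 y0 hy0i hgood0 R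
  have hTu : ∀ g, g ∈ T' := by
    intro g
    obtain ⟨r, hr, hm⟩ := hR g
    have := h1 _ hm r (h6 r hr)
    have h7 : g * r⁻¹ * r = g := by group
    rwa [h7] at this
  refine ⟨y, ?_, ?_, ?_⟩
  · refine mem_of_good X hcl B hB1 hT y fun g => ?_
    obtain ⟨x, hx, h⟩ := h5 g
    exact ⟨x, hx, fun b hb => h b hb (hTu _)⟩
  · refine (Set.finite_range (fun q : G ⧸ N => fun h : G => y (q.out⁻¹ * h))).subset ?_
    rintro _ ⟨g, rfl⟩
    refine ⟨(g : G ⧸ N), ?_⟩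
    funext h
    obtain ⟨n, hn⟩ := QuotientGroup.mk_out_eq_mul N g
    show y ((g : G ⧸ N).out⁻¹ * h) = y (g⁻¹ * h)
    rw [hn, mul_inv_rev, mul_assoc, h2 _ (N.inv_mem n.2)]
  · intro h hh
    have hm : h * h⁻¹ ∈ N := by rw [mul_inv_cancel]; exact N.one_mem
    rw [h4 h ⟨h, hh, hm⟩, hkey h h hh hm]

end Pool.Agent.TH88.SI.Tssm
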